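import Pool.Agent.Work.MP_35f602_nt.Main

set_option autoImplicit false
set_option linter.unusedSectionVars false
set_option linter.unusedSimpArgs false
set_option linter.unusedVariables false

namespace Pool.Agent.Work.MP_35f602_nt

open WeierstrassCurve WeierstrassCurve.Affine Polynomial

/-- The field-theoretic core: normalised `a`, `b`. -/
theorem core {p : ℕ} (hp5 : 5 ≤ p) (hodd : Odd p) [hq : Fact (mersenne p).Prime]
    (T : ℕ → ℤ) (T1 : T 1 = 4) (Ts : ∀ k : ℕ, 1 ≤ k → T (k + 1) = T k ^ 2 - 2)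
    {a' b' : ℤ} (hN : 4 * (1 + 4 * a') ^ 2 + 27 * (1 + 16 * b') ^ 2 = (mersenne p : ℤ)) :
    T (p - 2) ≡ (if Even a' then 1 else -1) * 2 ^ ((p + 1) / 2) [ZMOD (mersenne p : ℤ)] := by
  classical
  set q := mersenne p with hqdef
  let K := AlgebraicClosure (ZMod q)
  have : CharP K q := charP_of_injective_algebraMap (algebraMap (ZMod q) K).injective q
  have hq1 : q + 1 = 2 ^ p := by
    rw [hqdef, mersenne]
    exact Nat.sub_add_cancel Nat.one_le_two_pow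
  have hpow : ∀ k : ℕ, k ≤ p → 2 ^ p = 2 ^ k * 2 ^ (p - k) := by
    intro k hk
    rw [← pow_add, Nat.add_sub_cancel' hk]
  have hq32 : 32 ≤ q + 1 := by
    rw [hq1]
    calc 32 = 2 ^ 5 := by norm_num
      _ ≤ 2 ^ p := Nat.pow_le_pow_right (by norm_num) hp5
  have hq5 : 5 ≤ q := by omega
  have hb : Odd (1 + 16 * b') := ⟨8 * b', by ring⟩
  have hf : ∀ x : K, x ^ q = frobenius K q x := fun x => (frobenius_def q x).symm
  have hFnat : ∀ j : ℕ, (j : K) ^ q = j := by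
    intro j
    rw [← frobenius_def, map_natCast]
  have h2K : (2 : K) ≠ 0 := by
    intro h
    have h' : ((2 : ℕ) : K) = 0 := by exact_mod_cast h
    rw [CharP.cast_eq_zero_iff K q] at h'
    have := Nat.le_of_dvd (by norm_num) h'
    omega
  obtain ⟨i, hi⟩ : ∃ i : K, i ^ 2 = -1 := IsAlgClosed.exists_pow_nat_eq _ (by norm_num)
  obtain ⟨h, hh⟩ := hodd
  have hh1 : (p + 1) / 2 = h + 1 := by omega
  have hh2 : 2 * (h + 1) = p + 1 := by omega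
  obtain ⟨r, hrdef⟩ : ∃ r : K, r = 2 ^ (h + 1) := ⟨_, rfl⟩
  have h2p : (2 : K) ^ p = 1 := by
    have : ((2 ^ p : ℕ) : K) = ((q + 1 : ℕ) : K) := by rw [hq1]
    push_cast at this
    rw [this, CharP.cast_eq_zero, zero_add]
  have hr2 : r ^ 2 = 2 := by
    rw [hrdef, ← pow_mul, mul_comm, hh2, pow_succ, h2p, one_mul]
  have hr0 : r ≠ 0 := by
    rw [hrdef]; exact pow_ne_zero _ h2K
  obtain ⟨z, hzdef⟩ : ∃ z : K, z = (1 + i) / r := ⟨_, rfl⟩
  have hz2 : z ^ 2 = i := by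
    rw [hzdef, div_pow, hr2, div_eq_iff h2K]
    linear_combination hi
  have hz : z ^ 4 = -1 := by
    rw [show z ^ 4 = (z ^ 2) ^ 2 by ring, hz2, hi]
  have hzr : r = z - z ^ 3 := by
    have e1 : z - z ^ 3 = z * (1 - i) := by rw [← hz2]; ring
    rw [e1, hzdef, div_mul_eq_mul_div, eq_div_iff hr0]
    linear_combination hr2 + hi
  have z8 : z ^ 8 = 1 := by rw [show z ^ 8 = (z ^ 4) ^ 2 by ring, hz]; ring
  have hz0 : z ≠ 0 := by
    rintro rfl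
    norm_num at z8
  have hzq1 : z ^ (q + 1) = 1 := by
    rw [hq1, hpow 3 (by omega), pow_mul]
    norm_num
    rw [z8, one_pow]
  have hzq : z ^ q = -z ^ 3 := by
    apply mul_right_cancel₀ hz0
    rw [← pow_succ, hzq1]
    linear_combination hz
  obtain ⟨ξ, hξ⟩ : ∃ ξ : K, ξ ^ 2 = z := IsAlgClosed.exists_pow_nat_eq _ (by norm_num)
  have hξ0 : ξ ≠ 0 := by
    rintro rfl
    apply hz0; rw [← hξ]; ring
  have hξq : ξ ^ q * ξ = 1 := by
    rw [← pow_succ, hq1, hpow 4 (by omega), pow_mul]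
    have : ξ ^ 2 ^ 4 = 1 := by
      rw [show ξ ^ 2 ^ 4 = (ξ ^ 2) ^ 8 by ring, hξ, z8]
    rw [this, one_pow]
  obtain ⟨ρ, hρdef⟩ : ∃ ρ : K, ρ = 2 ^ ((h + 1) * (h + 1)) := ⟨_, rfl⟩
  have hρ : ρ ^ 2 = r := by
    have h2p1 : (2 : K) ^ (p + 1) = 2 := by rw [pow_succ, h2p, one_mul]
    rw [hρdef, ← pow_mul, show (h + 1) * (h + 1) * 2 = (p + 1) * (h + 1) by rw [← hh2]; ring,
      pow_mul, h2p1, hrdef]
  have hρq : ρ ^ q = ρ := by
    have : ρ = ((2 ^ ((h + 1) * (h + 1)) : ℕ) : K) := by rw [hρdef]; push_cast; rfl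
    rw [this, hFnat]
  obtain ⟨s, hsdef⟩ : ∃ s : K, s = -z ^ 2 * (ξ - ξ⁻¹) := ⟨_, rfl⟩
  have hs : s ^ 2 = 2 - r := by
    have e1 : ξ * ξ⁻¹ = 1 := mul_inv_cancel₀ hξ0
    have e2 : (ξ⁻¹) ^ 2 = -z ^ 3 := by
      apply mul_left_cancel₀ hz0
      linear_combination (-(ξ⁻¹) ^ 2) * hξ + (ξ * ξ⁻¹ + 1) * e1 + hz
    rw [hsdef, hzr]
    linear_combination (z ^ 4) * hξ + z ^ 4 * e2 - 2 * z ^ 4 * e1 + (z - z ^ 3 - 2) * hz
  have hsq : s ^ q = s := by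
    have e1 : ξ ^ q = ξ⁻¹ := by
      apply mul_right_cancel₀ hξ0
      rw [hξq, inv_mul_cancel₀ hξ0]
    rw [hsdef, hf, map_mul, map_neg, map_pow, map_sub, map_inv₀, ← hf, ← hf, hzq, e1, inv_inv]
    linear_combination (-z ^ 2 * (ξ⁻¹ - ξ)) * hz
  obtain ⟨w, e, c, S, hwq, heq, hF⟩ := exists_w (K := K) (q := q) hq5 hN hb hi
  obtain ⟨n, hn⟩ : ∃ n : K, n ^ 2 = w ^ 2 + z ^ 2 * w :=
    IsAlgClosed.exists_pow_nat_eq _ (by norm_num)
  obtain ⟨ν, hν⟩ : ∃ ν : K, ν ^ 2 = n := IsAlgClosed.exists_pow_nat_eq _ (by norm_num)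
  subst hz2
  have key := sign_formula S hz hn hwq heq hzq hF hzr hξ hν hρ hs hξq hρq hsq
  set σ : K := if Even a' then (1 : K) else -1 with hσ
  have hσ2 : σ ^ 2 = 1 := by
    rw [hσ]; split_ifs <;> norm_num
  -- the Lucas sequence
  obtain ⟨ω, hω⟩ : ∃ ω : K, ω = 2 - z ^ 2 * (2 * w + 1) := ⟨_, rfl⟩
  obtain ⟨ω', hω'⟩ : ∃ ω' : K, ω' = 2 + z ^ 2 * (2 * w + 1) := ⟨_, rfl⟩
  have hprod : ω * ω' = 1 := by
    rw [hω, hω']
    linear_combination 4 * S.hw - (2 * w + 1) ^ 2 * hz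
  have hsum : ω + ω' = 4 := by rw [hω, hω']; ring
  have hT : ∀ k : ℕ, ((T (k + 1) : ℤ) : K) = ω ^ 2 ^ k + ω' ^ 2 ^ k := by
    intro k
    induction k with
    | zero => rw [T1]; push_cast; rw [pow_one, pow_one, hsum]
    | succ k ih =>
      rw [Ts (k + 1) (by omega)]
      push_cast
      rw [ih]
      have : ω ^ 2 ^ k * ω' ^ 2 ^ k = 1 := by rw [← mul_pow, hprod, one_pow]
      rw [pow_succ 2 k, pow_mul, pow_mul]
      linear_combination 2 * this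
  have hν8 : ν ^ 8 = z ^ 2 * ω := by
    rw [hω]
    have : ν ^ 8 = (n ^ 2) ^ 2 := by rw [← hν]; ring
    rw [this, hn]
    linear_combination (w ^ 2 - w - 1 + 2 * z ^ 2 * (w - 1)) * S.hw + (w ^ 2 + 2 * w + 1) * hz
  have hωp : ω ^ 2 ^ (p - 3) = σ * (-z ^ 3) := by
    rw [← key, ← pow_succ, hq1, hpow 3 (by omega), pow_mul]
    norm_num
    rw [hν8, mul_pow, ← pow_mul]
    have : z ^ (2 * 2 ^ (p - 3)) = 1 := by
      have : 2 * 2 ^ (p - 3) = 8 * 2 ^ (p - 5) := by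
        rw [show p - 3 = p - 5 + 2 by omega, pow_add]; ring
      rw [this, pow_mul, z8, one_pow]
    rw [this, one_mul]
  have hωp' : ω' ^ 2 ^ (p - 3) = σ * z := by
    have h1 : ω ^ 2 ^ (p - 3) * ω' ^ 2 ^ (p - 3) = 1 := by rw [← mul_pow, hprod, one_pow]
    have h2 : (σ * z) * (ω ^ 2 ^ (p - 3)) = 1 := by
      rw [hωp]; linear_combination (-z ^ 4) * hσ2 - hz
    calc ω' ^ 2 ^ (p - 3) = ((σ * z) * (ω ^ 2 ^ (p - 3))) * ω' ^ 2 ^ (p - 3) := by rw [h2, one_mul]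
      _ = (σ * z) * (ω ^ 2 ^ (p - 3) * ω' ^ 2 ^ (p - 3)) := by ring
      _ = σ * z := by rw [h1, mul_one]
  have fin := hT (p - 3)
  rw [hωp, hωp', show p - 3 + 1 = p - 2 by omega] at fin
  have fin' : ((T (p - 2) : ℤ) : K) =
      (((if Even a' then 1 else -1) * 2 ^ ((p + 1) / 2) : ℤ) : K) := by
    have e1 : (((if Even a' then 1 else -1 : ℤ)) : K) = σ := by
      rw [hσ]; split_ifs <;> simp
    have e2 : (2 : K) ^ (h + 1) = z - z ^ 3 := by rw [← hrdef, hzr]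
    rw [fin, hh1, Int.cast_mul, Int.cast_pow, e1, Int.cast_ofNat, e2]
    ring
  rw [← sub_eq_zero, ← Int.cast_sub, CharP.intCast_eq_zero_iff K q] at fin'
  exact (Int.modEq_iff_dvd.2 fin').symm

end Pool.Agent.Work.MP_35f602_nt
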