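import Pool.Agent.Work.MP_35f602_nt.Reps

set_option autoImplicit false
set_option linter.unusedSectionVars false
set_option linter.unusedSimpArgs false
set_option linter.unusedVariables false

namespace Pool.Agent.Work.MP_35f602_nt

open WeierstrassCurve WeierstrassCurve.Affine Polynomial

variable {K : Type*} [Field K] [DecidableEq K] [IsAlgClosed K]
variable {c : K} (hg : Good c) {w : K} (hw : Cube w)

lemma rep_zero : Rep hg hw 0 0 1 0 := by
  refine ⟨monic_one, by simp, by simp, by simp, ?_⟩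
  intro x y h
  simp [act]

lemma act_one_zero (P : (E c).Point) : act hg hw 1 0 P = P := by simp [act]
lemma act_zero_one (P : (E c).Point) : act hg hw 0 1 P = W hg hw P := by simp [act]
lemma act_one_one (P : (E c).Point) : act hg hw 1 1 P = - W hg hw (W hg hw P) := by
  simp only [act, one_smul]
  exact eq_neg_of_add_eq_zero_left (W_rel hg hw P)

lemma rep_one : Rep hg hw 1 0 X 1 := by
  refine ⟨monic_X, by simp, by rw [degree_one, degree_X]; exact zero_lt_one, by simp, ?_⟩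
  intro x y h
  rw [act_one_zero]
  simp

lemma rep_w : Rep hg hw 0 1 X (C (w ^ 2)) := by
  have hw0 : w ^ 2 ≠ 0 := pow_ne_zero 2 hw.ne_zero
  refine ⟨monic_X, by simp, by rw [degree_C hw0, degree_X]; exact zero_lt_one, ?_, ?_⟩
  · rintro x ⟨_, h⟩
    simp only [eval_C] at h
    exact hw0 h
  · intro x y h
    rw [act_zero_one, W_mkPt hg hw h (W_eqn hw h)]
    simp only [eval_X, eval_C, px_mkPt, pz_mkPt]
    linear_combination -x * hw.cube

lemma rep_1w : Rep hg hw 1 1 X (C w) := by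
  have hw0 : w ≠ 0 := hw.ne_zero
  refine ⟨monic_X, by simp, by rw [degree_C hw0, degree_X]; exact zero_lt_one, ?_, ?_⟩
  · rintro x ⟨_, h⟩
    simp only [eval_C] at h
    exact hw0 h
  · intro x y h
    rw [act_one_one, W_mkPt hg hw h (W_eqn hw h), W_mkPt hg hw _ (W_eqn hw (W_eqn hw h))]
    simp only [eval_X, eval_C, px_neg, pz_neg, px_mkPt, pz_mkPt]
    linear_combination -x * hw.cube

variable {hg hw}

lemma Rep.neg {m n : ℤ} {f g : K[X]} (H : Rep hg hw m n f g) : Rep hg hw (-m) (-n) f g := by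
  refine ⟨H.monic, ?_, H.lt, H.cop, ?_⟩
  · rw [H.deg]; ring
  · intro x y h
    rw [act_neg, px_neg, pz_neg]
    exact H.rel x y h

variable (hg hw)

/-- existence of a representation -/
def HasRep (m n : ℤ) : Prop := ∃ f g, Rep hg hw m n f g

variable {hg hw}

lemma HasRep.step {m n m' n' m₀ n₀ m₁ n₁ : ℤ} (h1 : HasRep hg hw m n) (h2 : HasRep hg hw m' n')
    (h0 : HasRep hg hw m₀ n₀) (e1 : m₀ = m - m') (e2 : n₀ = n - n') (e3 : m₁ = m + m')
    (e4 : n₁ = n + n') : HasRep hg hw m₁ n₁ := by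
  subst e1 e2 e3 e4
  obtain ⟨f₁, g₁, h1⟩ := h1
  obtain ⟨f₂, g₂, h2⟩ := h2
  obtain ⟨f₀, g₀, h0⟩ := h0
  obtain ⟨f, g, h, _⟩ := h1.step h2 h0
  exact ⟨f, g, h⟩

lemma HasRep.neg {m n : ℤ} (h : HasRep hg hw m n) : HasRep hg hw (-m) (-n) := by
  obtain ⟨f, g, h⟩ := h
  exact ⟨f, g, h.neg⟩

lemma hasRep_nat_zero (k : ℕ) : HasRep hg hw k 0 ∧ HasRep hg hw (k + 1) 0 := by
  induction k with
  | zero => exact ⟨⟨1, 0, by simpa using rep_zero hg hw⟩, ⟨X, 1, by simpa using rep_one hg hw⟩⟩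
  | succ k ih =>
    refine ⟨by exact_mod_cast ih.2, ?_⟩
    exact HasRep.step (m := (k : ℤ) + 1) (n := 0) (m' := 1) (n' := 0) ih.2
      ⟨X, 1, rep_one hg hw⟩ ih.1 (by ring) (by ring) (by push_cast; ring) (by ring)

lemma hasRep_zero (m : ℤ) : HasRep hg hw m 0 := by
  rcases Int.eq_nat_or_neg m with ⟨k, rfl | rfl⟩
  · exact (hasRep_nat_zero k).1
  · have := (hasRep_nat_zero (hg := hg) (hw := hw) k).1.neg
    simpa using this

lemma hasRep_nat_one (k : ℕ) : HasRep hg hw k 1 ∧ HasRep hg hw (k + 1) 1 := by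
  induction k with
  | zero => exact ⟨⟨X, _, by simpa using rep_w hg hw⟩, ⟨X, _, by simpa using rep_1w hg hw⟩⟩
  | succ k ih =>
    refine ⟨by exact_mod_cast ih.2, ?_⟩
    exact HasRep.step (m := (k : ℤ) + 1) (n := 1) (m' := 1) (n' := 0) ih.2
      ⟨X, 1, rep_one hg hw⟩ ih.1 (by ring) (by ring) (by push_cast; ring) (by ring)

lemma hasRep_negnat_one (k : ℕ) : HasRep hg hw (-k) 1 ∧ HasRep hg hw (-k + 1) 1 := by
  induction k with
  | zero => exact ⟨⟨X, _, by simpa using rep_w hg hw⟩, ⟨X, _, by simpa using rep_1w hg hw⟩⟩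
  | succ k ih =>
    refine ⟨?_, ?_⟩
    · exact HasRep.step (m := -(k : ℤ)) (n := 1) (m' := -1) (n' := 0) ih.1
        (hasRep_zero (-1)) ih.2 (by ring) (by ring) (by push_cast; ring) (by ring)
    · have e : -((k + 1 : ℕ) : ℤ) + 1 = -k := by push_cast; ring
      rw [e]
      exact ih.1

lemma hasRep_one (m : ℤ) : HasRep hg hw m 1 := by
  rcases Int.eq_nat_or_neg m with ⟨k, rfl | rfl⟩
  · exact (hasRep_nat_one k).1
  · exact (hasRep_negnat_one k).1

lemma hasRep_nat (k : ℕ) : (∀ m, HasRep hg hw m k) ∧ (∀ m, HasRep hg hw m (k + 1)) := by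
  induction k with
  | zero => exact ⟨fun m => by simpa using hasRep_zero m, fun m => by simpa using hasRep_one m⟩
  | succ k ih =>
    refine ⟨fun m => by exact_mod_cast ih.2 m, fun m => ?_⟩
    exact HasRep.step (m := m) (n := (k : ℤ) + 1) (m' := 0) (n' := 1) (ih.2 m)
      ⟨X, _, rep_w hg hw⟩ (ih.1 m) (by ring) (by ring) (by ring) (by push_cast; ring)

/-- Every element of `ℤ[w]` has a representation. -/
theorem hasRep (m n : ℤ) : HasRep hg hw m n := by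
  rcases Int.eq_nat_or_neg n with ⟨k, rfl | rfl⟩
  · exact (hasRep_nat k).1 m
  · have := ((hasRep_nat (hg := hg) (hw := hw) k).1 (-m)).neg
    simpa using this

lemma Rep.natDegree_lt {m n : ℤ} {f g : K[X]} (H : Rep hg hw m n f g) (hpos : 0 < f.natDegree) :
    g.natDegree < f.natDegree := by
  by_cases h : g = 0
  · subst h; simpa using hpos
  · exact natDegree_lt_natDegree h H.lt

lemma Rep.natDegree_eq {m : ℕ} {f g : K[X]} (H : Rep hg hw m 0 f g) :
    f.natDegree = m ^ 2 := by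
  have := H.deg
  have h2 : ((f.natDegree : ℕ) : ℤ) = ((m ^ 2 : ℕ) : ℤ) := by rw [this]; push_cast; ring
  exact_mod_cast h2

/-- The chain of integer multiplications. -/
def ChainP (hg : Good c) (hw : Cube w) (n : ℕ) : Prop :=
  ∃ f₂ g₂ f₁ g₁ f₀ g₀ : K[X], Rep hg hw ((n + 2 : ℕ) : ℤ) 0 f₂ g₂ ∧
    Rep hg hw ((n + 1 : ℕ) : ℤ) 0 f₁ g₁ ∧ Rep hg hw ((n : ℕ) : ℤ) 0 f₀ g₀ ∧
    g₂.coeff ((n + 2) ^ 2 - 1) = ((n + 2 : ℕ) : K) ^ 2 ∧
    g₁.coeff ((n + 1) ^ 2 - 1) = ((n + 1 : ℕ) : K) ^ 2 ∧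
    g₂ * g₀ = (f₁ - X * g₁) ^ 2

lemma chain_zero : ChainP hg hw 0 := by
  obtain ⟨f, g, H, e0, e1, e2⟩ := (rep_one hg hw).step (rep_one hg hw)
    (f₀ := 1) (g₀ := 0) (by simpa using rep_zero hg hw)
  refine ⟨f, g, X, 1, 1, 0, by simpa using H, by simpa using rep_one hg hw,
    by simpa using rep_zero hg hw, ?_, by simp, by ring⟩
  have : g = C 4 * X ^ 3 + C (4 * c) := by
    have : (C (4 : K) : K[X]) = 4 := map_ofNat C 4
    rw [C_mul, this]
    linear_combination e1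
  rw [this]
  simp only [coeff_add, coeff_C_mul, coeff_X_pow]
  rw [coeff_C]
  norm_num

lemma chain_succ {n : ℕ} (hn : ((n + 1 : ℕ) : K) ≠ 0) (H : ChainP hg hw n) :
    ChainP hg hw (n + 1) := by
  obtain ⟨f₂, g₂, f₁, g₁, f₀, g₀, H2, H1, H0, l2, l1, rl⟩ := H
  obtain ⟨f, g, H3, e0, e1, e2⟩ := H2.step (rep_one hg hw) (f₀ := f₁) (g₀ := g₁) (by
    have : ((n + 2 : ℕ) : ℤ) - 1 = ((n + 1 : ℕ) : ℤ) := by push_cast; ring
    rw [this]
    simpa using H1)
  have H3' : Rep hg hw ((n + 1 + 2 : ℕ) : ℤ) 0 f g := by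
    have : ((n + 2 : ℕ) : ℤ) + 1 = ((n + 1 + 2 : ℕ) : ℤ) := by push_cast; ring
    rw [this] at H3
    simpa using H3
  have e2' : g * g₁ = (f₂ - X * g₂) ^ 2 := by rw [e2]; ring
  refine ⟨f, g, f₂, g₂, f₁, g₁, H3', H2, H1, ?_, l2, e2'⟩
  have n3 := H3'.natDegree_eq
  have n2 := H2.natDegree_eq
  have n1 := H1.natDegree_eq
  have b3 : g.natDegree ≤ (n + 1 + 2) ^ 2 - 1 := by
    have := H3'.natDegree_lt (by rw [n3]; positivity)
    rw [n3] at this
    omega
  have b2 : g₂.natDegree ≤ (n + 2) ^ 2 - 1 := by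
    have := H2.natDegree_lt (by rw [n2]; positivity)
    rw [n2] at this
    omega
  have b1 : g₁.natDegree ≤ (n + 1) ^ 2 - 1 := by
    have := H1.natDegree_lt (by rw [n1]; positivity)
    rw [n1] at this
    omega
  have q1 : 1 ≤ (n + 1) ^ 2 := Nat.one_le_pow _ _ (by omega)
  have q2 : 1 ≤ (n + 2) ^ 2 := Nat.one_le_pow _ _ (by omega)
  have q3 : 1 ≤ (n + 1 + 2) ^ 2 := Nat.one_le_pow _ _ (by omega)
  have bh : (f₂ - X * g₂).natDegree ≤ (n + 2) ^ 2 := by
    refine (natDegree_sub_le _ _).trans (max_le n2.le ?_)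
    refine natDegree_mul_le.trans ?_
    rw [natDegree_X]
    omega
  have ch : (f₂ - X * g₂).coeff ((n + 2) ^ 2) = 1 - ((n + 2 : ℕ) : K) ^ 2 := by
    rw [coeff_sub]
    congr 1
    · rw [← n2]; exact H2.monic
    · have : (n + 2) ^ 2 = ((n + 2) ^ 2 - 1) + 1 := by omega
      rw [this, coeff_X_mul, l2]
  have cL : (g * g₁).coeff (((n + 1 + 2) ^ 2 - 1) + ((n + 1) ^ 2 - 1)) =
      g.coeff ((n + 1 + 2) ^ 2 - 1) * g₁.coeff ((n + 1) ^ 2 - 1) :=
    coeff_mul_add_eq_of_natDegree_le b3 b1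
  have cR : ((f₂ - X * g₂) ^ 2).coeff (2 * (n + 2) ^ 2) = (1 - ((n + 2 : ℕ) : K) ^ 2) ^ 2 := by
    rw [coeff_pow_of_natDegree_le bh, ch]
  have ei : ((n + 1 + 2) ^ 2 - 1) + ((n + 1) ^ 2 - 1) = 2 * (n + 2) ^ 2 := by
    zify [q1, q3]; ring
  rw [e2', ei, cR, l1] at cL
  have hn2 : ((n + 1 : ℕ) : K) ^ 2 ≠ 0 := pow_ne_zero 2 hn
  apply mul_right_cancel₀ hn2
  rw [← cL]
  push_cast
  ring

lemma chain_all {q : ℕ} (hq : ∀ j : ℕ, 0 < j → j < q → (j : K) ≠ 0) (n : ℕ) (hn : n + 1 < q) :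
    ChainP hg hw n := by
  induction n with
  | zero => exact chain_zero
  | succ n ih => exact chain_succ (hq (n + 1) (by omega) (by omega)) (ih (by omega))

end Pool.Agent.Work.MP_35f602_nt
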