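import Mathlib

set_option autoImplicit false
set_option linter.unusedSectionVars false
set_option linter.unusedSimpArgs false

namespace Pool.Agent.Work.MP_35f602_nt

open WeierstrassCurve WeierstrassCurve.Affine

variable {K : Type*} [Field K]

/-- The curve `y ^ 2 = x ^ 3 + c`. -/
def E (c : K) : WeierstrassCurve.Affine K := ⟨0, 0, 0, 0, c⟩

lemma E_equation (c x y : K) : (E c).Equation x y ↔ y ^ 2 = x ^ 3 + c := by
  rw [WeierstrassCurve.Affine.equation_iff]
  simp [E]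

lemma E_negY (c x y : K) : (E c).negY x y = -y := by
  simp [E]

/-- The standing assumptions: characteristic not two or three, and `c ≠ 0`. -/
structure Good (c : K) : Prop where
  h2 : (2 : K) ≠ 0
  h3 : (3 : K) ≠ 0
  hc : c ≠ 0

lemma Good.nonsingular {c : K} (hg : Good c) {x y : K} (h : y ^ 2 = x ^ 3 + c) :
    (E c).Nonsingular x y := by
  rw [WeierstrassCurve.Affine.nonsingular_iff]
  refine ⟨(E_equation c x y).2 h, ?_⟩
  by_contra hcon
  push Not at hcon
  obtain ⟨hx, hy⟩ := hcon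
  simp [E] at hx hy
  have h2 := hg.h2
  have h3 := hg.h3
  have hy0 : y = 0 := by
    have : 2 * y = 0 := by linear_combination hy
    rcases mul_eq_zero.1 this with h | h
    · exact absurd h h2
    · exact h
  have hx0 : x = 0 := by
    have : (3 : K) * x ^ 2 = 0 := by
      rcases hx with h | h
      · exact absurd h h3
      · rw [h]; ring
    rcases mul_eq_zero.1 this with h | h
    · exact absurd h h3
    · exact pow_eq_zero_iff (two_ne_zero) |>.1 h
  apply hg.hc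
  rw [hx0, hy0] at h
  linear_combination -h

/-- affine point constructor -/
def mkPt {c : K} (hg : Good c) (x y : K) (h : y ^ 2 = x ^ 3 + c) : (E c).Point :=
  Point.some x y (hg.nonsingular h)

lemma eqn_of_ns {c x y : K} (h : (E c).Nonsingular x y) : y ^ 2 = x ^ 3 + c :=
  (E_equation c x y).1 h.1

variable [DecidableEq K]

lemma neg_mkPt {c : K} (hg : Good c) (x y : K) (h : y ^ 2 = x ^ 3 + c) :
    -mkPt hg x y h = mkPt hg x (-y) (by rw [neg_sq]; exact h) := by
  unfold mkPt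
  rw [Point.neg_some]
  simp [E]

lemma mkPt_add {c : K} (hg : Good c) {x₁ y₁ x₂ y₂ l x₃ y₃ : K}
    (h₁ : y₁ ^ 2 = x₁ ^ 3 + c) (h₂ : y₂ ^ 2 = x₂ ^ 3 + c) (hx : x₁ ≠ x₂)
    (hl : l * (x₁ - x₂) = y₁ - y₂) (hx₃ : x₃ = l ^ 2 - x₁ - x₂)
    (hy₃ : y₃ = -(l * (x₃ - x₁) + y₁)) (h₃ : y₃ ^ 2 = x₃ ^ 3 + c) :
    mkPt hg x₁ y₁ h₁ + mkPt hg x₂ y₂ h₂ = mkPt hg x₃ y₃ h₃ := by
  unfold mkPt
  rw [Point.add_of_X_ne hx]
  have hx' : x₁ - x₂ ≠ 0 := sub_ne_zero.2 hx
  have hl' : (E c).slope x₁ x₂ y₁ y₂ = l := by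
    rw [slope_of_X_ne hx, ← hl]; field_simp
  rw [Point.some.injEq]
  constructor
  · rw [hl', hx₃]; simp [E]
  · rw [hl', hy₃, hx₃]; simp [E, addY]

lemma mkPt_double {c : K} (hg : Good c) {x y l x₃ y₃ : K}
    (h : y ^ 2 = x ^ 3 + c) (hy : y ≠ 0)
    (hl : l * (2 * y) = 3 * x ^ 2) (hx₃ : x₃ = l ^ 2 - x - x)
    (hy₃ : y₃ = -(l * (x₃ - x) + y)) (h₃ : y₃ ^ 2 = x₃ ^ 3 + c) :
    mkPt hg x y h + mkPt hg x y h = mkPt hg x₃ y₃ h₃ := by
  unfold mkPt
  have h2 := hg.h2
  have hyy : y ≠ (E c).negY x y := by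
    rw [E_negY]
    intro h'
    have : 2 * y = 0 := by linear_combination h'
    rcases mul_eq_zero.1 this with h | h
    · exact h2 h
    · exact hy h
  rw [Point.add_self_of_Y_ne hyy]
  have hl' : (E c).slope x x y y = l := by
    rw [slope_of_Y_ne rfl hyy, E_negY]
    have : y - -y = 2 * y := by ring
    rw [this, div_eq_iff (mul_ne_zero h2 hy), hl]
    simp [E]
  rw [Point.some.injEq]
  constructor
  · rw [hl', hx₃]; simp [E]
  · rw [hl', hy₃, hx₃]; simp [E, addY]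

lemma mkPt_add_neg {c : K} (hg : Good c) {x y y' : K}
    (h : y ^ 2 = x ^ 3 + c) (h' : y' ^ 2 = x ^ 3 + c) (hy : y' = -y) :
    mkPt hg x y h + mkPt hg x y' h' = 0 := by
  subst hy
  have := neg_mkPt hg x y h
  rw [← this]
  exact add_neg_cancel _

/-- every nonzero point is affine -/
lemma exists_mkPt {c : K} (hg : Good c) (P : (E c).Point) (hP : P ≠ 0) :
    ∃ x y h, P = mkPt hg x y h := by
  rcases P with _ | ⟨x, y, h⟩
  · exact absurd rfl hP
  · exact ⟨x, y, eqn_of_ns h, rfl⟩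

lemma mkPt_ne_zero {c : K} (hg : Good c) {x y : K} (h : y ^ 2 = x ^ 3 + c) :
    mkPt hg x y h ≠ 0 := Point.some_ne_zero _

/-- projective x-coordinate, numerator -/
noncomputable def px {c : K} (P : (E c).Point) : K := P.xRep 0
/-- projective x-coordinate, denominator -/
noncomputable def pz {c : K} (P : (E c).Point) : K := P.xRep 1

omit [DecidableEq K] in
@[simp] lemma px_zero {c : K} : px (0 : (E c).Point) = 1 := rfl
omit [DecidableEq K] in
@[simp] lemma pz_zero {c : K} : pz (0 : (E c).Point) = 0 := rfl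
omit [DecidableEq K] in
@[simp] lemma px_mkPt {c : K} (hg : Good c) {x y : K} (h : y ^ 2 = x ^ 3 + c) :
    px (mkPt hg x y h) = x := rfl
omit [DecidableEq K] in
@[simp] lemma pz_mkPt {c : K} (hg : Good c) {x y : K} (h : y ^ 2 = x ^ 3 + c) :
    pz (mkPt hg x y h) = 1 := rfl
omit [DecidableEq K] in
@[simp] lemma px_neg {c : K} (P : (E c).Point) : px (-P) = px P := by
  unfold px; rw [Point.xRep_neg]
omit [DecidableEq K] in
@[simp] lemma pz_neg {c : K} (P : (E c).Point) : pz (-P) = pz P := by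
  unfold pz; rw [Point.xRep_neg]

lemma px_pz_ne {c : K} (hg : Good c) (P : (E c).Point) : px P ≠ 0 ∨ pz P ≠ 0 := by
  by_cases hP : P = 0
  · left; rw [hP]; simp
  · obtain ⟨x, y, h, rfl⟩ := exists_mkPt hg P hP
    right; simp

lemma pz_eq_zero {c : K} (hg : Good c) (P : (E c).Point) : pz P = 0 ↔ P = 0 := by
  constructor
  · intro h
    by_contra hP
    obtain ⟨x, y, h', rfl⟩ := exists_mkPt hg P hP
    simp at h
  · rintro rfl; simp

lemma mkPt_eq_iff {c : K} (hg : Good c) {x y x' y' : K} (h : y ^ 2 = x ^ 3 + c)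
    (h' : y' ^ 2 = x' ^ 3 + c) : mkPt hg x y h = mkPt hg x' y' h' ↔ x = x' ∧ y = y' := by
  unfold mkPt
  rw [Point.some.injEq]

lemma eq_or_neg_of_x_eq {c : K} (hg : Good c) {x y y' : K} (h : y ^ 2 = x ^ 3 + c)
    (h' : y' ^ 2 = x ^ 3 + c) :
    mkPt hg x y h = mkPt hg x y' h' ∨ mkPt hg x y h = -mkPt hg x y' h' := by
  rw [neg_mkPt, mkPt_eq_iff, mkPt_eq_iff]
  have : (y - y') * (y + y') = 0 := by linear_combination h - h'
  rcases mul_eq_zero.1 this with h | h
  · left; exact ⟨rfl, by linear_combination h⟩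
  · right; exact ⟨rfl, by linear_combination h⟩

/-- The doubling case of the add-sub relation. -/
lemma addsub_self {c : K} (hg : Good c) {x y : K} (h : y ^ 2 = x ^ 3 + c) :
    ∃ μ : K, μ ≠ 0 ∧ x ^ 4 - 8 * c * x = μ * px (mkPt hg x y h + mkPt hg x y h) ∧
      4 * (x ^ 3 + c) = μ * pz (mkPt hg x y h + mkPt hg x y h) := by
  have h2 := hg.h2
  have h3 := hg.h3
  have hc := hg.hc
  by_cases hy : y = 0
  · subst hy
    have hx : x ≠ 0 := by
      rintro rfl
      apply hc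
      linear_combination -h
    rw [mkPt_add_neg hg h h (by ring)]
    refine ⟨-9 * c * x, ?_, ?_, ?_⟩
    · have h9 : (-9 : K) ≠ 0 := by
        have : (-9 : K) = -(3 * 3) := by norm_num
        rw [this]
        exact neg_ne_zero.2 (mul_ne_zero h3 h3)
      exact mul_ne_zero (mul_ne_zero h9 hc) hx
    · simp only [px_zero]
      linear_combination -x * h
    · simp only [pz_zero]
      linear_combination -4 * h
  · have hl : (3 * x ^ 2 / (2 * y)) * (2 * y) = 3 * x ^ 2 := by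
      field_simp
    have h3' : (-((3 * x ^ 2 / (2 * y)) * (((3 * x ^ 2 / (2 * y)) ^ 2 - x - x) - x) + y)) ^ 2 =
        ((3 * x ^ 2 / (2 * y)) ^ 2 - x - x) ^ 3 + c := by
      set l := 3 * x ^ 2 / (2 * y) with hl0
      have hc' : c = y ^ 2 - x ^ 3 := by linear_combination -h
      rw [hc']
      linear_combination (l ^ 2 - 3 * x) * hl
    rw [mkPt_double hg h hy hl rfl rfl h3']
    refine ⟨4 * y ^ 2, ?_, ?_, ?_⟩
    · have h4 : (4 : K) ≠ 0 := by
        have : (4 : K) = 2 * 2 := by norm_num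
        rw [this]
        exact mul_ne_zero h2 h2
      exact mul_ne_zero h4 (pow_ne_zero 2 hy)
    · simp only [px_mkPt]
      field_simp
      linear_combination (32 * x) * h
    · simp only [pz_mkPt]
      linear_combination -4 * h

/-- The add-sub relation on projective x-coordinates. -/
lemma addsub {c : K} (hg : Good c) (P Q : (E c).Point) :
    ∃ μ : K, μ ≠ 0 ∧
      (px P * px Q) ^ 2 - 4 * c * (px P * pz Q + px Q * pz P) * (pz P * pz Q)
        = μ * (px (P + Q) * px (P - Q)) ∧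
      2 * (px P * pz Q + px Q * pz P) * (px P * px Q) + 4 * c * (pz P * pz Q) ^ 2
        = μ * (px (P + Q) * pz (P - Q) + px (P - Q) * pz (P + Q)) ∧
      (px P * pz Q - px Q * pz P) ^ 2 = μ * (pz (P + Q) * pz (P - Q)) := by
  have h2 := hg.h2
  by_cases hP : P = 0
  · subst hP
    refine ⟨1, one_ne_zero, ?_, ?_, ?_⟩ <;> simp <;> ring
  by_cases hQ : Q = 0
  · subst hQ
    refine ⟨1, one_ne_zero, ?_, ?_, ?_⟩ <;> simp <;> ring
  obtain ⟨x₁, y₁, h₁, rfl⟩ := exists_mkPt hg P hP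
  obtain ⟨x₂, y₂, h₂, rfl⟩ := exists_mkPt hg Q hQ
  by_cases hx : x₁ = x₂
  · subst hx
    obtain ⟨μ, hμ, e1, e2⟩ := addsub_self hg h₁
    rcases eq_or_neg_of_x_eq hg h₁ h₂ with hh | hh
    · rw [← hh, sub_self]
      refine ⟨μ, hμ, ?_, ?_, ?_⟩
      · simp only [px_mkPt, pz_mkPt, px_zero]
        linear_combination e1
      · simp only [px_mkPt, pz_mkPt, px_zero, pz_zero]
        linear_combination e2
      · simp only [px_mkPt, pz_mkPt, px_zero, pz_zero]
        ring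
    · have hh' : mkPt hg x₁ y₂ h₂ = -mkPt hg x₁ y₁ h₁ := by rw [hh, neg_neg]
      rw [hh', sub_neg_eq_add, add_neg_cancel]
      refine ⟨μ, hμ, ?_, ?_, ?_⟩
      · simp only [px_mkPt, pz_mkPt, px_zero, px_neg, pz_neg]
        linear_combination e1
      · simp only [px_mkPt, pz_mkPt, px_zero, pz_zero, px_neg, pz_neg]
        linear_combination e2
      · simp only [px_mkPt, pz_mkPt, px_zero, pz_zero, px_neg, pz_neg]
        ring
  · have hx' : x₁ - x₂ ≠ 0 := sub_ne_zero.2 hx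
    have h₂' : (-y₂) ^ 2 = x₂ ^ 3 + c := by rw [neg_sq]; exact h₂
    rw [sub_eq_add_neg (mkPt hg x₁ y₁ h₁), neg_mkPt hg x₂ y₂ h₂]
    have key : ∀ y : K, (hy : y ^ 2 = x₂ ^ 3 + c) →
        mkPt hg x₁ y₁ h₁ + mkPt hg x₂ y hy = Point.some _ _ (nonsingular_add (hg.nonsingular h₁)
          (hg.nonsingular hy) fun hxy => hx hxy.left) := fun y hy => Point.add_of_X_ne hx
    have kx : ∀ y : K, (hy : y ^ 2 = x₂ ^ 3 + c) → px (mkPt hg x₁ y₁ h₁ + mkPt hg x₂ y hy) =
        ((y₁ - y) / (x₁ - x₂)) ^ 2 - x₁ - x₂ := by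
      intro y hy
      rw [key y hy]
      have : px (Point.some _ _ (nonsingular_add (hg.nonsingular h₁)
          (hg.nonsingular hy) fun hxy => hx hxy.left) : (E c).Point) =
          (E c).addX x₁ x₂ ((E c).slope x₁ x₂ y₁ y) := rfl
      rw [this, slope_of_X_ne hx]
      simp [E]
    have kz : ∀ y : K, (hy : y ^ 2 = x₂ ^ 3 + c) → pz (mkPt hg x₁ y₁ h₁ + mkPt hg x₂ y hy) = 1 := by
      intro y hy
      rw [key y hy]
      rfl
    rw [kx y₂ h₂, kx (-y₂) h₂', kz y₂ h₂, kz (-y₂) h₂']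
    refine ⟨(x₁ - x₂) ^ 2, pow_ne_zero 2 hx', ?_, ?_, ?_⟩
    · simp only [px_mkPt, pz_mkPt]
      field_simp
      have e1 : y₁ ^ 2 = x₁ ^ 3 + c := h₁
      have e2 : y₂ ^ 2 = x₂ ^ 3 + c := h₂
      grind
    · simp only [px_mkPt, pz_mkPt]
      field_simp
      have e1 : y₁ ^ 2 = x₁ ^ 3 + c := h₁
      have e2 : y₂ ^ 2 = x₂ ^ 3 + c := h₂
      grind
    · simp only [px_mkPt, pz_mkPt]
      ring

end Pool.Agent.Work.MP_35f602_nt
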