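import Pool.Agent.Work.MP_35f602_nt.Level16

set_option autoImplicit false
set_option linter.unusedSectionVars false
set_option linter.unusedSimpArgs false
set_option linter.unusedVariables false

namespace Pool.Agent.Work.MP_35f602_nt

open WeierstrassCurve WeierstrassCurve.Affine Polynomial

variable {K : Type*} [Field K] [DecidableEq K] [IsAlgClosed K]

section
variable {q : ℕ} [Fact q.Prime] [CharP K q] {w z n e c : K} (S : Setup w (z ^ 2) e c)
  (hz : z ^ 4 = -1)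
  (hn : n ^ 2 = w ^ 2 + z ^ 2 * w) {u₁ u₂ u₃ : K} (D : QData w z n e u₁ u₂ u₃)
  (hwq : w ^ q = w) (heq : e ^ q = e)
  {a' b' : ℤ} (hF : FrobAct q S.good S.cube (2 * (1 + 4 * a') + 3 * (1 + 16 * b'))
    (6 * (1 + 16 * b')))

include hz hn hwq heq hF D in
lemma level16' (hu₂ : u₂ ≠ 0) :
    -w / u₂ ^ 2 + e ≠ 0 ∧
    (u₁ * u₂) ^ q = -((if Even a' then (1 : K) else -1) * w * u₃ / u₂ ^ 2 *
      (-w / u₂ ^ 2 + e + 2 * (w * e)) * (-w / u₂ ^ 2 + e + 2 * e)) /
      (3 * (-w / u₂ ^ 2 + e) ^ 2) := by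
  have hk := kappa_sq S
  have hT1 := T1_double S
  by_cases ha : Even a'
  · obtain ⟨k, hk'⟩ := ha
    have hQ₁ : hP S D.R + a' • mkPt S.good (w * e) 0 (T1_eqn S) = hP S D.R := by
      rw [hk', ← two_mul, mul_comm, mul_smul, two_smul, hT1, smul_zero, add_zero]
    obtain ⟨h1, h2⟩ := level16 S hz hn D hwq heq hF D.R hu₂ hQ₁
    rw [div_pow, hk] at h1 h2
    refine ⟨h1, ?_⟩
    rw [h2, if_pos ⟨k, hk'⟩]
    have : -(z ^ 2 * w ^ 2 * u₃ / u₂) * (z ^ 2 * w ^ 2 / u₂) = 1 * w * u₃ / u₂ ^ 2 := by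
      field_simp
      linear_combination -u₃ * hk
    rw [this]
  · obtain ⟨k, hk'⟩ := Int.not_even_iff_odd.1 ha
    have hQ₁ : hP S D.R + a' • mkPt S.good (w * e) 0 (T1_eqn S) = hP S D.R.t1 := by
      rw [← hP_add_T1 S D.R, hk', add_smul, mul_comm, mul_smul, two_smul, hT1, smul_zero,
        zero_add, one_smul]
    obtain ⟨h1, h2⟩ := level16 S hz hn D hwq heq hF D.R.t1 (neg_ne_zero.2 hu₂) hQ₁
    rw [div_pow, hk, neg_sq] at h1 h2
    refine ⟨h1, ?_⟩
    rw [h2, if_neg ha]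
    have : -(z ^ 2 * w ^ 2 * -u₃ / -u₂) * (z ^ 2 * w ^ 2 / -u₂) = -1 * w * u₃ / u₂ ^ 2 := by
      field_simp
      linear_combination u₃ * hk
    rw [this]

end

section
variable {q : ℕ} [Fact q.Prime] [CharP K q] {w z n e c : K} (S : Setup w (z ^ 2) e c)
  (hz : z ^ 4 = -1)
  (hn : n ^ 2 = w ^ 2 + z ^ 2 * w)
  (hwq : w ^ q = w) (heq : e ^ q = e) (hzq : z ^ q = -z ^ 3)
  {a' b' : ℤ} (hF : FrobAct q S.good S.cube (2 * (1 + 4 * a') + 3 * (1 + 16 * b'))
    (6 * (1 + 16 * b')))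
  {r ξ ν ρ s : K} (hr : r = z - z ^ 3) (hξ : ξ ^ 2 = z) (hν : ν ^ 2 = n)
  (hρ : ρ ^ 2 = r) (hs : s ^ 2 = 2 - r) (hξq : ξ ^ q * ξ = 1) (hρq : ρ ^ q = ρ) (hsq : s ^ q = s)

include S hz hn hwq heq hzq hF hr hξ hν hρ hs hξq hρq hsq in
theorem sign_formula : ν ^ q * ν = (if Even a' then (1 : K) else -1) * (-z ^ 3) := by
  obtain ⟨u₁, u₂, u₃, D, u1ne, u2ne, hu₁, hu₂, hB⟩ := exists_QData S hz hn hr hξ hν hρ hs
  have hN := level8' S hz hn D hwq heq hF hzq
  obtain ⟨hX0, hkey⟩ := level16' S hz hn D hwq heq hF u2ne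
  set σ : K := if Even a' then (1 : K) else -1 with hσ
  have h2 := S.h2
  have h3 := S.h3
  have hw := S.hw
  have hw' : w ^ 2 = -w - 1 := by linear_combination hw
  have he := S.he
  have z8 : z ^ 8 = 1 := by rw [show z ^ 8 = (z ^ 4) ^ 2 by ring, hz]; ring
  obtain ⟨t, ht⟩ : ∃ t : K, t = z - z ^ 3 - 1 := ⟨_, rfl⟩
  have hr2 : r ^ 2 = 2 := by rw [hr]; linear_combination (z ^ 2 - 2) * hz
  have hr0 : r ≠ 0 := by
    intro h; rw [h] at hr2; apply h2; linear_combination -hr2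
  have h2r : 2 - r ≠ 0 := by
    intro h
    have h' : r = 2 := by linear_combination -h
    rw [h'] at hr2
    apply h2; linear_combination hr2
  have hρ0 : ρ ≠ 0 := by
    rintro rfl; apply hr0; rw [← hρ]; ring
  have hs0 : s ≠ 0 := by
    rintro rfl; apply h2r; rw [← hs]; ring
  rw [← ht] at hu₂
  set M0 := n + w + z * w ^ 2 with hM0
  set N0 := z * w ^ 2 * t + (w - z ^ 3) * n with hN0
  set B := u₂ ^ 2 with hBdef
  have hBne : B ≠ 0 := pow_ne_zero 2 u2ne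
  -- Frobenius images
  have hf : ∀ x : K, x ^ q = frobenius K q x := fun x => (frobenius_def q x).symm
  set N := n ^ q with hNdef
  have hM0q : M0 ^ q = N + w - z ^ 3 * w ^ 2 := by
    rw [hM0, hf, map_add, map_add, map_mul, map_pow, ← hf, ← hf, ← hf, hwq, hzq]
    ring
  have htq : t ^ q = t := by
    rw [ht, hf, map_sub, map_sub, map_pow, ← hf, map_one, hzq]
    linear_combination z * z8
  have hN0q : N0 ^ q = -z ^ 3 * w ^ 2 * t + (w + z) * N := by
    rw [hN0, hf, map_add, map_mul, map_mul, map_mul, map_sub, map_pow, map_pow, ← hf, ← hf, ← hf,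
      ← hf, hwq, hzq, htq]
    linear_combination z * N * z8
  have hrq : r ^ q = r := by
    have : r = t + 1 := by rw [ht, hr]; ring
    rw [this, hf, map_add, map_one, ← hf, htq]
  have M0ne : M0 ≠ 0 := by
    intro h
    apply u1ne
    rw [hu₁, h]; simp
  have N0ne : N0 ≠ 0 := by
    intro h
    apply u2ne
    rw [hu₂, h]; simp
  -- the left-hand side
  have L : (u₁ * u₂) ^ q * (u₁ * u₂) * (4 * t) = (ν ^ q * ν) * (M0 * M0 ^ q * (N0 * N0 ^ q)) := by
    have e1 : (u₁ * u₂) * (r * (ρ * s)) = ξ * M0 * (ν * N0) := by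
      rw [hu₁, hu₂]; field_simp
    have e2 : (u₁ * u₂) ^ q * (r * (ρ * s)) = ξ ^ q * M0 ^ q * (ν ^ q * N0 ^ q) := by
      have := congrArg (fun x => x ^ q) e1
      simp only [mul_pow, hrq, hρq, hsq] at this
      rw [mul_pow]
      linear_combination this
    have e3 : (r * (ρ * s)) ^ 2 = 4 * t := by
      have : (r * (ρ * s)) ^ 2 = r ^ 2 * (ρ ^ 2 * s ^ 2) := by ring
      rw [this, hρ, hs, hr2, ht]
      linear_combination -2 * hr2 + 4 * hr
    rw [← e3]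
    calc (u₁ * u₂) ^ q * (u₁ * u₂) * (r * (ρ * s)) ^ 2
        = ((u₁ * u₂) ^ q * (r * (ρ * s))) * ((u₁ * u₂) * (r * (ρ * s))) := by ring
      _ = (ξ ^ q * ξ) * ((ν ^ q * ν) * (M0 * M0 ^ q * (N0 * N0 ^ q))) := by rw [e1, e2]; ring
      _ = _ := by rw [hξq, one_mul]
  -- the right-hand side
  have hB' : B = (w * n + z) * (w * n + z * w ^ 2 * n) := by rw [hB]; ring
  have hY' : u₁ * u₂ * u₃ = B * (z * (1 + w ^ 2 * n)) := by
    rw [D.hy, hB']; unfold hY; ring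
  set X := -w / B + e with hX
  have x1 : 3 * X * B = (1 - w) * B - 3 * w := by
    rw [hX]; field_simp
    linear_combination B * he
  have x2 : (X + 2 * (w * e)) * B = -w * (w * B + 1) := by
    rw [hX]; field_simp
    linear_combination B * S.E4 + B * hw
  have x3 : (X + 2 * e) * B = (1 - w) * B - w := by
    rw [hX]; field_simp
    linear_combination B * he
  set Qd := (1 - w) * B - 3 * w with hQd
  have Qdne : Qd ≠ 0 := by
    rw [← x1]; exact mul_ne_zero (mul_ne_zero h3 hX0) hBne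
  have Rr : (u₁ * u₂) ^ q * (u₁ * u₂) * Qd ^ 2 = σ * (3 * w ^ 2 * z * (1 + w ^ 2 * n) *
      ((w * B + 1) * ((1 - w) * B - w))) := by
    rw [eq_div_iff (mul_ne_zero h3 (pow_ne_zero 2 hX0))] at hkey
    have hkey2 : (u₁ * u₂) ^ q * (3 * X ^ 2) * B =
        -(σ * w * u₃ * (X + 2 * (w * e)) * (X + 2 * e)) := by
      rw [hkey]; field_simp
    have hkey3 : (u₁ * u₂) ^ q * (u₁ * u₂) * (3 * X * B) ^ 2 =
        -3 * (σ * w * (z * (1 + w ^ 2 * n)) * ((X + 2 * (w * e)) * B) * ((X + 2 * e) * B)) := by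
      apply mul_left_cancel₀ hBne
      linear_combination 3 * B ^ 2 * (u₁ * u₂) * hkey2 -
        3 * B ^ 2 * σ * w * (X + 2 * (w * e)) * (X + 2 * e) * hY'
    rw [x1, x2, x3] at hkey3
    rw [hkey3]; ring
  -- the identity
  have I3 := ident3 hw' hz hn
  rw [← hB, ← ht, ← hM0, ← hN0, ← hQd] at I3
  have m1 : -z ^ 2 + n * (w - z ^ 3 * w ^ 2) = n * M0 ^ q := by
    rw [hM0q]; linear_combination -hN
  have m2 : -z ^ 3 * w ^ 2 * t * n - z ^ 2 * (z + w) = n * N0 ^ q := by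
    rw [hN0q]; linear_combination -(z + w) * hN
  rw [m1, m2] at I3
  have nne : n ≠ 0 := by
    intro h
    rw [h, mul_zero] at hN
    have : z ^ 4 = 0 := by linear_combination z ^ 2 * hN
    rw [this] at hz
    apply one_ne_zero (α := K)
    linear_combination hz
  have I3' : (-z ^ 3) * (M0 * M0 ^ q * (N0 * N0 ^ q)) * Qd ^ 2 =
      12 * t * w ^ 2 * z * (1 + w ^ 2 * n) * ((w * B + 1) * ((1 - w) * B - w)) := by
    apply mul_left_cancel₀ (pow_ne_zero 2 nne)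
    linear_combination I3
  have final : (ν ^ q * ν) * ((M0 * M0 ^ q * (N0 * N0 ^ q)) * Qd ^ 2) =
      (σ * (-z ^ 3)) * ((M0 * M0 ^ q * (N0 * N0 ^ q)) * Qd ^ 2) := by
    linear_combination -Qd ^ 2 * L + 4 * t * Rr - σ * I3'
  refine mul_right_cancel₀ ?_ final
  exact mul_ne_zero (mul_ne_zero (mul_ne_zero M0ne (pow_ne_zero q M0ne))
    (mul_ne_zero N0ne (pow_ne_zero q N0ne))) (pow_ne_zero 2 Qdne)

end

end Pool.Agent.Work.MP_35f602_nt
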