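import Pool.Agent.Work.MP_35f602_nt.Kernel

set_option autoImplicit false
set_option linter.unusedSectionVars false
set_option linter.unusedSimpArgs false
set_option linter.unusedVariables false

namespace Pool.Agent.Work.MP_35f602_nt

open WeierstrassCurve WeierstrassCurve.Affine Polynomial

variable {K : Type*} [Field K]

/-- Set-up: `w` a primitive cube root of unity, `e = (1 - w) / 3`, `c = - e ^ 3`, `i ^ 2 = -1`. -/
structure Setup (w i e c : K) : Prop where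
  h2 : (2 : K) ≠ 0
  h3 : (3 : K) ≠ 0
  hw : w ^ 2 + w + 1 = 0
  hi : i ^ 2 = -1
  he : 3 * e = 1 - w
  hc : c = - e ^ 3

namespace Setup

variable {w i e c : K} (S : Setup w i e c)
include S

lemma cube : Cube w := ⟨S.hw⟩

lemma one_sub_w_ne : 1 - w ≠ 0 := by
  intro h
  have h1 : w = 1 := by linear_combination -h
  have := S.hw
  rw [h1] at this
  apply S.h3
  linear_combination this

lemma e_ne : e ≠ 0 := by
  intro h
  have := S.he
  rw [h, mul_zero] at this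
  exact S.one_sub_w_ne this.symm

lemma good : Good c := by
  refine ⟨S.h2, S.h3, ?_⟩
  rw [S.hc]
  exact neg_ne_zero.2 (pow_ne_zero 3 S.e_ne)

lemma E1 : (1 - w) * e = - w := by
  apply mul_left_cancel₀ S.h3
  linear_combination (1 - w) * S.he + S.hw

lemma E3 : (1 - w ^ 2) * e = 1 := by
  apply mul_left_cancel₀ S.h3
  linear_combination (1 - w ^ 2) * S.he + (w - 2) * S.hw

end Setup

/-- x-coordinate of the half point -/
def hX (e u₁ u₂ u₃ : K) : K := u₂ ^ 2 + e + u₁ * u₂ + u₂ * u₃ + u₃ * u₁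
/-- y-coordinate of the half point -/
def hY (u₁ u₂ u₃ : K) : K := (u₁ + u₂) * (u₂ + u₃) * (u₃ + u₁)

/-- relations of the square roots -/
structure URel (w u₁ u₂ u₃ : K) : Prop where
  r1 : u₁ ^ 2 = u₂ ^ 2 - w
  r3 : u₃ ^ 2 = u₂ ^ 2 + 1

section
variable {w i e c : K} (S : Setup w i e c) {u₁ u₂ u₃ : K} (R : URel w u₁ u₂ u₃)
include S R

lemma hX_sub_e1 : hX e u₁ u₂ u₃ - w * e = (u₁ + u₂) * (u₁ + u₃) := by
  unfold hX
  linear_combination S.E1 - R.r1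

lemma hX_sub_e2 : hX e u₁ u₂ u₃ - e = (u₂ + u₁) * (u₂ + u₃) := by
  unfold hX
  ring

lemma hX_sub_e3 : hX e u₁ u₂ u₃ - w ^ 2 * e = (u₃ + u₁) * (u₃ + u₂) := by
  unfold hX
  linear_combination S.E3 - R.r3

lemma cubic_factor (x : K) : x ^ 3 + c = (x - w * e) * (x - e) * (x - w ^ 2 * e) := by
  rw [S.hc]
  linear_combination (e * x ^ 2 - w * e ^ 2 * x + (w - 1) * e ^ 3) * S.hw

lemma half_eqn : hY u₁ u₂ u₃ ^ 2 = hX e u₁ u₂ u₃ ^ 3 + c := by
  rw [cubic_factor S R, hX_sub_e1 S R, hX_sub_e2 S R, hX_sub_e3 S R]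
  unfold hY
  ring

lemma u12 : u₁ + u₂ ≠ 0 := by
  intro h
  have h' : w = 0 := by linear_combination (u₂ - u₁) * h + R.r1
  classical exact S.cube.ne_zero h'

lemma u23 : u₂ + u₃ ≠ 0 := by
  intro h
  have h' : (1 : K) = 0 := by linear_combination (u₃ - u₂) * h - R.r3
  exact one_ne_zero h'

lemma u31 : u₃ + u₁ ≠ 0 := by
  intro h
  have h' : 1 + w = 0 := by linear_combination (u₃ - u₁) * h - R.r3 + R.r1
  classical
  apply S.cube.ne_zero
  have h2 : w ^ 2 = 0 := by linear_combination S.hw - h'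
  exact pow_eq_zero_iff (two_ne_zero) |>.1 h2

lemma hY_ne : hY u₁ u₂ u₃ ≠ 0 := by
  unfold hY
  exact mul_ne_zero (mul_ne_zero (u12 S R) (u23 S R)) (u31 S R)

lemma base_eqn : (u₁ * u₂ * u₃) ^ 2 = (u₂ ^ 2 + e) ^ 3 + c := by
  rw [cubic_factor S R]
  have e1 : u₂ ^ 2 + e - w * e = u₁ ^ 2 := by linear_combination S.E1 - R.r1
  have e3 : u₂ ^ 2 + e - w ^ 2 * e = u₃ ^ 2 := by linear_combination S.E3 - R.r3
  rw [e1, e3]
  ring

/-- tangent slope -/
lemma half_slope : (u₁ + u₂ + u₃) * (2 * hY u₁ u₂ u₃) = 3 * hX e u₁ u₂ u₃ ^ 2 := by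
  have a1 := hX_sub_e1 S R
  have a2 := hX_sub_e2 S R
  have a3 := hX_sub_e3 S R
  have key : 3 * hX e u₁ u₂ u₃ ^ 2 = (hX e u₁ u₂ u₃ - w * e) * (hX e u₁ u₂ u₃ - e) +
      (hX e u₁ u₂ u₃ - e) * (hX e u₁ u₂ u₃ - w ^ 2 * e) +
      (hX e u₁ u₂ u₃ - w ^ 2 * e) * (hX e u₁ u₂ u₃ - w * e) := by
    linear_combination (2 * e * hX e u₁ u₂ u₃ - w * e ^ 2) * S.hw
  rw [key, a1, a2, a3]
  unfold hY
  ring

lemma base_x : u₂ ^ 2 + e = (u₁ + u₂ + u₃) ^ 2 - hX e u₁ u₂ u₃ - hX e u₁ u₂ u₃ := by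
  unfold hX
  linear_combination S.he - R.r1 - R.r3

lemma base_y : u₁ * u₂ * u₃ = -((u₁ + u₂ + u₃) * (u₂ ^ 2 + e - hX e u₁ u₂ u₃) + hY u₁ u₂ u₃) := by
  unfold hX hY
  ring

end

/-- the even function `h₁ h₂` -/
noncomputable def Hf (w e c x : K) : K :=
  (x ^ 2 - 2 * (w * e) * x - 2 * (w * e) ^ 2) * (x ^ 2 - 2 * e * x - 2 * e ^ 2) / (4 * (x ^ 3 + c))

section
variable {w i e c : K} (S : Setup w i e c) {u₁ u₂ u₃ : K} (R : URel w u₁ u₂ u₃)
include S R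

lemma four_ne : (4 : K) ≠ 0 := by
  have : (4 : K) = 2 * 2 := by norm_num
  rw [this]
  exact mul_ne_zero S.h2 S.h2

lemma G1_half : hX e u₁ u₂ u₃ ^ 2 - 2 * (w * e) * hX e u₁ u₂ u₃ - 2 * (w * e) ^ 2 =
    2 * u₁ * hY u₁ u₂ u₃ := by
  have a1 := hX_sub_e1 S R
  have key : hX e u₁ u₂ u₃ ^ 2 - 2 * (w * e) * hX e u₁ u₂ u₃ - 2 * (w * e) ^ 2 =
      (hX e u₁ u₂ u₃ - w * e) ^ 2 - (w * e - e) * (w * e - w ^ 2 * e) := by
    linear_combination (-(w * e ^ 2)) * S.hw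
  have b1 : w * e - e = w := by linear_combination -S.E1
  have b2 : w * e - w ^ 2 * e = 1 + w := by linear_combination S.E3 - S.E1
  rw [key, a1, b1, b2]
  have c1 : w = (u₂ - u₁) * (u₂ + u₁) := by linear_combination R.r1
  have c2 : 1 + w = (u₃ - u₁) * (u₃ + u₁) := by linear_combination R.r1 - R.r3
  rw [show w * (1 + w) = ((u₂ - u₁) * (u₂ + u₁)) * ((u₃ - u₁) * (u₃ + u₁)) by rw [← c2, ← c1]]
  unfold hY
  ring

lemma G2_half : hX e u₁ u₂ u₃ ^ 2 - 2 * e * hX e u₁ u₂ u₃ - 2 * e ^ 2 =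
    2 * u₂ * hY u₁ u₂ u₃ := by
  have a1 := hX_sub_e2 S R
  have key : hX e u₁ u₂ u₃ ^ 2 - 2 * e * hX e u₁ u₂ u₃ - 2 * e ^ 2 =
      (hX e u₁ u₂ u₃ - e) ^ 2 - (e - w * e) * (e - w ^ 2 * e) := by
    linear_combination (e ^ 2 * (w - 2)) * S.hw
  have b1 : e - w * e = -w := by linear_combination S.E1
  have b2 : e - w ^ 2 * e = 1 := by linear_combination S.E3
  rw [key, a1, b1, b2]
  have c1 : w = (u₂ - u₁) * (u₂ + u₁) := by linear_combination R.r1
  have c2 : (1 : K) = (u₃ - u₂) * (u₃ + u₂) := by linear_combination -R.r3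
  rw [show -w * (1 : K) = -((u₂ - u₁) * (u₂ + u₁)) * ((u₃ - u₂) * (u₃ + u₂)) by rw [← c2, ← c1]]
  unfold hY
  ring

lemma Hf_half : Hf w e c (hX e u₁ u₂ u₃) = u₁ * u₂ := by
  unfold Hf
  rw [G1_half S R, G2_half S R, ← half_eqn S R]
  have := hY_ne S R
  have h4 := four_ne S R
  rw [div_eq_iff (mul_ne_zero h4 (pow_ne_zero 2 this))]
  ring

end

section points
variable [DecidableEq K]
variable {w i e c : K} (S : Setup w i e c) {u₁ u₂ u₃ : K} (R : URel w u₁ u₂ u₃)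

/-- the half point as a point -/
noncomputable def hP : (E c).Point := mkPt S.good (hX e u₁ u₂ u₃) (hY u₁ u₂ u₃) (half_eqn S R)

include S R in
lemma hP_double : hP S R + hP S R = mkPt S.good (u₂ ^ 2 + e) (u₁ * u₂ * u₃) (base_eqn S R) := by
  unfold hP
  exact mkPt_double S.good _ (hY_ne S R) (half_slope S R) (base_x S R) (base_y S R) _

lemma URel.t1 {w u₁ u₂ u₃ : K} (R : URel w u₁ u₂ u₃) : URel w u₁ (-u₂) (-u₃) :=
  ⟨by rw [neg_sq]; exact R.r1, by rw [neg_sq, neg_sq]; exact R.r3⟩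

lemma URel.t2 {w u₁ u₂ u₃ : K} (R : URel w u₁ u₂ u₃) : URel w (-u₁) u₂ (-u₃) :=
  ⟨by rw [neg_sq]; exact R.r1, by rw [neg_sq]; exact R.r3⟩

omit [DecidableEq K] in
include S in
lemma T1_eqn : (0 : K) ^ 2 = (w * e) ^ 3 + c := by
  rw [S.hc]; linear_combination e ^ 3 * (1 - w) * S.hw

omit [DecidableEq K] in
include S in
lemma T2_eqn : (0 : K) ^ 2 = e ^ 3 + c := by
  rw [S.hc]; ring

/-- adding the first 2-torsion point -/
lemma hP_add_T1 : hP S R + mkPt S.good (w * e) 0 (T1_eqn S) = hP S R.t1 := by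
  unfold hP
  have hx : hX e u₁ u₂ u₃ ≠ w * e := by
    intro h
    have a := hX_sub_e1 S R
    rw [h, sub_self] at a
    have := u31 S R
    rcases mul_eq_zero.1 a.symm with h' | h'
    · exact u12 S R h'
    · exact this (by linear_combination h')
  refine mkPt_add S.good (l := u₂ + u₃) _ _ hx ?_ ?_ ?_ _
  · rw [hX_sub_e1 S R]; unfold hY; ring
  · unfold hX
    linear_combination S.he - S.E1 - R.r3
  · unfold hX hY
    ring

/-- adding the second 2-torsion point -/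
lemma hP_add_T2 : hP S R + mkPt S.good e 0 (T2_eqn S) = hP S R.t2 := by
  unfold hP
  have hx : hX e u₁ u₂ u₃ ≠ e := by
    intro h
    have a := hX_sub_e2 S R
    rw [h, sub_self] at a
    rcases mul_eq_zero.1 a.symm with h' | h'
    · exact u12 S R (by linear_combination h')
    · exact u23 S R h'
  refine mkPt_add S.good (l := u₁ + u₃) _ _ hx ?_ ?_ ?_ _
  · rw [hX_sub_e2 S R]; unfold hY; ring
  · unfold hX
    linear_combination S.he - R.r1 - R.r3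
  · unfold hX hY
    ring

end points

end Pool.Agent.Work.MP_35f602_nt
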