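import Mathlib

set_option autoImplicit false

namespace Pool.Agent.Work.MP_35f602_nt

variable {K : Type*} [Field K]

lemma ident1 {w z n : K} (hw : w ^ 2 = -w - 1) (hz : z ^ 4 = -1) (hn : n ^ 2 = w ^ 2 + z ^ 2 * w) :
    (z * w ^ 2 * (z - z ^ 3 - 1) + (w - z ^ 3) * n) ^ 2 = 2 * (z - z ^ 3 - 1) * (w * n + z) * (w + z * w ^ 2) := by
  linear_combination (z ^ 6 - 2 * w * z ^ 3 + w ^ 2) * hn +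
    (w ^ 2 * z ^ 8 + 2 * n * z ^ 7 - 2 * w ^ 2 * z ^ 6 + 2 * w ^ 2 * z ^ 5 - 2 * n * z ^ 5 + w ^ 2 * z ^ 4 + z ^ 6 + 2 * n * z ^ 4 + w * z ^ 4 - 2 * w ^ 2 * z ^ 3 + 2 * n * z ^ 3 + w ^ 2 * z ^ 2 + z ^ 4 - 2 * w * z ^ 2 - 2 * n * z + 2 * w * z + w ^ 2 + z ^ 2 + 2 * n + 1) * hw +
    (-w ^ 3 * z ^ 4 - w ^ 2 * z ^ 4 - 2 * n * w * z ^ 3 + w * z ^ 4 + 2 * w ^ 3 * z ^ 2 - 2 * n * z ^ 3 + 2 * w ^ 2 * z ^ 2 - 2 * w ^ 3 * z + 2 * n * w * z - w * z ^ 2 - 2 * w ^ 2 * z - w ^ 3 - 2 * n * w + 2 * n * z - 2 * w ^ 2 - z ^ 2 - 2 * n - w - 1) * hz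

lemma ident2 {w z n : K} (hw : w ^ 2 = -w - 1) (hz : z ^ 4 = -1) (hn : n ^ 2 = w ^ 2 + z ^ 2 * w) :
    (n + w + z * w ^ 2) ^ 2 = 2 * (z + w * n) * (1 + w ^ 2 * n) := by
  linear_combination (-2 * w ^ 3 + 1) * hn +
    (-w ^ 2 * z ^ 2 + w * z ^ 2 - 2 * w ^ 3 + 2 * w * z + 2 * w ^ 2 - 2 * z) * hw

lemma ident3 {w z n : K} (hw : w ^ 2 = -w - 1) (hz : z ^ 4 = -1) (hn : n ^ 2 = w ^ 2 + z ^ 2 * w) :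
    (-z ^ 3) * ((n + w + z * w ^ 2) * (-z ^ 2 + n * (w - z ^ 3 * w ^ 2))) *
      ((z * w ^ 2 * (z - z ^ 3 - 1) + (w - z ^ 3) * n) * (-z ^ 3 * w ^ 2 * (z - z ^ 3 - 1) * n - z ^ 2 * (z + w))) *
      ((1 - w) * (n * (w * n + z) * (w + z * w ^ 2)) - 3 * w) ^ 2 =
    12 * (z - z ^ 3 - 1) * w ^ 2 * z * n ^ 2 * (1 + w ^ 2 * n) * ((w * (n * (w * n + z) * (w + z * w ^ 2)) + 1) * ((1 - w) * (n * (w * n + z) * (w + z * w ^ 2)) - w)) := by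
  have hB : (n * (w * n + z) * (w + z * w ^ 2)) = -n * w * z ^ 2 + w * z ^ 3 + n * w * z - n * z ^ 2 - w * z + z ^ 2 + w - z := by
    linear_combination (w ^ 3 * z + w ^ 2) * hn +
      (w ^ 2 * z ^ 3 - w * z ^ 3 + w ^ 3 * z + n * z ^ 2 + w * z ^ 2 - w ^ 2 * z + w ^ 2 - z ^ 2 - w + z) * hw
  rw [hB]
  have a1 : (-z ^ 3) * ((n + w + z * w ^ 2) * (-z ^ 2 + n * (w - z ^ 3 * w ^ 2))) = n * z ^ 3 - n * z ^ 2 - z ^ 3 - n * z - 2 * w * z + z ^ 2 + n - z + 1 := by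
    linear_combination (w ^ 2 * z ^ 6 - w * z ^ 3) * hn +
      (n * w ^ 2 * z ^ 7 + w * z ^ 8 + n * w * z ^ 6 + w ^ 2 * z ^ 6 - n * w * z ^ 4 + z ^ 6 + n * w * z ^ 3 - z ^ 5 - n * z ^ 3 - w * z ^ 3 + z ^ 4 + n * z ^ 2 + w * z ^ 2 + z ^ 3 - n) * hw +
      (-n * w ^ 3 * z ^ 3 - n * w ^ 2 * z ^ 3 - w ^ 2 * z ^ 4 - n * w ^ 2 * z ^ 2 - w * z ^ 4 - w ^ 3 * z ^ 2 - n * w * z ^ 2 - w ^ 2 * z ^ 2 + n * w ^ 2 - w * z ^ 2 + n * w + n * z + 2 * w * z - z ^ 2 + z - 1) * hz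
  have a2 : (z * w ^ 2 * (z - z ^ 3 - 1) + (w - z ^ 3) * n) * (-z ^ 3 * w ^ 2 * (z - z ^ 3 - 1) * n - z ^ 2 * (z + w)) = n * w * z ^ 3 + n * w * z ^ 2 - w * z ^ 3 - 3 * n * w * z + 3 * w * z ^ 2 + 3 * n * w - 3 * w * z + w := by
    linear_combination (-w ^ 2 * z ^ 9 + w ^ 2 * z ^ 7 + w ^ 3 * z ^ 6 - w ^ 2 * z ^ 6 - w ^ 3 * z ^ 4 + w ^ 3 * z ^ 3) * hn +
      (-n * w ^ 2 * z ^ 10 - w * z ^ 11 + 2 * n * w ^ 2 * z ^ 8 - w ^ 2 * z ^ 9 - 2 * n * w ^ 2 * z ^ 7 + w * z ^ 9 + w ^ 2 * z ^ 8 - n * w ^ 2 * z ^ 6 - w * z ^ 8 + w ^ 2 * z ^ 7 + w ^ 3 * z ^ 6 - n * w * z ^ 6 + 2 * n * w ^ 2 * z ^ 5 - 2 * w ^ 2 * z ^ 6 - n * w ^ 2 * z ^ 4 - n * z ^ 6 + w * z ^ 6 + w ^ 2 * z ^ 5 - w ^ 3 * z ^ 4 + 2 * n * w * z ^ 4 - w * z ^ 5 + w ^ 3 * z ^ 3 - 2 * n * w * z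 ^ 3 + 2 * n * z ^ 4 - w ^ 2 * z ^ 3 - z ^ 5 - n * w * z ^ 2 + 2 * w * z ^ 3 + w ^ 2 * z ^ 2 + z ^ 4 + 2 * n * w * z - 2 * n * z ^ 2 - 2 * w * z ^ 2 - n * w + w * z - w ^ 2 + 2 * n - z + 1) * hw +
      (n * w ^ 3 * z ^ 6 + n * w ^ 2 * z ^ 6 + w ^ 2 * z ^ 7 - 2 * n * w ^ 3 * z ^ 4 + w * z ^ 7 + w ^ 3 * z ^ 5 - 2 * n * w ^ 2 * z ^ 4 + 2 * n * w ^ 3 * z ^ 3 - w ^ 3 * z ^ 4 + 2 * n * w ^ 2 * z ^ 3 + n * w ^ 3 * z ^ 2 - w * z ^ 5 - w ^ 3 * z ^ 3 - w ^ 4 * z ^ 2 + 2 * n * w ^ 2 * z ^ 2 - 2 * n * w ^ 3 * z + w * z ^ 4 - w ^ 2 * z ^ 3 + w ^ 3 * z ^ 2 + 2 * n * w * z ^ 2 - 2 * n * w ^ 2 * z + n * w ^ 3 - w * z ^ 3 + w ^ 2 * z ^ 2 - w ^ 3 * z + w ^ 4 + n * w * z - n * w ^ 2 + 2 * n * z ^ 2 - w * z ^ 2 + w ^ 3 - 4 * n * w + 3 * w * z - 2 * n - 2 * w + z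 - 1) * hz
  have a3 : (1 - w) * (-n * w * z ^ 2 + w * z ^ 3 + n * w * z - n * z ^ 2 - w * z + z ^ 2 + w - z) - 3 * w = -n * w * z ^ 2 + 2 * w * z ^ 3 + 2 * n * w * z - 2 * n * z ^ 2 - w * z ^ 2 + z ^ 3 + n * z - w * z + z ^ 2 - w - 2 * z + 1 := by
    linear_combination (n * z ^ 2 - z ^ 3 - n * z + z - 1) * hw
  have a33 : (-n * w * z ^ 2 + 2 * w * z ^ 3 + 2 * n * w * z - 2 * n * z ^ 2 - w * z ^ 2 + z ^ 3 + n * z - w * z + z ^ 2 - w - 2 * z + 1) ^ 2 = 12 * n * w * z ^ 3 - 6 * n * w * z ^ 2 + 12 * n * z ^ 3 + 6 * w * z ^ 3 + 12 * n * w * z - 6 * n * z ^ 2 - 6 * z ^ 3 + 6 * n * z - 12 * w * z + 12 * z ^ 2 + 12 * n + 12 * w - 18 * z := by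
    linear_combination (w ^ 2 * z ^ 4 + 4 * w * z ^ 4 - 4 * w ^ 2 * z ^ 3 - 10 * w * z ^ 3 + 4 * w ^ 2 * z ^ 2 + 4 * z ^ 4 + 4 * w * z ^ 2 - 4 * z ^ 3 + z ^ 2) * hn +
      (w * z ^ 6 - 4 * n * z ^ 5 - 4 * w * z ^ 5 + w ^ 2 * z ^ 4 + 8 * z ^ 6 + 10 * n * z ^ 4 + 8 * w * z ^ 4 - 4 * w ^ 2 * z ^ 3 - 14 * z ^ 5 - 2 * n * z ^ 3 - 6 * w * z ^ 3 + 4 * w ^ 2 * z ^ 2 + 5 * z ^ 4 - 2 * n * z ^ 2 + 4 * z ^ 3 - 4 * n * z + z ^ 2 + w - 2 * z + 9) * hw +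
      (-w ^ 2 * z ^ 2 - 6 * n * w * z - w * z ^ 2 + 4 * w ^ 2 * z - w ^ 3 + 16 * w * z - 9 * w ^ 2 - 7 * z ^ 2 - 12 * n - 24 * w + 16 * z - 8) * hz
  have a12 : (n * z ^ 3 - n * z ^ 2 - z ^ 3 - n * z - 2 * w * z + z ^ 2 + n - z + 1) * (n * w * z ^ 3 + n * w * z ^ 2 - w * z ^ 3 - 3 * n * w * z + 3 * w * z ^ 2 + 3 * n * w - 3 * w * z + w) = -4 * n * w * z ^ 3 + 8 * n * w * z ^ 2 + 2 * n * z ^ 3 + 4 * w * z ^ 3 - 8 * n * w * z - 6 * n * z ^ 2 - 8 * w * z ^ 2 + 18 * z ^ 3 + 4 * n * w + 6 * n * z + 8 * w * z - 14 * z ^ 2 - 2 * n - 4 * w + 2 * z + 10 := by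
    linear_combination (w * z ^ 6 - 5 * w * z ^ 4 + 6 * w * z ^ 3 + w * z ^ 2 - 6 * w * z + 3 * w) * hn +
      (z ^ 8 + w * z ^ 6 - 5 * z ^ 6 - 2 * n * z ^ 4 - 5 * w * z ^ 4 + 6 * z ^ 5 - 2 * n * z ^ 3 + 6 * w * z ^ 3 + 3 * z ^ 4 + 6 * n * z ^ 2 + w * z ^ 2 - 18 * z ^ 3 - 6 * n * z - 6 * w * z + 9 * z ^ 2 + 3 * w + 4 * z - 8) * hw +
      (-w * z ^ 4 - 2 * n * w * z ^ 2 - w ^ 2 * z ^ 2 - z ^ 4 + 4 * n * w * z + 5 * w * z ^ 2 - 10 * w * z + 5 * w ^ 2 + 5 * z ^ 2 + 2 * n + 10 * w - 6 * z - 2) * hz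
  have a4 : (-4 * n * w * z ^ 3 + 8 * n * w * z ^ 2 + 2 * n * z ^ 3 + 4 * w * z ^ 3 - 8 * n * w * z - 6 * n * z ^ 2 - 8 * w * z ^ 2 + 18 * z ^ 3 + 4 * n * w + 6 * n * z + 8 * w * z - 14 * z ^ 2 - 2 * n - 4 * w + 2 * z + 10) * (12 * n * w * z ^ 3 - 6 * n * w * z ^ 2 + 12 * n * z ^ 3 + 6 * w * z ^ 3 + 12 * n * w * z - 6 * n * z ^ 2 - 6 * z ^ 3 + 6 * n * z - 12 * w * z + 12 * z ^ 2 + 12 * n + 12 * w - 18 * z) = -24 * n * w * z ^ 3 - 600 * n * w * z ^ 2 + 744 * n * z ^ 3 + 1128 * w * z ^ 3 + 864 * n * w * z - 840 * n * z ^ 2 - 504 * w * z ^ 2 + 192 * z ^ 3 - 648 * n * w + 456 * n * z - 408 * w * z + 696 * z ^ 2 + 192 * n + 1104 * w - 1176 * z + 984 := by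
    linear_combination (-48 * w ^ 2 * z ^ 6 - 24 * w * z ^ 6 + 120 * w ^ 2 * z ^ 5 + 36 * w * z ^ 5 - 192 * w ^ 2 * z ^ 4 + 24 * z ^ 6 - 36 * w * z ^ 4 + 192 * w ^ 2 * z ^ 3 - 84 * z ^ 5 - 36 * w * z ^ 3 - 120 * w ^ 2 * z ^ 2 + 120 * z ^ 4 + 108 * w * z ^ 2 + 48 * w ^ 2 * z - 72 * z ^ 3 - 96 * w * z - 24 * z ^ 2 + 48 * w + 60 * z - 24) * hn +
      (-48 * w * z ^ 8 + 120 * w * z ^ 7 - 48 * w ^ 2 * z ^ 6 - 24 * z ^ 8 + 24 * n * z ^ 6 - 216 * w * z ^ 6 + 120 * w ^ 2 * z ^ 5 + 36 * z ^ 7 - 72 * n * z ^ 5 + 228 * w * z ^ 5 - 192 * w ^ 2 * z ^ 4 + 12 * z ^ 6 + 192 * n * z ^ 4 - 156 * w * z ^ 4 + 192 * w ^ 2 * z ^ 3 - 168 * z ^ 5 - 312 * n * z ^ 3 - 180 * w * z ^ 3 - 120 * w ^ 2 * z ^ 2 + 180 * z ^ 4 + 312 * n * z ^ 2 + 180 * w * z ^ 2 + 48 * w ^ 2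 * z + 60 * z ^ 3 - 192 * n * z - 24 * w * z - 492 * z ^ 2 + 48 * n - 144 * w + 528 * z - 276) * hw +
      (48 * w ^ 2 * z ^ 4 + 96 * w * z ^ 4 - 120 * w ^ 2 * z ^ 3 + 48 * w ^ 3 * z ^ 2 + 276 * n * w * z ^ 2 - 240 * w * z ^ 3 + 264 * w ^ 2 * z ^ 2 - 120 * w ^ 3 * z + 24 * z ^ 4 - 456 * n * w * z + 180 * n * z ^ 2 + 408 * w * z ^ 2 - 348 * w ^ 2 * z + 192 * w ^ 3 - 36 * z ^ 3 + 528 * n * w - 144 * n * z - 120 * w * z + 348 * w ^ 2 - 120 * z ^ 2 - 120 * n - 564 * w + 468 * z - 708) * hz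
  have b1 : 12 * (z - z ^ 3 - 1) * w ^ 2 * z * n ^ 2 * (1 + w ^ 2 * n) = 12 * n * w * z ^ 3 - 12 * n * w * z ^ 2 + 12 * n * z ^ 3 + 12 * w * z ^ 2 - 12 * z ^ 3 + 12 * n * w - 12 * n * z - 12 * w * z + 12 * z ^ 2 + 24 * n + 12 * w - 12 := by
    linear_combination (-12 * n * w ^ 4 * z ^ 4 + 12 * n * w ^ 4 * z ^ 2 - 12 * n * w ^ 4 * z - 12 * w ^ 2 * z ^ 4 + 12 * w ^ 2 * z ^ 2 - 12 * w ^ 2 * z) * hn +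
      (-12 * n * w ^ 3 * z ^ 6 - 12 * n * w ^ 4 * z ^ 4 + 12 * n * w ^ 3 * z ^ 4 - 12 * n * w ^ 3 * z ^ 3 + 12 * n * w ^ 4 * z ^ 2 - 12 * w * z ^ 6 + 12 * n * w ^ 2 * z ^ 3 - 12 * n * w ^ 3 * z ^ 2 - 12 * n * w ^ 4 * z - 12 * w ^ 2 * z ^ 4 - 12 * n * w ^ 2 * z ^ 2 + 12 * n * w ^ 3 * z + 12 * w * z ^ 4 + 12 * n * w * z ^ 2 - 12 * n * w ^ 3 - 12 * n * z ^ 3 - 12 * w * z ^ 3 + 12 * w ^ 2 * z ^ 2 - 12 * n * w * z + 12 * n * w ^ 2 - 12 * w * z ^ 2 - 12 * w ^ 2 * z + 12 * z ^ 3 + 12 * n * w + 12 * n * z + 12 * w * z - 12 * z ^ 2 - 24 * n - 12 * w + 12) * hw +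
      (12 * n * w ^ 4 * z ^ 2 + 12 * n * w ^ 3 * z ^ 2 + 12 * n * w ^ 5 - 12 * n * w ^ 3 + 12 * w ^ 2 * z ^ 2 + 12 * w * z ^ 2 + 12 * w ^ 3 - 12 * w) * hz
  have b2 : (w * (-n * w * z ^ 2 + w * z ^ 3 + n * w * z - n * z ^ 2 - w * z + z ^ 2 + w - z) + 1) * ((1 - w) * (-n * w * z ^ 2 + w * z ^ 3 + n * w * z - n * z ^ 2 - w * z + z ^ 2 + w - z) - w) = -4 * n * w * z ^ 3 + 6 * n * w * z ^ 2 - 8 * n * z ^ 3 - 4 * w * z ^ 3 - 4 * n * w * z + 2 * n * z ^ 2 - 2 * w * z ^ 2 + 6 * z ^ 3 + 4 * n * w + 6 * w * z - 8 * z ^ 2 - 4 * n - 10 * w + 8 * z - 4 := by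
    linear_combination (-w ^ 4 * z ^ 4 - w ^ 3 * z ^ 4 + 2 * w ^ 4 * z ^ 3 + w ^ 2 * z ^ 4 - w ^ 4 * z ^ 2 + w * z ^ 4 - 2 * w ^ 2 * z ^ 3 + w ^ 3 * z ^ 2) * hn +
      (-w ^ 3 * z ^ 6 + 2 * n * w ^ 2 * z ^ 5 - 2 * w ^ 2 * z ^ 6 + 2 * w ^ 3 * z ^ 5 - w ^ 4 * z ^ 4 - 2 * n * w ^ 2 * z ^ 4 + 2 * w * z ^ 6 - 2 * w ^ 3 * z ^ 4 + 2 * w ^ 4 * z ^ 3 + 4 * n * w * z ^ 4 - 2 * n * w ^ 2 * z ^ 3 - 2 * n * z ^ 5 - 4 * w * z ^ 5 + 4 * w ^ 2 * z ^ 4 - 2 * w ^ 3 * z ^ 3 - w ^ 4 * z ^ 2 + z ^ 6 - 2 * n * w * z ^ 3 + 4 * n * w ^ 2 * z ^ 2 + w * z ^ 4 - 4 * w ^ 2 * z ^ 3 + 2 * w ^ 3 * z ^ 2 + 2 * z ^ 5 - 3 * n * w * z ^ 2 - 2 * n * w ^ 2 * z + 8 * n * z ^ 3 + 9 * w * z ^ 3 - 3 * w ^ 2 * z ^ 2 - 3 * z ^ 4 + 5 * n * w * z - 3 * n * z ^ 2 - 5 * w * z ^ 2 + 4 * w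 ^ 2 * z - w ^ 3 - 6 * z ^ 3 - 2 * n * w - 2 * n * z - w * z - 3 * w ^ 2 + 10 * z ^ 2 + 4 * n + 6 * w - 7 * z + 1) * hw +
      (w ^ 4 * z ^ 2 - 2 * n * w ^ 3 * z + 3 * w ^ 3 * z ^ 2 - 2 * w ^ 4 * z + w ^ 5 - 2 * n * w ^ 2 * z + 2 * n * w ^ 3 - 2 * w ^ 3 * z + 3 * w ^ 4 + 2 * n * w * z - 2 * n * w ^ 2 - 3 * w * z ^ 2 + 4 * w ^ 2 * z - 2 * w ^ 3 - 6 * n * w + 2 * n * z + 2 * w * z - 5 * w ^ 2 - z ^ 2 + 3 * w - 2 * z + 3) * hz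
  have b3 : (12 * n * w * z ^ 3 - 12 * n * w * z ^ 2 + 12 * n * z ^ 3 + 12 * w * z ^ 2 - 12 * z ^ 3 + 12 * n * w - 12 * n * z - 12 * w * z + 12 * z ^ 2 + 24 * n + 12 * w - 12) * (-4 * n * w * z ^ 3 + 6 * n * w * z ^ 2 - 8 * n * z ^ 3 - 4 * w * z ^ 3 - 4 * n * w * z + 2 * n * z ^ 2 - 2 * w * z ^ 2 + 6 * z ^ 3 + 4 * n * w + 6 * w * z - 8 * z ^ 2 - 4 * n - 10 * w + 8 * z - 4) = -24 * n * w * z ^ 3 - 600 * n * w * z ^ 2 + 744 * n * z ^ 3 + 1128 * w * z ^ 3 + 864 * n * w * z - 840 * n * z ^ 2 - 504 * w * z ^ 2 + 192 * z ^ 3 - 648 * n * w + 456 * n * z - 408 * w * z + 696 * z ^ 2 + 192 * n + 1104 * w - 1176 * z + 984 := by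
    linear_combination (-48 * w ^ 2 * z ^ 6 - 144 * w * z ^ 6 + 120 * w ^ 2 * z ^ 5 + 192 * w * z ^ 5 - 120 * w ^ 2 * z ^ 4 - 96 * z ^ 6 - 24 * w * z ^ 4 + 48 * w ^ 2 * z ^ 3 + 24 * z ^ 5 - 264 * w * z ^ 3 + 24 * w ^ 2 * z ^ 2 + 96 * z ^ 4 + 264 * w * z ^ 2 - 48 * w ^ 2 * z - 264 * z ^ 3 - 144 * w * z + 48 * w ^ 2 + 48 * z ^ 2 + 48 * w + 48 * z - 96) * hn +
      (-48 * w * z ^ 8 + 120 * w * z ^ 7 - 48 * w ^ 2 * z ^ 6 - 144 * z ^ 8 - 48 * n * z ^ 6 - 264 * w * z ^ 6 + 120 * w ^ 2 * z ^ 5 + 192 * z ^ 7 - 24 * n * z ^ 5 + 240 * w * z ^ 5 - 120 * w ^ 2 * z ^ 4 - 120 * z ^ 6 + 216 * n * z ^ 4 + 48 * w ^ 2 * z ^ 3 - 288 * z ^ 5 - 408 * n * z ^ 3 - 360 * w * z ^ 3 + 24 * w ^ 2 * z ^ 2 + 336 * z ^ 4 + 264 * n * z ^ 2 + 240 * w * z ^ 2 - 48 * w ^ 2 *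 z + 72 * z ^ 3 - 24 * n * z + 24 * w * z + 48 * w ^ 2 - 696 * z ^ 2 - 72 * n - 120 * w + 624 * z - 264) * hw +
      (48 * w ^ 2 * z ^ 4 + 96 * w * z ^ 4 - 120 * w ^ 2 * z ^ 3 + 48 * w ^ 3 * z ^ 2 + 120 * n * w * z ^ 2 - 288 * w * z ^ 3 + 312 * w ^ 2 * z ^ 2 - 120 * w ^ 3 * z + 144 * z ^ 4 - 384 * n * w * z + 216 * n * z ^ 2 + 528 * w * z ^ 2 - 360 * w ^ 2 * z + 120 * w ^ 3 - 192 * z ^ 3 + 336 * n * w - 192 * n * z - 168 * w * z + 120 * w ^ 2 + 48 * z ^ 2 - 168 * n - 648 * w + 456 * z - 672) * hz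
  rw [a1, a2, a3, a33, a12, a4, b1, b2, b3]

end Pool.Agent.Work.MP_35f602_nt
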