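import Pool.Agent.Work.MP_35f602_nt.Chain

set_option autoImplicit false
set_option linter.unusedSectionVars false
set_option linter.unusedSimpArgs false
set_option linter.unusedVariables false

namespace Pool.Agent.Work.MP_35f602_nt

open WeierstrassCurve WeierstrassCurve.Affine Polynomial

variable {K : Type*} [Field K] [DecidableEq K] [IsAlgClosed K]
variable {c : K} {hg : Good c} {w : K} {hw : Cube w}

lemma act_zero (m n : ℤ) : act hg hw m n 0 = 0 := by simp [act]

lemma act_add (m n : ℤ) (P Q : (E c).Point) :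
    act hg hw m n (P + Q) = act hg hw m n P + act hg hw m n Q := by
  simp only [act, map_add, smul_add]; abel

lemma act_sub (m n : ℤ) (P Q : (E c).Point) :
    act hg hw m n (P - Q) = act hg hw m n P - act hg hw m n Q := by
  simp only [act, map_sub, smul_sub]; abel

lemma act_neg' (m n : ℤ) (P : (E c).Point) :
    act hg hw m n (-P) = - act hg hw m n P := by
  simp only [act, map_neg, smul_neg]; abel

lemma act_zsmul (m n j : ℤ) (P : (E c).Point) :
    act hg hw m n (j • P) = j • act hg hw m n P := by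
  simp only [act, map_zsmul, smul_add, smul_smul, mul_comm]

lemma act_nsmul (m n : ℤ) (j : ℕ) (P : (E c).Point) :
    act hg hw m n (j • P) = j • act hg hw m n P := by
  rw [← natCast_zsmul, ← natCast_zsmul, act_zsmul]

lemma WW (P : (E c).Point) : W hg hw (W hg hw P) = -P - W hg hw P := by
  have := W_rel hg hw P
  rw [add_comm] at this
  rw [eq_neg_of_add_eq_zero_left this]; abel

lemma act_act (m n m' n' : ℤ) (P : (E c).Point) :
    act hg hw m' n' (act hg hw m n P) =
      act hg hw (m' * m - n' * n) (m' * n + n' * m - n' * n) P := by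
  simp only [act, map_add, map_zsmul, WW]
  module

lemma conj_act {q : ℕ} {m n : ℤ} (hN : m ^ 2 - m * n + n ^ 2 = q) (P : (E c).Point) :
    act hg hw (m - n) (-n) (act hg hw m n P) = (q : ℤ) • P := by
  rw [act_act]
  have e1 : (m - n) * m - -n * n = q := by rw [← hN]; ring
  have e2 : (m - n) * n + -n * m - -n * n = 0 := by ring
  rw [e1, e2]
  simp [act]

lemma act_conj {q : ℕ} {m n : ℤ} (hN : m ^ 2 - m * n + n ^ 2 = q) (P : (E c).Point) :
    act hg hw m n (act hg hw (m - n) (-n) P) = (q : ℤ) • P := by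
  rw [act_act]
  have e1 : m * (m - n) - n * -n = q := by rw [← hN]; ring
  have e2 : m * -n + n * (m - n) - n * -n = 0 := by ring
  rw [e1, e2]
  simp [act]

lemma Rep.surj {m n : ℤ} {f g : K[X]} (H : Rep hg hw m n f g) (hpos : 0 < f.natDegree)
    (P₁ : (E c).Point) : ∃ P, act hg hw m n P = P₁ := by
  by_cases h1 : P₁ = 0
  · exact ⟨0, by rw [h1, act_zero]⟩
  obtain ⟨X₁, Y₁, h₁, rfl⟩ := exists_mkPt hg P₁ h1
  have hd : (C X₁ * g).degree < f.degree := by
    by_cases hX : X₁ = 0
    · subst hX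
      rw [C_0, zero_mul, degree_zero, degree_eq_natDegree H.monic.ne_zero]
      exact WithBot.bot_lt_coe _
    · rw [degree_C_mul hX]; exact H.lt
  have hdeg : (f - C X₁ * g).degree = f.degree := degree_sub_eq_left_of_degree_lt hd
  obtain ⟨x₀, hx₀⟩ := IsAlgClosed.exists_root (f - C X₁ * g) (by
    rw [hdeg, degree_eq_natDegree H.monic.ne_zero]
    intro h
    have : f.natDegree = 0 := by exact_mod_cast h
    omega)
  obtain ⟨y₀, hy₀⟩ := IsAlgClosed.exists_pow_nat_eq (x₀ ^ 3 + c) (n := 2) (by norm_num)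
  have e : f.eval x₀ = X₁ * g.eval x₀ := by
    have := hx₀
    rw [IsRoot, eval_sub, eval_mul, eval_C] at this
    linear_combination this
  have hgne : g.eval x₀ ≠ 0 := by
    intro h
    apply H.cop x₀
    rw [h, mul_zero] at e
    exact ⟨e, h⟩
  obtain ⟨ρ, hρ, e1, e2⟩ := H.prop hy₀
  have hz : pz (act hg hw m n (mkPt hg x₀ y₀ hy₀)) ≠ 0 := by
    intro h
    rw [h, mul_zero] at e2
    exact hgne e2
  have hne : act hg hw m n (mkPt hg x₀ y₀ hy₀) ≠ 0 := by
    intro h
    rw [h] at hz
    exact hz pz_zero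
  obtain ⟨x', y', h', e3⟩ := exists_mkPt hg _ hne
  rw [e3] at e1 e2
  rw [px_mkPt] at e1
  rw [pz_mkPt] at e2
  have hxx : x' = X₁ := by
    apply mul_left_cancel₀ hρ
    rw [← e1, e, e2]; ring
  subst hxx
  rcases eq_or_neg_of_x_eq hg h' h₁ with h | h
  · exact ⟨_, by rw [e3, h]⟩
  · exact ⟨-mkPt hg x₀ y₀ hy₀, by rw [act_neg', e3, h, neg_neg]⟩

lemma Rep.zero_of {m n : ℤ} {f g : K[X]} (H : Rep hg hw m n f g) {x y : K}
    (h : y ^ 2 = x ^ 3 + c) : g.eval x = 0 ↔ act hg hw m n (mkPt hg x y h) = 0 := by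
  obtain ⟨ρ, hρ, e1, e2⟩ := H.prop h
  rw [e2, mul_eq_zero, pz_eq_zero hg]
  tauto

lemma order_card {q : ℕ} (hq : q.Prime) {P : (E c).Point} (hP : P ≠ 0) (hqP : q • P = 0)
    {j k : ℕ} (hj : j < q) (hk : k < q) (h : j • P = k • P) : j = k := by
  have ho : addOrderOf P = q := by
    have := addOrderOf_dvd_of_nsmul_eq_zero hqP
    rcases (Nat.dvd_prime hq).1 this with h' | h'
    · exact absurd (AddMonoid.addOrderOf_eq_one_iff.1 h') hP
    · exact h'
  have := nsmul_injOn_Iio_addOrderOf (x := P)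
  exact this (by rw [ho]; exact hj) (by rw [ho]; exact hk) h

theorem kernel_trivial {q : ℕ} (hq : q.Prime) [CharP K q] (hq5 : 5 ≤ q) {m n : ℤ}
    (hN : m ^ 2 - m * n + n ^ 2 = q) :
    (∀ P, act hg hw m n P = 0 → P = 0) ∨ (∀ P, act hg hw (m - n) (-n) P = 0 → P = 0) := by
  classical
  by_contra hcon
  push Not at hcon
  obtain ⟨⟨κ₁, hκ₁, hκ₁0⟩, ⟨κ₂, hκ₂, hκ₂0⟩⟩ := hcon
  have hnz : ∀ j : ℕ, 0 < j → j < q → (j : K) ≠ 0 := by
    intro j hj0 hjq h
    rw [CharP.cast_eq_zero_iff K q] at h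
    exact absurd (Nat.le_of_dvd hj0 h) (by omega)
  obtain ⟨f₂, g₂, f₁, g₁, f₀, g₀, H2, H1, H0, l2, l1, rl⟩ :=
    chain_all (hg := hg) (hw := hw) hnz (q - 2) (by omega)
  have eq1 : q - 2 + 2 = q := by omega
  rw [eq1] at H2 l2
  rw [CharP.cast_eq_zero K q] at l2
  have n2 := H2.natDegree_eq
  have hg2ne : g₂ ≠ 0 := by
    rintro rfl
    obtain ⟨x, hx⟩ := IsAlgClosed.exists_root f₂ (by
      rw [degree_eq_natDegree H2.monic.ne_zero, n2]
      intro h
      have : q ^ 2 = 0 := by exact_mod_cast h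
      have := pow_eq_zero_iff (two_ne_zero) |>.1 this
      omega)
    exact H2.cop x ⟨hx, by simp⟩
  have hqsq : 25 ≤ q ^ 2 := by nlinarith
  have ndg : g₂.natDegree ≤ q ^ 2 - 2 := by
    have h1 := H2.natDegree_lt (by rw [n2]; positivity)
    rw [n2] at h1
    by_contra hlt
    have h2 : g₂.natDegree = q ^ 2 - 1 := by omega
    rw [← h2] at l2
    have : g₂.leadingCoeff = 0 := by
      unfold leadingCoeff
      rw [l2]; ring
    exact hg2ne (leadingCoeff_eq_zero.1 this)
  -- q-torsion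
  have q1 : q • κ₁ = 0 := by
    have := conj_act (hg := hg) (hw := hw) hN κ₁
    rw [hκ₁, act_zero, natCast_zsmul] at this
    exact this.symm
  have q2 : q • κ₂ = 0 := by
    have := act_conj (hg := hg) (hw := hw) hN κ₂
    rw [hκ₂, act_zero, natCast_zsmul] at this
    exact this.symm
  obtain ⟨f, g, H⟩ := hasRep (hg := hg) (hw := hw) m n
  have ndf : f.natDegree = q := by
    have := H.deg
    rw [hN] at this
    exact_mod_cast this
  obtain ⟨P₁, hP₁⟩ := H.surj (by rw [ndf]; omega) κ₂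
  set Φ : ℕ × ℕ → (E c).Point := fun jk => jk.1 • P₁ + jk.2 • κ₁ with hΦ
  have hinj : Set.InjOn Φ (Finset.range q ×ˢ Finset.range q : Finset (ℕ × ℕ)) := by
    rintro ⟨j, k⟩ h ⟨j', k'⟩ h' he
    simp only [Finset.coe_product, Finset.coe_range, Set.mem_prod, Set.mem_Iio] at h h'
    simp only [hΦ] at he
    have e1 : j • κ₂ = j' • κ₂ := by
      have := congrArg (act hg hw m n) he
      rw [act_add, act_add, act_nsmul, act_nsmul, act_nsmul, act_nsmul, hP₁, hκ₁] at this
      simpa using this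
    have ej : j = j' := order_card hq hκ₂0 q2 h.1 h'.1 e1
    subst ej
    have e2 : k • κ₁ = k' • κ₁ := add_left_cancel he
    have ek : k = k' := order_card hq hκ₁0 q1 h.2 h'.2 e2
    rw [ek]
  set S := (Finset.range q ×ˢ Finset.range q).image Φ with hS
  have cardS : S.card = q * q := by
    rw [hS, Finset.card_image_of_injOn hinj, Finset.card_product, Finset.card_range]
  have torS : ∀ P ∈ S, q • P = 0 := by
    intro P hP
    rw [hS, Finset.mem_image] at hP
    obtain ⟨⟨j, k⟩, _, rfl⟩ := hP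
    simp only [hΦ]
    rw [smul_add, smul_comm q k κ₁, q1, smul_zero, add_zero]
    have := conj_act (hg := hg) (hw := hw) hN (j • P₁)
    rw [act_nsmul, hP₁, act_nsmul, hκ₂, smul_zero, natCast_zsmul] at this
    exact this.symm
  set S' := S.erase 0 with hS'
  have cardS' : q * q - 1 ≤ S'.card := by
    have := Finset.pred_card_le_card_erase (s := S) (a := (0 : (E c).Point))
    rw [cardS] at this
    exact this
  set R := S'.image px with hR
  have card2 : S'.card ≤ 2 * R.card := by
    apply Finset.card_le_mul_card_image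
    intro a ha
    rw [Finset.mem_image] at ha
    obtain ⟨P₀, hP₀, rfl⟩ := ha
    have sub : S'.filter (fun P => px P = px P₀) ⊆ {P₀, -P₀} := by
      intro P hP
      rw [Finset.mem_filter] at hP
      have hne : P ≠ 0 := (Finset.mem_erase.1 hP.1).1
      have hne0 : P₀ ≠ 0 := (Finset.mem_erase.1 hP₀).1
      obtain ⟨x, y, h, rfl⟩ := exists_mkPt hg P hne
      obtain ⟨x', y', h', rfl⟩ := exists_mkPt hg P₀ hne0
      have hx : x = x' := hP.2
      subst hx
      rw [Finset.mem_insert, Finset.mem_singleton]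
      exact eq_or_neg_of_x_eq hg h h'
    exact (Finset.card_le_card sub).trans Finset.card_le_two
  have div : ∀ a ∈ R, (X - C a) ^ 2 ∣ g₂ := by
    intro a ha
    rw [hR, Finset.mem_image] at ha
    obtain ⟨P, hP, rfl⟩ := ha
    have hne : P ≠ 0 := (Finset.mem_erase.1 hP).1
    have htor := torS P (Finset.mem_erase.1 hP).2
    obtain ⟨x, y, h, rfl⟩ := exists_mkPt hg P hne
    rw [px_mkPt]
    have r2 : g₂.eval x = 0 := by
      rw [H2.zero_of h]
      simp only [act, zero_smul, add_zero]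
      rw [natCast_zsmul]; exact htor
    have r0 : g₀.eval x ≠ 0 := by
      intro h0
      rw [H0.zero_of h] at h0
      simp only [act, zero_smul, add_zero] at h0
      rw [natCast_zsmul] at h0
      have h2 : 2 • mkPt hg x y h = 0 := by
        have : q • mkPt hg x y h = (q - 2) • mkPt hg x y h + 2 • mkPt hg x y h := by
          rw [← add_smul]; congr 1; omega
        rw [htor, h0, zero_add] at this
        exact this.symm
      have hodd : Odd q := hq.odd_of_ne_two (by omega)
      obtain ⟨r, hr⟩ := hodd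
      apply hne
      have : q • mkPt hg x y h = r • (2 • mkPt hg x y h) + mkPt hg x y h := by
        rw [smul_smul]
        conv_lhs => rw [hr]
        rw [add_smul, one_smul, mul_comm]
      rw [htor, h2, smul_zero, zero_add] at this
      exact this.symm
    have d1 : (X - C x) ∣ f₁ - X * g₁ := by
      have : (X - C x) ∣ (f₁ - X * g₁) ^ 2 := by
        rw [← rl]
        exact (dvd_iff_isRoot.2 r2).mul_right _
      exact (prime_X_sub_C x).dvd_of_dvd_pow this
    have d2 : (X - C x) ^ 2 ∣ g₂ * g₀ := by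
      rw [rl]
      exact pow_dvd_pow_of_dvd d1 2
    have cop : IsCoprime ((X - C x) ^ 2) g₀ := by
      apply IsCoprime.pow_left
      rw [(irreducible_X_sub_C x).coprime_iff_not_dvd]
      intro h'
      exact r0 (dvd_iff_isRoot.1 h')
    exact cop.dvd_of_dvd_mul_right d2
  have dprod : (∏ a ∈ R, (X - C a) ^ 2) ∣ g₂ := by
    apply Finset.prod_dvd_of_coprime
    · intro a _ b _ hab
      exact (isCoprime_X_sub_C_of_isUnit_sub (sub_ne_zero_of_ne hab).isUnit).pow
    · exact div
  have ndp : (∏ a ∈ R, (X - C a) ^ 2 : K[X]).natDegree = 2 * R.card := by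
    rw [natDegree_prod_of_monic _ _ (fun a _ => (monic_X_sub_C a).pow 2)]
    simp only [(monic_X_sub_C _).natDegree_pow, natDegree_X_sub_C]
    simp [mul_comm]
  have := natDegree_le_of_dvd dprod hg2ne
  rw [ndp] at this
  have hqq : q * q = q ^ 2 := by ring
  omega

theorem frob_of_kernel {q : ℕ} (hq : q.Prime) [CharP K q] (hq5 : 5 ≤ q) {m n : ℤ}
    (hN : m ^ 2 - m * n + n ^ 2 = q) (hm : Odd m) (hn : Even n)
    (hker : ∀ P, act hg hw m n P = 0 → P = 0) {e : K} (he : e ^ 3 = -c) (heq : e ^ q = e)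
    {x y : K} (h : y ^ 2 = x ^ 3 + c) :
    ∃ y' h', act hg hw m n (mkPt hg x y h) = mkPt hg (x ^ q) y' h' := by
  have : Fact q.Prime := ⟨hq⟩
  obtain ⟨f, g, H⟩ := hasRep (hg := hg) (hw := hw) m n
  have ndf : f.natDegree = q := by
    have := H.deg
    rw [hN] at this
    exact_mod_cast this
  have hsq : ∀ x : K, ∃ y, y ^ 2 = x ^ 3 + c := fun x =>
    IsAlgClosed.exists_pow_nat_eq (x ^ 3 + c) (by norm_num)
  have gnr : ∀ x, g.eval x ≠ 0 := by
    intro x hx
    obtain ⟨y, h⟩ := hsq x
    rw [H.zero_of h] at hx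
    exact mkPt_ne_zero hg h (hker _ hx)
  obtain ⟨γ, hγ⟩ : ∃ γ, g = C γ := by
    have : g.degree ≤ 0 := by
      by_contra hd
      obtain ⟨x, hx⟩ := IsAlgClosed.exists_root g (by
        intro h'; rw [h'] at hd; exact hd le_rfl)
      exact gnr x hx
    exact ⟨_, eq_C_of_degree_le_zero this⟩
  have hγ0 : γ ≠ 0 := by
    intro h'
    apply gnr 0
    rw [hγ, h']; simp
  -- the polynomial f
  set b := f.eval 0 with hb
  have hdC : (C b : K[X]).degree < f.degree := by
    rw [degree_eq_natDegree H.monic.ne_zero, ndf]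
    refine lt_of_le_of_lt degree_C_le ?_
    exact_mod_cast (by omega : 0 < q)
  set p := f - C b with hp
  have mp : p.Monic := H.monic.sub_of_left hdC
  have ndp : p.natDegree = q := by
    rw [← ndf]
    apply natDegree_eq_of_degree_eq
    exact degree_sub_eq_left_of_degree_lt hdC
  have hroots : ∀ x ∈ p.roots, x = 0 := by
    intro x hx
    rw [mem_roots mp.ne_zero, IsRoot, hp, eval_sub, eval_C] at hx
    obtain ⟨y, h1⟩ := hsq x
    obtain ⟨y₀, h0⟩ := hsq 0
    obtain ⟨ρ, hρ, e1, e2⟩ := H.prop h1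
    obtain ⟨ρ₀, hρ₀, e1₀, e2₀⟩ := H.prop h0
    have n1 : act hg hw m n (mkPt hg x y h1) ≠ 0 := fun h' => mkPt_ne_zero hg _ (hker _ h')
    have n0 : act hg hw m n (mkPt hg 0 y₀ h0) ≠ 0 := fun h' => mkPt_ne_zero hg _ (hker _ h')
    obtain ⟨x₁, y₁, k₁, E₁⟩ := exists_mkPt hg _ n1
    obtain ⟨x₂, y₂, k₂, E₂⟩ := exists_mkPt hg _ n0
    rw [E₁] at e1 e2
    rw [E₂] at e1₀ e2₀
    rw [px_mkPt] at e1 e1₀
    rw [pz_mkPt] at e2 e2₀
    rw [hγ, eval_C] at e2 e2₀
    have : x₁ = x₂ := by
      have hρρ : ρ = ρ₀ := by rw [mul_one] at e2 e2₀; rw [← e2, ← e2₀]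
      subst hρρ
      apply mul_left_cancel₀ hρ
      rw [← e1, ← e1₀, ← hb]
      linear_combination hx
    subst this
    rcases eq_or_neg_of_x_eq hg k₁ k₂ with h' | h'
    · have : act hg hw m n (mkPt hg x y h1 - mkPt hg 0 y₀ h0) = 0 := by
        rw [act_sub, E₁, E₂, h', sub_self]
      have := hker _ this
      have := sub_eq_zero.1 this
      rw [mkPt_eq_iff] at this
      exact this.1
    · have : act hg hw m n (mkPt hg x y h1 + mkPt hg 0 y₀ h0) = 0 := by
        rw [act_add, E₁, E₂, h', neg_add_cancel]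
      have := hker _ this
      have := eq_neg_of_add_eq_zero_left this
      rw [neg_mkPt, mkPt_eq_iff] at this
      exact this.1
  have hf : f = X ^ q + C b := by
    have hr : p.roots = Multiset.replicate q 0 := by
      rw [Multiset.eq_replicate]
      exact ⟨by rw [IsAlgClosed.card_roots_eq_natDegree, ndp], hroots⟩
    have := (IsAlgClosed.splits p).eq_prod_roots_of_monic mp
    rw [hr] at this
    simp only [Multiset.map_replicate, C_0, sub_zero, Multiset.prod_replicate] at this
    rw [← this, hp]; ring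
  -- 3-torsion point
  have hb0 : b = 0 := by
    obtain ⟨y₀, h0⟩ := hsq 0
    have hW : W hg hw (mkPt hg 0 y₀ h0) = mkPt hg 0 y₀ h0 := by
      rw [W_mkPt hg hw h0 (W_eqn hw h0), mkPt_eq_iff]; simp
    have h3 : (3 : ℤ) • mkPt hg 0 y₀ h0 = 0 := by
      have := W_rel hg hw (mkPt hg 0 y₀ h0)
      rw [hW, hW] at this
      rw [← this]; module
    have hact : act hg hw m n (mkPt hg 0 y₀ h0) = (m + n) • mkPt hg 0 y₀ h0 := by
      rw [act, hW, add_smul]
    have hmn : (m + n) % 3 = 1 ∨ (m + n) % 3 = 2 := by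
      have hq3 : ¬ (3 : ℤ) ∣ q := by
        intro h'
        have : 3 ∣ q := by exact_mod_cast h'
        rcases (Nat.dvd_prime hq).1 this with h'' | h'' <;> omega
      have hsq' : (m + n) ^ 2 = q + 3 * (m * n) := by rw [← hN]; ring
      have : ¬ (3 : ℤ) ∣ (m + n) := by
        intro h'
        apply hq3
        have h2 : (3 : ℤ) ∣ (m + n) ^ 2 := dvd_pow h' (by norm_num)
        rw [hsq'] at h2
        exact (Int.dvd_add_left (Dvd.intro _ rfl)).1 h2
      omega
    have hpm : act hg hw m n (mkPt hg 0 y₀ h0) = mkPt hg 0 y₀ h0 ∨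
        act hg hw m n (mkPt hg 0 y₀ h0) = - mkPt hg 0 y₀ h0 := by
      rw [hact]
      rcases hmn with h' | h'
      · left
        have : m + n = (m + n) / 3 * 3 + 1 := by omega
        rw [this, add_smul, mul_smul, h3, smul_zero, zero_add, one_smul]
      · right
        have : m + n = ((m + n) / 3 + 1) * 3 + (-1) := by omega
        rw [this, add_smul, mul_smul, h3, smul_zero, zero_add, neg_smul, one_smul]
    have r := H.rel 0 y₀ h0
    have px0 : px (act hg hw m n (mkPt hg 0 y₀ h0)) = 0 := by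
      rcases hpm with h' | h' <;> rw [h'] <;> simp
    have pz1 : pz (act hg hw m n (mkPt hg 0 y₀ h0)) = 1 := by
      rcases hpm with h' | h' <;> rw [h'] <;> simp
    rw [px0, pz1, ← hb] at r
    simpa using r
  -- 2-torsion point
  have hγ1 : γ = 1 := by
    have hT : (0 : K) ^ 2 = e ^ 3 + c := by rw [he]; ring
    have hT' := W_eqn hw hT
    have e0 : e ≠ 0 := by
      rintro rfl
      apply hg.hc
      linear_combination he
    have t1 : (2 : ℤ) • mkPt hg e 0 hT = 0 := by
      rw [two_smul]; exact mkPt_add_neg hg hT hT (by ring)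
    have t2 : (2 : ℤ) • mkPt hg (w * e) 0 hT' = 0 := by
      rw [two_smul]; exact mkPt_add_neg hg hT' hT' (by ring)
    obtain ⟨j, hj⟩ := hm
    obtain ⟨k, hk⟩ := hn
    have hact : act hg hw m n (mkPt hg e 0 hT) = mkPt hg e 0 hT := by
      rw [act, W_mkPt hg hw hT hT', hj, hk, add_smul, mul_comm, mul_smul, t1, smul_zero, zero_add,
        one_smul, ← two_mul, mul_comm, mul_smul, t2, smul_zero, add_zero]
    have r := H.rel e 0 hT
    rw [hact, px_mkPt, pz_mkPt, hf, hγ, hb0] at r
    simp only [eval_add, eval_pow, eval_X, eval_C, add_zero, mul_one, heq] at r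
    apply mul_right_cancel₀ e0
    rw [one_mul]; exact r.symm
  have r := H.rel x y h
  have ne : act hg hw m n (mkPt hg x y h) ≠ 0 := fun h' => mkPt_ne_zero hg _ (hker _ h')
  obtain ⟨x', y', h', E'⟩ := exists_mkPt hg _ ne
  rw [E'] at r ⊢
  rw [px_mkPt, pz_mkPt, hf, hγ, hb0, hγ1] at r
  simp only [eval_add, eval_pow, eval_X, eval_C, add_zero, mul_one, one_mul] at r
  subst r
  exact ⟨y', h', rfl⟩

/-- The curve-level Frobenius statement. -/
def FrobAct (q : ℕ) (hg : Good c) (hw : Cube w) (m n : ℤ) : Prop :=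
  ∀ (x y : K) (h : y ^ 2 = x ^ 3 + c),
    ∃ y' h', act hg hw m n (mkPt hg x y h) = mkPt hg (x ^ q) y' h'

theorem frobAct_or {q : ℕ} (hq : q.Prime) [CharP K q] (hq5 : 5 ≤ q) {m n : ℤ}
    (hN : m ^ 2 - m * n + n ^ 2 = q) (hm : Odd m) (hn : Even n)
    {e : K} (he : e ^ 3 = -c) (heq : e ^ q = e) :
    FrobAct q hg hw m n ∨ FrobAct q hg hw (m - n) (-n) := by
  rcases kernel_trivial (hg := hg) (hw := hw) hq hq5 hN with h | h
  · left
    intro x y hxy
    exact frob_of_kernel hq hq5 hN hm hn h he heq hxy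
  · right
    intro x y hxy
    refine frob_of_kernel hq hq5 (by rw [← hN]; ring) (hm.sub_even hn) hn.neg h he heq hxy

end Pool.Agent.Work.MP_35f602_nt
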