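import Pool.Agent.Work.MP_35f602_nt.Theta
import Pool.Agent.Work.MP_35f602_nt.Ident

set_option autoImplicit false
set_option linter.unusedSectionVars false
set_option linter.unusedSimpArgs false
set_option linter.unusedVariables false

namespace Pool.Agent.Work.MP_35f602_nt

open WeierstrassCurve WeierstrassCurve.Affine Polynomial

variable {K : Type*} [Field K] [DecidableEq K] [IsAlgClosed K]

lemma three_torsion {c : K} (hg : Good c) {w : K} (hw : Cube w) {y : K}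
    (h : y ^ 2 = (0 : K) ^ 3 + c) : (3 : ℤ) • mkPt hg 0 y h = 0 := by
  have hW : W hg hw (mkPt hg 0 y h) = mkPt hg 0 y h := by
    rw [W_mkPt hg hw h (W_eqn hw h), mkPt_eq_iff]; simp
  have := W_rel hg hw (mkPt hg 0 y h)
  rw [hW, hW] at this
  rw [← this]; module

lemma x_ne_zero {c : K} (hg : Good c) {w : K} (hw : Cube w) {x y : K}
    (h : y ^ 2 = x ^ 3 + c) (h16 : (16 : ℤ) • mkPt hg x y h = 0) : x ≠ 0 := by
  rintro rfl
  have h3 := three_torsion hg hw h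
  apply mkPt_ne_zero hg h
  have : (16 : ℤ) • mkPt hg 0 y h = (5 : ℤ) • ((3 : ℤ) • mkPt hg 0 y h) + mkPt hg 0 y h := by
    module
  rw [h3, h16, smul_zero, zero_add] at this
  exact this.symm

lemma Hf_pow {q : ℕ} [Fact q.Prime] [CharP K q] {w e c x : K} (hwq : w ^ q = w) (heq : e ^ q = e)
    (hcq : c ^ q = c) : Hf w e c x ^ q = Hf w e c (x ^ q) := by
  have hf : ∀ z : K, z ^ q = frobenius K q z := fun z => (frobenius_def q z).symm
  rw [hf] at hwq heq hcq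
  rw [hf, hf]
  unfold Hf
  simp only [map_div₀, map_mul, map_sub, map_add, map_pow, hwq, heq, hcq, map_ofNat]

/-- The main transfer formula. -/
lemma transfer {q : ℕ} [Fact q.Prime] [CharP K q] {w i e c : K} (S : Setup w i e c)
    (hwq : w ^ q = w) (heq : e ^ q = e)
    {m n : ℤ} (hF : FrobAct q S.good S.cube m n)
    {u₁ u₂ u₃ v₁ v₂ v₃ : K} (R : URel w u₁ u₂ u₃) (R' : URel w v₁ v₂ v₃)
    (hact : act S.good S.cube m n (hP S R) = W S.good S.cube (hP S R') -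
      W S.good S.cube (W S.good S.cube (hP S R')))
    (h16 : (16 : ℤ) • hP S R' = 0) (h2 : (2 : ℤ) • hP S R' ≠ 0) :
    v₂ ^ 2 + e ≠ 0 ∧
    (u₁ * u₂) ^ q = -(v₁ * v₂ * (v₂ ^ 2 + e + 2 * (w * e)) * (v₂ ^ 2 + e + 2 * e)) /
      (3 * (v₂ ^ 2 + e) ^ 2) := by
  have hcq : c ^ q = c := by
    have hodd : (-1 : K) ^ q = -1 := by
      have := neg_one_pow_expChar K q
      simpa using this
    rw [S.hc, show -e ^ 3 = (-1) * e ^ 3 by ring, mul_pow, hodd, ← pow_mul, mul_comm 3 q, pow_mul,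
      heq]
  have hx' : hX e v₁ v₂ v₃ ≠ 0 := x_ne_zero S.good S.cube _ h16
  have hd := hP_double S R'
  have hX0 : v₂ ^ 2 + e ≠ 0 := by
    apply x_ne_zero S.good S.cube (base_eqn S R')
    rw [← hd, smul_add, h16, add_zero]
  refine ⟨hX0, ?_⟩
  obtain ⟨y', h', hth⟩ := theta_pt S hx' (half_eqn S R')
  have hact' : act S.good S.cube m n (hP S R) = mkPt S.good (thx c (hX e v₁ v₂ v₃)) y' h' := by
    rw [hact]; exact hth
  obtain ⟨y'', h'', hfr⟩ := hF _ _ (half_eqn S R)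
  have hxx : hX e u₁ u₂ u₃ ^ q = thx c (hX e v₁ v₂ v₃) := by
    have : mkPt S.good (thx c (hX e v₁ v₂ v₃)) y' h' = mkPt S.good (hX e u₁ u₂ u₃ ^ q) y'' h'' := by
      rw [← hact', ← hfr]; rfl
    rw [mkPt_eq_iff] at this
    exact this.1.symm
  have hXe : 4 * hY v₁ v₂ v₃ ^ 2 * (v₂ ^ 2 + e) =
      hX e v₁ v₂ v₃ ^ 4 - 8 * c * hX e v₁ v₂ v₃ := by
    have b := base_x S R'
    have s := half_slope S R'
    have hh := half_eqn S R'
    have s2 : 4 * hY v₁ v₂ v₃ ^ 2 * (v₁ + v₂ + v₃) ^ 2 = 9 * hX e v₁ v₂ v₃ ^ 4 := by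
      linear_combination ((v₁ + v₂ + v₃) * (2 * hY v₁ v₂ v₃) + 3 * hX e v₁ v₂ v₃ ^ 2) * s
    rw [b]
    linear_combination s2 - 8 * hX e v₁ v₂ v₃ * hh
  rw [← Hf_half S R, Hf_pow hwq heq hcq, hxx,
    theta_H S hx' (hY_ne S R') hX0 (half_eqn S R') hXe, Hf_half S R']

end Pool.Agent.Work.MP_35f602_nt
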