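import Pool.Agent.Work.MP_35f602_nt.Sign

set_option autoImplicit false
set_option linter.unusedSectionVars false
set_option linter.unusedSimpArgs false
set_option linter.unusedVariables false

namespace Pool.Agent.Work.MP_35f602_nt

open WeierstrassCurve WeierstrassCurve.Affine Polynomial

variable {K : Type*} [Field K] [DecidableEq K] [IsAlgClosed K]

section
variable {q : ℕ} [Fact q.Prime] [CharP K q] {w z n e c : K} (S : Setup w (z ^ 2) e c)
  (hz : z ^ 4 = -1)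
  (hn : n ^ 2 = w ^ 2 + z ^ 2 * w) {u₁ u₂ u₃ : K} (D : QData w z n e u₁ u₂ u₃)
  (hwq : w ^ q = w) (heq : e ^ q = e)
  {a' b' : ℤ} (hF : FrobAct q S.good S.cube (2 * (1 + 4 * a') + 3 * (1 + 16 * b'))
    (6 * (1 + 16 * b')))

include hz hn hwq heq hF D in
lemma level16 {x₁ x₂ x₃ : K} (R₁ : URel w x₁ x₂ x₃) (hx₂ : x₂ ≠ 0)
    (hQ₁ : hP S D.R + a' • mkPt S.good (w * e) 0 (T1_eqn S) = hP S R₁) :
    (z ^ 2 * w ^ 2 / x₂) ^ 2 + e ≠ 0 ∧
    (u₁ * u₂) ^ q = -(-(z ^ 2 * w ^ 2 * x₃ / x₂) * (z ^ 2 * w ^ 2 / x₂) *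
      ((z ^ 2 * w ^ 2 / x₂) ^ 2 + e + 2 * (w * e)) * ((z ^ 2 * w ^ 2 / x₂) ^ 2 + e + 2 * e)) /
      (3 * ((z ^ 2 * w ^ 2 / x₂) ^ 2 + e) ^ 2) := by
  have hQ := Q_double S hz hn D
  have hU := U_double S hz hn
  have hV4 := V4_double S hz
  have hT1 := T1_double S
  have hV := V_double S
  have hT2 := T2_double S
  have hVV := V'_add_V4 S hz
  have hf := act_formula S.good S.cube hQ hU hV4 hT1 hVV a' b'
  have V4ne : hP S (RV4 S.hw hz) ≠ 0 := mkPt_ne_zero S.good _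
  have Tne : mkPt S.good (w * e) 0 (T1_eqn S) ≠ 0 := mkPt_ne_zero S.good _
  have f1 : hP S (RA S.hw hz hn) = (2 : ℤ) • hP S D.R := by rw [← hQ]; module
  have f2 : hP S (RV4 S.hw hz) = (4 : ℤ) • hP S D.R := by rw [← hU, f1]; module
  have f3 : mkPt S.good (w * e) 0 (T1_eqn S) = (8 : ℤ) • hP S D.R := by rw [← hV4, f2]; module
  have f4 : (16 : ℤ) • hP S D.R = 0 := by rw [← hT1, f3]; module
  have f5 : (4 : ℤ) • hP S (RV S) = 0 := by
    have : (4 : ℤ) • hP S (RV S) = (hP S (RV S) + hP S (RV S)) + (hP S (RV S) + hP S (RV S)) := by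
      module
    rw [this, hV, hT2]
  have f6 : (8 : ℤ) • hP S R₁ = mkPt S.good (w * e) 0 (T1_eqn S) := by
    rw [← hQ₁, f3]
    have : (8 : ℤ) • (hP S D.R + a' • (8 : ℤ) • hP S D.R) =
        (8 : ℤ) • hP S D.R + (4 * a') • ((16 : ℤ) • hP S D.R) := by module
    rw [this, f4, smul_zero, add_zero]
  have hne : hX e x₁ x₂ x₃ ≠ hX e (-(z ^ 2 * w ^ 2)) 0 1 := by
    intro h
    have hor : hP S R₁ = hP S (RV S) ∨ hP S R₁ = - hP S (RV S) := by
      unfold hP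
      rw [neg_mkPt, mkPt_eq_iff, mkPt_eq_iff]
      have e1 := half_eqn S R₁
      have e2 := half_eqn S (RV S)
      rw [h] at e1
      have : (hY x₁ x₂ x₃ - hY (-(z ^ 2 * w ^ 2)) 0 1) *
          (hY x₁ x₂ x₃ + hY (-(z ^ 2 * w ^ 2)) 0 1) = 0 := by linear_combination e1 - e2
      rcases mul_eq_zero.1 this with h' | h'
      · left; exact ⟨h, by linear_combination h'⟩
      · right; exact ⟨h, by linear_combination h'⟩
    have f7 : (8 : ℤ) • hP S R₁ = 0 := by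
      have e8 : (8 : ℤ) • hP S (RV S) = 0 := by
        have : (8 : ℤ) • hP S (RV S) = (2 : ℤ) • ((4 : ℤ) • hP S (RV S)) := by module
        rw [this, f5, smul_zero]
      rcases hor with h' | h'
      · rw [h', e8]
      · rw [h', smul_neg, e8, neg_zero]
    rw [f6] at f7
    exact Tne f7
  have hadd := add_V S R₁ hx₂ hne
  have hP' : hP S D.R + a' • mkPt S.good (w * e) 0 (T1_eqn S) + hP S (RV S) =
      hP S (Rshift S R₁ hx₂) := by rw [hQ₁, hadd]
  rw [hP'] at hf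
  have h16 : (16 : ℤ) • hP S (Rshift S R₁ hx₂) = 0 := by
    rw [← hadd, smul_add]
    have e1 : (16 : ℤ) • hP S R₁ = (2 : ℤ) • ((8 : ℤ) • hP S R₁) := by module
    have e2 : (16 : ℤ) • hP S (RV S) = (4 : ℤ) • ((4 : ℤ) • hP S (RV S)) := by module
    rw [e1, e2, f6, f5, smul_zero, add_zero, two_smul, hT1]
  have h2 : (2 : ℤ) • hP S (Rshift S R₁ hx₂) ≠ 0 := by
    intro h
    apply Tne
    rw [← f6]
    have e1 : (8 : ℤ) • hP S R₁ = (4 : ℤ) • ((2 : ℤ) • (hP S R₁ + hP S (RV S))) -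
        (2 : ℤ) • ((4 : ℤ) • hP S (RV S)) := by module
    rw [e1, hadd, h, f5, smul_zero, smul_zero, sub_zero]
  exact transfer S hwq heq hF D.R (Rshift S R₁ hx₂) hf h16 h2

end

/-- Construction of `QData`. -/
lemma exists_QData {w z n e c r ξ ν ρ s : K} (S : Setup w (z ^ 2) e c) (hz : z ^ 4 = -1)
    (hn : n ^ 2 = w ^ 2 + z ^ 2 * w) (hr : r = z - z ^ 3) (hξ : ξ ^ 2 = z) (hν : ν ^ 2 = n)
    (hρ : ρ ^ 2 = r) (hs : s ^ 2 = 2 - r) :
    ∃ u₁ u₂ u₃, QData w z n e u₁ u₂ u₃ ∧ u₁ ≠ 0 ∧ u₂ ≠ 0 ∧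
      u₁ = ξ * (n + w + z * w ^ 2) / r ∧
      u₂ = ν * (z * w ^ 2 * (z - z ^ 3 - 1) + (w - z ^ 3) * n) / (ρ * s) ∧
      u₂ ^ 2 = n * (w * n + z) * (w + z * w ^ 2) := by
  have h2 := S.h2
  have hw := S.hw
  have hw' : w ^ 2 = -w - 1 := by linear_combination hw
  have hr2 : r ^ 2 = 2 := by rw [hr]; linear_combination (z ^ 2 - 2) * hz
  have hr0 : r ≠ 0 := by
    intro h; rw [h] at hr2; apply h2; linear_combination -hr2
  have h2r : 2 - r ≠ 0 := by
    intro h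
    have h' : r = 2 := by linear_combination -h
    rw [h'] at hr2
    apply h2; linear_combination hr2
  have hρ0 : ρ ≠ 0 := by
    rintro rfl; apply hr0; rw [← hρ]; ring
  have hs0 : s ≠ 0 := by
    rintro rfl; apply h2r; rw [← hs]; ring
  have A := RA hw hz hn
  have n12 := u12 S A
  have n23 := u23 S A
  have n31 := u31 S A
  set M0 := n + w + z * w ^ 2 with hM0
  set N0 := z * w ^ 2 * (z - z ^ 3 - 1) + (w - z ^ 3) * n with hN0
  set u₁ := ξ * M0 / r with hu₁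
  set u₂ := ν * N0 / (ρ * s) with hu₂
  have i2 := ident2 hw' hz hn
  have i1 := ident1 hw' hz hn
  rw [← hM0] at i2
  rw [← hN0] at i1
  have q1 : u₁ ^ 2 = (z + w * n) * (z + z * w ^ 2 * n) := by
    rw [hu₁, div_pow, mul_pow, hξ, i2, hr2]
    field_simp
    try ring
  have q2 : u₂ ^ 2 = (w * n + z) * (w * n + z * w ^ 2 * n) := by
    rw [hu₂, div_pow, mul_pow, mul_pow, hν, hρ, hs, i1]
    have e1 : r * (2 - r) = 2 * (z - z ^ 3 - 1) := by rw [← hr]; linear_combination -hr2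
    have e2 : (2 : K) * (z - z ^ 3 - 1) ≠ 0 := by
      rw [← e1]; exact mul_ne_zero hr0 h2r
    rw [e1, div_eq_iff e2]
    ring
  have u1ne : u₁ ≠ 0 := by
    intro h
    rw [h] at q1
    have : (z + w * n) * (z + z * w ^ 2 * n) = 0 := by rw [← q1]; ring
    rcases mul_eq_zero.1 this with h' | h'
    · exact n12 h'
    · exact n31 (by linear_combination h')
  have u2ne : u₂ ≠ 0 := by
    intro h
    rw [h] at q2
    have : (w * n + z) * (w * n + z * w ^ 2 * n) = 0 := by rw [← q2]; ring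
    rcases mul_eq_zero.1 this with h' | h'
    · exact n12 (by linear_combination h')
    · exact n23 h'
  set u₃ := hY z (w * n) (z * w ^ 2 * n) / (u₁ * u₂) with hu₃
  have q3 : u₃ ^ 2 = (z * w ^ 2 * n + z) * (z * w ^ 2 * n + w * n) := by
    rw [hu₃, div_pow, mul_pow, q1, q2]
    unfold hY
    rw [div_eq_iff]
    · ring
    · rw [← q1, ← q2]
      exact mul_ne_zero (pow_ne_zero 2 u1ne) (pow_ne_zero 2 u2ne)
  refine ⟨u₁, u₂, u₃, ⟨⟨?_, ?_⟩, ?_, ?_⟩, u1ne, u2ne, rfl, rfl, ?_⟩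
  · rw [q1, q2]
    linear_combination A.r1
  · rw [q2, q3]
    linear_combination A.r3
  · rw [q2]; unfold hX; ring
  · rw [hu₃]; field_simp
  · rw [q2]; ring

end Pool.Agent.Work.MP_35f602_nt
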