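import Pool.Agent.Work.MP_35f602_nt.Final

set_option autoImplicit false
set_option linter.unusedSectionVars false
set_option linter.unusedSimpArgs false
set_option linter.unusedVariables false

namespace Pool.Agent.Work.MP_35f602_nt

open WeierstrassCurve WeierstrassCurve.Affine Polynomial

variable {K : Type*} [Field K] [DecidableEq K] [IsAlgClosed K]

/-- Passing to the conjugate cube root of unity. -/
lemma frobAct_conj {q : ℕ} (hqodd : Odd q) {c c' w i : K} {hg : Good c} {hw : Cube w}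
    (hg' : Good c') (hw' : Cube (w ^ 2)) (hi : i ^ 2 = -1) (hcc : c' = -c) {m n : ℤ}
    (H : FrobAct q hg hw (m - n) (-n)) : FrobAct q hg' hw' m n := by
  intro x y hxy
  have hi0 : i ≠ 0 := by
    rintro rfl
    have : (1 : K) = 0 := by linear_combination hi
    exact one_ne_zero this
  have hi4 : i ^ 4 = 1 := by rw [show i ^ 4 = (i ^ 2) ^ 2 by ring, hi]; ring
  have hcc' : c' = i ^ 6 * c := by
    rw [show i ^ 6 = (i ^ 2) ^ 3 by ring, hi, hcc]; ring
  have k : (i * y) ^ 2 = (-x) ^ 3 + c := by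
    rw [mul_pow, hi]; linear_combination -hxy - hcc
  have k0 : (i ^ 3 * (i * y)) ^ 2 = (i ^ 2 * (-x)) ^ 3 + c' := by
    rw [hi, show i ^ 3 * (i * y) = i ^ 4 * y by ring, hi4]; linear_combination hxy
  have k1 := W_eqn hw k
  have k2 := W_eqn hw k1
  have k3 : (i ^ 3 * (i * y)) ^ 2 = (i ^ 2 * (w * (w * (-x)))) ^ 3 + c' := by
    rw [hi, show i ^ 3 * (i * y) = i ^ 4 * y by ring, hi4]
    linear_combination hxy - x ^ 3 * (w ^ 3 + 1) * hw.cube
  have k4 := W_eqn hw' hxy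
  obtain ⟨y', h', e'⟩ := H (-x) (i * y) k
  set φ := scale hg hg' i hi0 hcc' with hφ
  have e1 : φ (mkPt hg (-x) (i * y) k) = mkPt hg' x y hxy := by
    rw [hφ, scale_mkPt hg hg' i hi0 hcc' k k0, mkPt_eq_iff]
    constructor
    · rw [hi]; ring
    · linear_combination y * hi4
  have e2 : φ (W hg hw (W hg hw (mkPt hg (-x) (i * y) k))) = W hg' hw' (mkPt hg' x y hxy) := by
    rw [W_mkPt hg hw k k1, W_mkPt hg hw k1 k2, hφ, scale_mkPt hg hg' i hi0 hcc' k2 k3,
      W_mkPt hg' hw' hxy k4, mkPt_eq_iff]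
    constructor
    · rw [hi]; ring
    · linear_combination y * hi4
  have e3 : act hg' hw' m n (mkPt hg' x y hxy) =
      φ (act hg hw (m - n) (-n) (mkPt hg (-x) (i * y) k)) := by
    unfold act
    rw [← e1, map_add, map_zsmul, map_zsmul]
    rw [← e1, WW, map_sub, map_neg] at e2
    rw [← e2, sub_smul, smul_sub, smul_neg, neg_smul]
    abel
  have hx : i ^ 2 * (-x) ^ q = x ^ q := by
    rw [hqodd.neg_pow, hi]; ring
  have k5 : (i ^ 3 * y') ^ 2 = (i ^ 2 * (-x) ^ q) ^ 3 + c' := by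
    rw [hcc']; linear_combination i ^ 6 * h'
  refine ⟨i ^ 3 * y', by rw [← hx]; exact k5, ?_⟩
  rw [e3, e', hφ, scale_mkPt hg hg' i hi0 hcc' h' k5, mkPt_eq_iff]
  exact ⟨hx, rfl⟩

theorem exists_w {q : ℕ} [hq : Fact q.Prime] [CharP K q] (hq5 : 5 ≤ q) {a b : ℤ}
    (hN : 4 * a ^ 2 + 27 * b ^ 2 = q) (hb : Odd b) {i : K} (hi : i ^ 2 = -1) :
    ∃ (w e c : K) (S : Setup w i e c), w ^ q = w ∧ e ^ q = e ∧
      FrobAct q S.good S.cube (2 * a + 3 * b) (6 * b) := by
  have hcast : ∀ j : ℤ, j ≠ 0 → j.natAbs < q → (j : K) ≠ 0 := by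
    intro j hj hjq h
    rw [CharP.intCast_eq_zero_iff K q] at h
    have := Int.natAbs_dvd_natAbs.2 h
    rw [Int.natAbs_natCast] at this
    exact absurd (Nat.le_of_dvd (Int.natAbs_pos.2 hj) this) (by omega)
  have h2 : (2 : K) ≠ 0 := by exact_mod_cast hcast 2 (by norm_num) (by norm_num; omega)
  have h3 : (3 : K) ≠ 0 := by exact_mod_cast hcast 3 (by norm_num) (by norm_num; omega)
  have hb0 : b ≠ 0 := by rintro rfl; simp at hb
  have hbK : (b : K) ≠ 0 := by
    apply hcast b hb0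
    have h1 : (b.natAbs : ℤ) ^ 2 = b ^ 2 := by simp
    have h2' : (1 : ℤ) ≤ b.natAbs := by
      have := Int.natAbs_pos.2 hb0
      exact_mod_cast this
    zify
    simp only [← Int.natCast_natAbs]
    nlinarith [sq_nonneg a]
  have hNK : 4 * (a : K) ^ 2 + 27 * (b : K) ^ 2 = 0 := by
    have := congrArg (fun x : ℤ => (x : K)) hN
    push_cast at this
    rw [this, CharP.cast_eq_zero]
  have hF : ∀ j : ℤ, (j : K) ^ q = j := by
    intro j
    rw [← frobenius_def, map_intCast]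
  have hqodd : Odd q := hq.out.odd_of_ne_two (by omega)
  have h6 : (6 : K) * b ≠ 0 := by
    rw [show (6 : K) = 2 * 3 by norm_num]
    exact mul_ne_zero (mul_ne_zero h2 h3) hbK
  obtain ⟨w, hwdef⟩ : ∃ w : K, w = -(2 * a + 3 * b) / (6 * b) := ⟨_, rfl⟩
  have hw : w ^ 2 + w + 1 = 0 := by
    have e0 : w * (6 * b) = -(2 * a + 3 * b) := by rw [hwdef, div_mul_cancel₀ _ h6]
    apply mul_left_cancel₀ (pow_ne_zero 2 h6)
    linear_combination (w * (6 * b) - (2 * a + 3 * b) + 6 * b) * e0 + hNK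
  have hwq : w ^ q = w := by
    have : w = ((-(2 * a + 3 * b) : ℤ) : K) / ((6 * b : ℤ) : K) := by
      rw [hwdef]; push_cast; ring
    rw [this, div_pow, hF, hF]
  obtain ⟨e, hedef⟩ : ∃ e : K, e = (1 - w) / 3 := ⟨_, rfl⟩
  have he : 3 * e = 1 - w := by rw [hedef]; field_simp
  have h3q : (3 : K) ^ q = 3 := by exact_mod_cast hF 3
  have heq : e ^ q = e := by
    rw [hedef, div_pow, h3q]
    congr 1
    rw [← frobenius_def, map_sub, map_one, frobenius_def, hwq]
  have S : Setup w i e (-e ^ 3) := ⟨h2, h3, hw, hi, he, rfl⟩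
  obtain ⟨e', hedef'⟩ : ∃ e' : K, e' = (1 - w ^ 2) / 3 := ⟨_, rfl⟩
  have he' : 3 * e' = 1 - w ^ 2 := by rw [hedef']; field_simp
  have hw2q : (w ^ 2) ^ q = w ^ 2 := by rw [← pow_mul, mul_comm, pow_mul, hwq]
  have heq' : e' ^ q = e' := by
    rw [hedef', div_pow, h3q]
    congr 1
    rw [← frobenius_def, map_sub, map_one, frobenius_def, hw2q]
  have hw2 : (w ^ 2) ^ 2 + w ^ 2 + 1 = 0 := by linear_combination (w ^ 2 - w + 1) * hw
  have S' : Setup (w ^ 2) i e' (-e' ^ 3) := ⟨h2, h3, hw2, hi, he', rfl⟩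
  have hm : Odd (2 * a + 3 * b) := by
    obtain ⟨k, rfl⟩ := hb
    exact ⟨a + 3 * k + 1, by ring⟩
  have hn : Even (6 * b) := ⟨3 * b, by ring⟩
  have hN' : (2 * a + 3 * b) ^ 2 - (2 * a + 3 * b) * (6 * b) + (6 * b) ^ 2 = q := by
    rw [← hN]; ring
  rcases frobAct_or (hg := S.good) (hw := S.cube) hq.out hq5 hN' hm hn (e := e) (by ring) heq
    with h | h
  · exact ⟨w, e, _, S, hwq, heq, h⟩
  · refine ⟨w ^ 2, e', _, S', hw2q, heq', ?_⟩
    refine frobAct_conj hqodd S'.good S'.cube hi ?_ h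
    have h27 : (27 : K) ≠ 0 := by
      rw [show (27 : K) = 3 ^ 3 by norm_num]; exact pow_ne_zero 3 h3
    apply mul_left_cancel₀ h27
    have e1 : 27 * e ^ 3 = (1 - w) ^ 3 := by rw [← he]; ring
    have e2 : 27 * e' ^ 3 = (1 - w ^ 2) ^ 3 := by rw [← he']; ring
    linear_combination -e2 - e1 + (w ^ 4 - w ^ 3 - 3 * w ^ 2 + 5 * w - 2) * hw

end Pool.Agent.Work.MP_35f602_nt
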