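import Pool.Agent.Work.MP_35f602_nt.Level

set_option autoImplicit false
set_option linter.unusedSectionVars false
set_option linter.unusedSimpArgs false
set_option linter.unusedVariables false

namespace Pool.Agent.Work.MP_35f602_nt

open WeierstrassCurve WeierstrassCurve.Affine Polynomial

variable {K : Type*} [Field K] [DecidableEq K] [IsAlgClosed K]

section rels
variable {w z n : K}

lemma RV4 (hw : w ^ 2 + w + 1 = 0) (hz : z ^ 4 = -1) : URel w 0 (w ^ 2) (z ^ 2 * w) := by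
  constructor
  · linear_combination (w - w ^ 2) * hw
  · linear_combination w ^ 2 * hz + (-w ^ 2 + w - 1) * hw

lemma RA (hw : w ^ 2 + w + 1 = 0) (hz : z ^ 4 = -1) (hn : n ^ 2 = w ^ 2 + z ^ 2 * w) :
    URel w z (w * n) (z * w ^ 2 * n) := by
  constructor
  · linear_combination -w ^ 2 * hn + (-w * z ^ 2 - w ^ 2 + z ^ 2 + w) * hw
  · linear_combination (w ^ 4 * z ^ 2 - w ^ 2) * hn +
      (w ^ 3 * z ^ 4 + w ^ 4 * z ^ 2 - w ^ 3 * z ^ 2 + w - 1) * hw + (-w ^ 4 - w ^ 3) * hz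

end rels

section pts
variable {w z n e c : K} (S : Setup w (z ^ 2) e c) (hz : z ^ 4 = -1)
  (hn : n ^ 2 = w ^ 2 + z ^ 2 * w)

lemma V4_double : hP S (RV4 S.hw hz) + hP S (RV4 S.hw hz) = mkPt S.good (w * e) 0 (T1_eqn S) := by
  rw [hP_double, mkPt_eq_iff]
  constructor
  · linear_combination S.E1 + (w ^ 2 - w) * S.hw
  · ring

lemma U_double : hP S (RA S.hw hz hn) + hP S (RA S.hw hz hn) = hP S (RV4 S.hw hz) := by
  rw [hP_double]
  unfold hP
  rw [mkPt_eq_iff]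
  unfold hX hY
  constructor
  · linear_combination w ^ 2 * hn
  · linear_combination (z ^ 2 * w ^ 3) * hn

lemma V'_add_V4 : hP S (RV S) + hP S (RV4 S.hw hz) = W S.good S.cube (hP S (RV4 S.hw hz)) := by
  have hw := S.hw
  have he := S.he
  have h2 := S.h2
  unfold hP
  rw [W_mkPt S.good S.cube _ (W_eqn S.cube (half_eqn S (RV4 S.hw hz)))]
  have hne : hX e (-(z ^ 2 * w ^ 2)) 0 1 ≠ hX e 0 (w ^ 2) (z ^ 2 * w) := by
    unfold hX
    intro h
    have h1 : w * (1 - z ^ 2) = 0 := by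
      linear_combination -h + (-z ^ 2 * w - w ^ 2 + w) * hw
    rcases mul_eq_zero.1 h1 with h' | h'
    · exact S.cube.ne_zero h'
    · have : z ^ 2 = 1 := by linear_combination -h'
      have h4 : z ^ 4 = 1 := by rw [show z ^ 4 = (z ^ 2) ^ 2 by ring, this]; ring
      rw [hz] at h4
      apply h2
      linear_combination -h4
  refine mkPt_add S.good (l := w * (z ^ 2 - 1)) _ _ hne ?_ ?_ ?_ _
  · unfold hX hY
    linear_combination (-w ^ 2 * z ^ 4 - w * z ^ 4 + w ^ 2 * z ^ 2 + w ^ 3 - w ^ 2 - w) * hw +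
      (w ^ 3 + 2 * w ^ 2 + w) * hz
  · unfold hX
    apply mul_left_cancel₀ S.h3
    linear_combination (w + 2) * he +
      (3 * w ^ 2 * z ^ 2 - 3 * z ^ 4 + 3 * w ^ 3 - 3 * w - 1) * hw + (3 * w + 3) * hz
  · unfold hX hY
    apply mul_left_cancel₀ S.h3
    linear_combination -(z ^ 2 - 1) * (2 * w + 1) * he + (3 * w ^ 3 * z ^ 4 + 6 * w ^ 2 * z ^ 4 + 3 * w ^ 4 * z ^ 2 + 3 * w * z ^ 4 - 3 * w ^ 3 * z ^ 2 - 3 * w ^ 4 +
        3 * e * z ^ 2 + 3 * w ^ 3 + 3 * w ^ 2 - z ^ 2 - 3 * e + 3 * w + 1) * hw +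
      (-3 * w ^ 4 - 9 * w ^ 3 - 9 * w ^ 2 - 3 * w) * hz

/-- group-theoretic identity for the action on `Q` -/
lemma act_formula {c : K} (hg : Good c) {w : K} (hw : Cube w) {Q U V4 T V : (E c).Point}
    (h1 : Q + Q = U) (h2 : U + U = V4) (h3 : V4 + V4 = T) (h4 : T + T = 0)
    (hV : V + V4 = W hg hw V4) (a' b' : ℤ) :
    act hg hw (2 * (1 + 4 * a') + 3 * (1 + 16 * b')) (6 * (1 + 16 * b')) Q =
      W hg hw (Q + a' • T + V) - W hg hw (W hg hw (Q + a' • T + V)) := by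
  set x := W hg hw Q with hx
  have hWx : W hg hw x = -Q - x := WW Q
  have e1 : U = (2 : ℤ) • Q := by rw [← h1]; module
  have e2 : V4 = (4 : ℤ) • Q := by rw [← h2, e1]; module
  have e3 : T = (8 : ℤ) • Q := by rw [← h3, e2]; module
  have e4 : (16 : ℤ) • Q = 0 := by rw [← h4, e3]; module
  have e5 : (16 : ℤ) • x = 0 := by rw [hx, ← map_zsmul, e4, map_zero]
  have e6 : V = (4 : ℤ) • x - (4 : ℤ) • Q := by
    rw [eq_sub_of_add_eq hV, e2, map_zsmul]
  have e7 : Q + a' • T + V = (8 * a' - 3) • Q + (4 : ℤ) • x := by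
    rw [e3, e6]; module
  rw [e7]
  simp only [map_add, map_sub, map_neg, map_zsmul, ← hx, hWx, act]
  have key : (2 * (1 + 4 * a') + 3 * (1 + 16 * b')) • Q + (6 * (1 + 16 * b')) • x =
      (8 * a' - 3) • x + (4 : ℤ) • (-Q - x) - ((8 * a' - 3) • (-Q - x) + (4 : ℤ) • (-(-Q - x) - x)) +
      ((1 + 3 * b') • ((16 : ℤ) • Q) + (1 + 6 * b' - a') • ((16 : ℤ) • x)) := by
    module
  rw [key, e4, e5, smul_zero, smul_zero, add_zero, add_zero]
  congr 1
  module

end pts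

end Pool.Agent.Work.MP_35f602_nt
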