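import Pool.Agent.Work.MP_35f602_nt.Scale

set_option autoImplicit false
set_option linter.unusedSectionVars false
set_option linter.unusedSimpArgs false
set_option linter.unusedVariables false

namespace Pool.Agent.Work.MP_35f602_nt

open WeierstrassCurve WeierstrassCurve.Affine Polynomial

variable {K : Type*} [Field K] [DecidableEq K] [IsAlgClosed K]

/-- The action of `m + n w`. -/
noncomputable def act {c : K} (hg : Good c) {w : K} (hw : Cube w) (m n : ℤ) (P : (E c).Point) :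
    (E c).Point := m • P + n • W hg hw P

section act
variable {c : K} (hg : Good c) {w : K} (hw : Cube w)

lemma act_add_act (m n m' n' : ℤ) (P : (E c).Point) :
    act hg hw m n P + act hg hw m' n' P = act hg hw (m + m') (n + n') P := by
  unfold act; rw [add_smul, add_smul]; abel

lemma act_sub_act (m n m' n' : ℤ) (P : (E c).Point) :
    act hg hw m n P - act hg hw m' n' P = act hg hw (m - m') (n - n') P := by
  unfold act; rw [sub_smul, sub_smul]; abel

lemma act_neg (m n : ℤ) (P : (E c).Point) :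
    act hg hw (-m) (-n) P = - act hg hw m n P := by
  unfold act; rw [neg_smul, neg_smul]; abel

end act

/-- `f / g` represents the action of `m + n w` on x-coordinates. -/
structure Rep {c : K} (hg : Good c) {w : K} (hw : Cube w) (m n : ℤ) (f g : K[X]) : Prop where
  monic : f.Monic
  deg : (f.natDegree : ℤ) = m ^ 2 - m * n + n ^ 2
  lt : g.degree < f.degree
  cop : ∀ x, ¬ (f.eval x = 0 ∧ g.eval x = 0)
  rel : ∀ x y (h : y ^ 2 = x ^ 3 + c), f.eval x * pz (act hg hw m n (mkPt hg x y h)) =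
    g.eval x * px (act hg hw m n (mkPt hg x y h))

lemma prop_of_rel {f g x z : K} (h : f * z = g * x) (hxz : x ≠ 0 ∨ z ≠ 0)
    (hfg : ¬ (f = 0 ∧ g = 0)) : ∃ ρ : K, ρ ≠ 0 ∧ f = ρ * x ∧ g = ρ * z := by
  by_cases hx : x = 0
  · have hz : z ≠ 0 := by tauto
    subst hx
    have hf : f = 0 := by
      have : f * z = 0 := by rw [h]; ring
      exact (mul_eq_zero.1 this).resolve_right hz
    have hg : g ≠ 0 := fun hg => hfg ⟨hf, hg⟩
    refine ⟨g / z, div_ne_zero hg hz, ?_, ?_⟩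
    · rw [hf]; ring
    · field_simp
  · have hf : f ≠ 0 := by
      intro hf
      apply hfg
      refine ⟨hf, ?_⟩
      have : g * x = 0 := by rw [← h, hf]; ring
      exact (mul_eq_zero.1 this).resolve_right hx
    refine ⟨f / x, div_ne_zero hf hx, ?_, ?_⟩
    · field_simp
    · rw [div_mul_eq_mul_div, h]; field_simp

lemma Rep.prop {c : K} {hg : Good c} {w : K} {hw : Cube w} {m n : ℤ} {f g : K[X]}
    (H : Rep hg hw m n f g) {x y : K} (h : y ^ 2 = x ^ 3 + c) :
    ∃ ρ : K, ρ ≠ 0 ∧ f.eval x = ρ * px (act hg hw m n (mkPt hg x y h)) ∧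
      g.eval x = ρ * pz (act hg hw m n (mkPt hg x y h)) :=
  prop_of_rel (H.rel x y h) (px_pz_ne hg _) (H.cop x)

lemma Rep.isCoprime {c : K} {hg : Good c} {w : K} {hw : Cube w} {m n : ℤ} {f g : K[X]}
    (H : Rep hg hw m n f g) : IsCoprime f g := by
  rw [Polynomial.isCoprime_iff_aeval_ne_zero_of_isAlgClosed K K]
  intro a
  have := H.cop a
  simp only [coe_aeval_eq_eval]
  tauto

lemma deg_mul_lt {p q : K[X]} {a b : ℕ} (hp : p.degree < (a : WithBot ℕ))
    (hq : q.degree ≤ (b : WithBot ℕ)) : (p * q).degree < ((a + b : ℕ) : WithBot ℕ) := by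
  by_cases hp0 : p = 0
  · subst hp0; simp
  by_cases hq0 : q = 0
  · subst hq0; simp
  rw [degree_mul]
  rw [degree_eq_natDegree hp0] at *
  rw [degree_eq_natDegree hq0] at *
  norm_cast at *
  omega

lemma nonvanish {c : K} (hg : Good c) {f₁ g₁ f₂ g₂ : K} (h₁ : ¬ (f₁ = 0 ∧ g₁ = 0))
    (h₂ : ¬ (f₂ = 0 ∧ g₂ = 0))
    (e0 : (f₁ * f₂) ^ 2 - 4 * c * (f₁ * g₂ + f₂ * g₁) * (g₁ * g₂) = 0)
    (e1 : 2 * (f₁ * g₂ + f₂ * g₁) * (f₁ * f₂) + 4 * c * (g₁ * g₂) ^ 2 = 0)
    (e2 : (f₁ * g₂ - f₂ * g₁) ^ 2 = 0) : False := by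
  have e2' : f₂ * g₁ = g₂ * f₁ := by
    have := pow_eq_zero_iff (two_ne_zero) |>.1 e2
    linear_combination -this
  obtain ⟨ρ, hρ, rfl, rfl⟩ := prop_of_rel (x := f₁) (z := g₁) e2' (by tauto) h₂
  have hc := hg.hc
  have h2 := hg.h2
  have h3 := hg.h3
  have hρ2 : ρ ^ 2 ≠ 0 := pow_ne_zero 2 hρ
  have k0 : f₁ ^ 4 - 8 * c * f₁ * g₁ ^ 3 = 0 := by
    apply mul_left_cancel₀ hρ2
    linear_combination e0
  have k1 : g₁ * (f₁ ^ 3 + c * g₁ ^ 3) = 0 := by
    have h4 : (4 : K) * ρ ^ 2 ≠ 0 := by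
      have : (4 : K) = 2 * 2 := by norm_num
      rw [this]
      exact mul_ne_zero (mul_ne_zero h2 h2) hρ2
    apply mul_left_cancel₀ h4
    linear_combination e1
  rcases mul_eq_zero.1 k1 with k | k
  · apply h₁
    subst k
    refine ⟨?_, rfl⟩
    have : f₁ ^ 4 = 0 := by linear_combination k0
    exact pow_eq_zero_iff (by norm_num) |>.1 this
  · have : (3 * 3 * c) * (f₁ * g₁ ^ 3) = 0 := by linear_combination f₁ * k - k0
    have h9 : (3 * 3 * c : K) ≠ 0 := mul_ne_zero (mul_ne_zero h3 h3) hc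
    have := (mul_eq_zero.1 this).resolve_left h9
    rcases mul_eq_zero.1 this with k' | k'
    · subst k'
      apply h₁
      refine ⟨rfl, ?_⟩
      have : c * g₁ ^ 3 = 0 := by linear_combination k
      have := (mul_eq_zero.1 this).resolve_left hc
      exact pow_eq_zero_iff (by norm_num) |>.1 this
    · have hg1 : g₁ = 0 := pow_eq_zero_iff (by norm_num) |>.1 k'
      subst hg1
      apply h₁
      refine ⟨?_, rfl⟩
      have : f₁ ^ 3 = 0 := by linear_combination k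
      exact pow_eq_zero_iff (by norm_num) |>.1 this

lemma Rep.step {c : K} {hg : Good c} {w : K} {hw : Cube w} {m n m' n' : ℤ}
    {f₁ g₁ f₂ g₂ f₀ g₀ : K[X]}
    (h1 : Rep hg hw m n f₁ g₁) (h2 : Rep hg hw m' n' f₂ g₂)
    (h0 : Rep hg hw (m - m') (n - n') f₀ g₀) :
    ∃ f g, Rep hg hw (m + m') (n + n') f g ∧
      f * f₀ = (f₁ * f₂) ^ 2 - 4 * C c * (f₁ * g₂ + f₂ * g₁) * (g₁ * g₂) ∧
      f * g₀ + f₀ * g = 2 * (f₁ * g₂ + f₂ * g₁) * (f₁ * f₂) + 4 * C c * (g₁ * g₂) ^ 2 ∧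
      g * g₀ = (f₁ * g₂ - f₂ * g₁) ^ 2 := by
  set v0 : K[X] := (f₁ * f₂) ^ 2 - 4 * C c * (f₁ * g₂ + f₂ * g₁) * (g₁ * g₂) with hv0
  set v1 : K[X] := 2 * (f₁ * g₂ + f₂ * g₁) * (f₁ * f₂) + 4 * C c * (g₁ * g₂) ^ 2 with hv1
  set v2 : K[X] := (f₁ * g₂ - f₂ * g₁) ^ 2 with hv2
  -- pointwise data
  have point : ∀ x y (h : y ^ 2 = x ^ 3 + c), ∃ κ : K, κ ≠ 0 ∧
      v0.eval x = κ * (px (act hg hw (m + m') (n + n') (mkPt hg x y h)) *
        px (act hg hw (m - m') (n - n') (mkPt hg x y h))) ∧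
      v1.eval x = κ * (px (act hg hw (m + m') (n + n') (mkPt hg x y h)) *
        pz (act hg hw (m - m') (n - n') (mkPt hg x y h)) +
        px (act hg hw (m - m') (n - n') (mkPt hg x y h)) *
        pz (act hg hw (m + m') (n + n') (mkPt hg x y h))) ∧
      v2.eval x = κ * (pz (act hg hw (m + m') (n + n') (mkPt hg x y h)) *
        pz (act hg hw (m - m') (n - n') (mkPt hg x y h))) := by
    intro x y h
    obtain ⟨ρ₁, hρ₁, e1, e1'⟩ := h1.prop h
    obtain ⟨ρ₂, hρ₂, e2, e2'⟩ := h2.prop h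
    obtain ⟨μ, hμ, a0, a1, a2⟩ := addsub hg (act hg hw m n (mkPt hg x y h))
      (act hg hw m' n' (mkPt hg x y h))
    rw [act_add_act, act_sub_act] at a0 a1 a2
    refine ⟨(ρ₁ * ρ₂) ^ 2 * μ, mul_ne_zero (pow_ne_zero 2 (mul_ne_zero hρ₁ hρ₂)) hμ, ?_, ?_, ?_⟩
    · rw [hv0]
      simp only [eval_sub, eval_mul, eval_add, eval_pow, eval_C, e1, e1', e2, e2', eval_ofNat]
      linear_combination (ρ₁ * ρ₂) ^ 2 * a0
    · rw [hv1]
      simp only [eval_sub, eval_mul, eval_add, eval_pow, eval_C, e1, e1', e2, e2', eval_ofNat]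
      linear_combination (ρ₁ * ρ₂) ^ 2 * a1
    · rw [hv2]
      simp only [eval_sub, eval_mul, eval_add, eval_pow, eval_C, e1, e1', e2, e2', eval_ofNat]
      linear_combination (ρ₁ * ρ₂) ^ 2 * a2
  have hsq : ∀ x : K, ∃ y, y ^ 2 = x ^ 3 + c := fun x =>
    IsAlgClosed.exists_pow_nat_eq (x ^ 3 + c) (by norm_num)
  have hinf : Infinite K := IsAlgClosed.instInfinite
  -- the polynomial identity
  have ident : v2 * f₀ ^ 2 - v1 * f₀ * g₀ + v0 * g₀ ^ 2 = 0 := by
    apply Polynomial.funext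
    intro x
    obtain ⟨y, h⟩ := hsq x
    obtain ⟨κ, hκ, a0, a1, a2⟩ := point x y h
    obtain ⟨ρ₀, hρ₀, e0, e0'⟩ := h0.prop h
    simp only [eval_sub, eval_mul, eval_add, eval_pow, a0, a1, a2, e0, e0', eval_zero]
    ring
  have cop0 := h0.isCoprime
  have f0ne : f₀ ≠ 0 := h0.monic.ne_zero
  have dv0 : f₀ ∣ v0 := by
    have : f₀ ∣ v0 * g₀ ^ 2 := ⟨v1 * g₀ - v2 * f₀, by linear_combination ident⟩
    exact (cop0.pow_right (n := 2)).dvd_of_dvd_mul_right this
  obtain ⟨f, hf⟩ := dv0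
  have ident2 : v2 * f₀ = g₀ * (v1 - f * g₀) := by
    apply mul_left_cancel₀ f0ne
    rw [hf] at ident
    linear_combination ident
  have dv1 : f₀ ∣ v1 - f * g₀ := by
    have : f₀ ∣ g₀ * (v1 - f * g₀) := ⟨v2, by rw [← ident2]; ring⟩
    exact cop0.dvd_of_dvd_mul_left this
  obtain ⟨g, hgg⟩ := dv1
  have ident3 : v2 = g₀ * g := by
    apply mul_left_cancel₀ f0ne
    rw [hgg] at ident2
    linear_combination ident2
  -- degrees
  set d₁ := f₁.natDegree with hd₁
  set d₂ := f₂.natDegree with hd₂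
  set d₀ := f₀.natDegree with hd₀
  have D1 : f₁.degree = (d₁ : WithBot ℕ) := degree_eq_natDegree h1.monic.ne_zero
  have D2 : f₂.degree = (d₂ : WithBot ℕ) := degree_eq_natDegree h2.monic.ne_zero
  have D0 : f₀.degree = (d₀ : WithBot ℕ) := degree_eq_natDegree h0.monic.ne_zero
  have G1 : g₁.degree < (d₁ : WithBot ℕ) := D1 ▸ h1.lt
  have G2 : g₂.degree < (d₂ : WithBot ℕ) := D2 ▸ h2.lt
  have G0 : g₀.degree < (d₀ : WithBot ℕ) := D0 ▸ h0.lt
  have T : (f₁ * g₂ + f₂ * g₁).degree < ((d₁ + d₂ : ℕ) : WithBot ℕ) := by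
    refine lt_of_le_of_lt (degree_add_le _ _) (max_lt ?_ ?_)
    · rw [mul_comm, add_comm]
      exact deg_mul_lt G2 D1.le
    · rw [mul_comm]
      exact deg_mul_lt G1 D2.le
  have U : (g₁ * g₂).degree < ((d₁ + d₂ : ℕ) : WithBot ℕ) := deg_mul_lt G1 G2.le
  have c4 : (4 * C c : K[X]).degree ≤ ((0 : ℕ) : WithBot ℕ) := by
    have : (4 * C c : K[X]) = C (4 * c) := by rw [C_mul, map_ofNat]
    rw [this]
    exact degree_C_le
  have c2 : (2 : K[X]).degree ≤ ((0 : ℕ) : WithBot ℕ) := by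
    have : (2 : K[X]) = C (2 : K) := by rw [map_ofNat]
    rw [this]
    exact degree_C_le
  have mon12 : (f₁ * f₂).Monic := h1.monic.mul h2.monic
  have nd12 : (f₁ * f₂).natDegree = d₁ + d₂ := h1.monic.natDegree_mul h2.monic
  have S : (f₁ * f₂).degree = ((d₁ + d₂ : ℕ) : WithBot ℕ) := by
    rw [degree_eq_natDegree mon12.ne_zero, nd12]
  have monsq : ((f₁ * f₂) ^ 2).Monic := mon12.pow 2
  have ndsq : ((f₁ * f₂) ^ 2).natDegree = (d₁ + d₂) + (d₁ + d₂) := by
    rw [mon12.natDegree_pow, nd12]; ring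
  have Ssq : ((f₁ * f₂) ^ 2).degree = (((d₁ + d₂) + (d₁ + d₂) : ℕ) : WithBot ℕ) := by
    rw [degree_eq_natDegree monsq.ne_zero, ndsq]
  have R0 : (4 * C c * (f₁ * g₂ + f₂ * g₁) * (g₁ * g₂)).degree <
      (((d₁ + d₂) + (d₁ + d₂) : ℕ) : WithBot ℕ) := by
    have a := deg_mul_lt T c4
    rw [mul_comm, add_zero] at a
    exact deg_mul_lt a U.le
  have mv0 : v0.Monic := monsq.sub_of_left (by rw [Ssq]; exact R0)
  have ndv0 : v0.natDegree = (d₁ + d₂) + (d₁ + d₂) := by
    rw [← ndsq]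
    apply natDegree_eq_of_degree_eq
    rw [hv0]
    exact degree_sub_eq_left_of_degree_lt (by rw [Ssq]; exact R0)
  have monf : f.Monic := h0.monic.of_mul_monic_left (by rw [← hf]; exact mv0)
  have ndf : d₀ + f.natDegree = (d₁ + d₂) + (d₁ + d₂) := by
    rw [← ndv0, hf, h0.monic.natDegree_mul monf]
  have Df : f.degree = (f.natDegree : WithBot ℕ) := degree_eq_natDegree monf.ne_zero
  have R1 : v1.degree < (((d₁ + d₂) + (d₁ + d₂) : ℕ) : WithBot ℕ) := by
    rw [hv1]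
    refine lt_of_le_of_lt (degree_add_le _ _) (max_lt ?_ ?_)
    · have a := deg_mul_lt T c2
      rw [mul_comm, add_zero] at a
      exact deg_mul_lt a S.le
    · have a := deg_mul_lt (deg_mul_lt U U.le) c4
      rw [mul_comm, add_zero, ← sq] at a
      exact a
  have R2 : (f * g₀).degree < (((d₁ + d₂) + (d₁ + d₂) : ℕ) : WithBot ℕ) := by
    rw [← ndf, mul_comm]
    exact deg_mul_lt G0 Df.le
  have R3 : (f₀ * g).degree < (((d₁ + d₂) + (d₁ + d₂) : ℕ) : WithBot ℕ) := by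
    rw [← hgg]
    exact lt_of_le_of_lt (degree_sub_le _ _) (max_lt R1 R2)
  have ltg : g.degree < f.degree := by
    by_contra hcon
    push Not at hcon
    rw [degree_mul, D0, ← ndf] at R3
    have : ((d₀ + f.natDegree : ℕ) : WithBot ℕ) ≤ (d₀ : WithBot ℕ) + g.degree := by
      push_cast
      rw [← Df]
      exact add_le_add_right hcon _
    exact absurd R3 (not_lt.2 this)
  refine ⟨f, g, ⟨monf, ?_, ltg, ?_, ?_⟩, by rw [hf]; ring, by linear_combination -hgg, by
    rw [ident3]; ring⟩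
  · have e1 := h1.deg
    have e2 := h2.deg
    have e0 := h0.deg
    have : (f.natDegree : ℤ) = (d₁ + d₂) + (d₁ + d₂) - d₀ := by
      have : ((d₀ + f.natDegree : ℕ) : ℤ) = (((d₁ + d₂) + (d₁ + d₂) : ℕ) : ℤ) := by rw [ndf]
      push_cast at this
      linarith
    rw [this]
    linear_combination 2 * e1 + 2 * e2 - e0
  · rintro x ⟨hf0, hg0⟩
    apply nonvanish hg (h1.cop x) (h2.cop x)
    · have : v0.eval x = 0 := by rw [hf, eval_mul, hf0, mul_zero]
      rw [hv0] at this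
      simpa only [eval_sub, eval_mul, eval_add, eval_pow, eval_C, eval_ofNat] using this
    · have : v1.eval x = 0 := by
        have e : v1 = f₀ * g + f * g₀ := by linear_combination hgg
        rw [e, eval_add, eval_mul, eval_mul, hf0, hg0]; ring
      rw [hv1] at this
      simpa only [eval_sub, eval_mul, eval_add, eval_pow, eval_C, eval_ofNat] using this
    · have : v2.eval x = 0 := by rw [ident3, eval_mul, hg0, mul_zero]
      rw [hv2] at this
      simpa only [eval_sub, eval_mul, eval_add, eval_pow, eval_C, eval_ofNat] using this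
  · intro x y h
    obtain ⟨κ, hκ, a0, a1, a2⟩ := point x y h
    obtain ⟨ρ₀, hρ₀, e0, e0'⟩ := h0.prop h
    set X₁ := px (act hg hw (m + m') (n + n') (mkPt hg x y h))
    set Z₁ := pz (act hg hw (m + m') (n + n') (mkPt hg x y h))
    set X₀ := px (act hg hw (m - m') (n - n') (mkPt hg x y h))
    set Z₀ := pz (act hg hw (m - m') (n - n') (mkPt hg x y h))
    have b0 : (ρ₀ * f.eval x - κ * X₁) * X₀ = 0 := by
      have : v0.eval x = f₀.eval x * f.eval x := by rw [hf, eval_mul]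
      rw [a0, e0] at this
      linear_combination -this
    have b1 : (ρ₀ * f.eval x - κ * X₁) * Z₀ + (ρ₀ * g.eval x - κ * Z₁) * X₀ = 0 := by
      have : v1.eval x = f₀.eval x * g.eval x + f.eval x * g₀.eval x := by
        have e : v1 = f₀ * g + f * g₀ := by linear_combination hgg
        rw [e, eval_add, eval_mul, eval_mul]
      rw [a1, e0, e0'] at this
      linear_combination -this
    have b2 : (ρ₀ * g.eval x - κ * Z₁) * Z₀ = 0 := by
      have : v2.eval x = g₀.eval x * g.eval x := by rw [ident3, eval_mul]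
      rw [a2, e0'] at this
      linear_combination -this
    have hne : X₀ ≠ 0 ∨ Z₀ ≠ 0 := px_pz_ne hg _
    have hA : ρ₀ * f.eval x - κ * X₁ = 0 ∧ ρ₀ * g.eval x - κ * Z₁ = 0 := by
      rcases hne with h' | h'
      · have hA := (mul_eq_zero.1 b0).resolve_right h'
        rw [hA, zero_mul, zero_add] at b1
        exact ⟨hA, (mul_eq_zero.1 b1).resolve_right h'⟩
      · have hB := (mul_eq_zero.1 b2).resolve_right h'
        rw [hB, zero_mul, add_zero] at b1
        exact ⟨(mul_eq_zero.1 b1).resolve_right h', hB⟩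
    apply mul_left_cancel₀ hρ₀
    linear_combination Z₁ * hA.1 - X₁ * hA.2

end Pool.Agent.Work.MP_35f602_nt
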