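import Pool.Agent.Work.MP_35f602_nt.Curve

set_option autoImplicit false
set_option linter.unusedSectionVars false
set_option linter.unusedSimpArgs false

namespace Pool.Agent.Work.MP_35f602_nt

open WeierstrassCurve WeierstrassCurve.Affine

variable {K : Type*} [Field K] [DecidableEq K]

lemma secant_eqn {c x₁ y₁ x₂ y₂ l x₃ y₃ : K}
    (h₁ : y₁ ^ 2 = x₁ ^ 3 + c) (h₂ : y₂ ^ 2 = x₂ ^ 3 + c) (hx : x₁ ≠ x₂)
    (hl : l * (x₁ - x₂) = y₁ - y₂) (hx₃ : x₃ = l ^ 2 - x₁ - x₂)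
    (hy₃ : y₃ = -(l * (x₃ - x₁) + y₁)) : y₃ ^ 2 = x₃ ^ 3 + c := by
  have hx' : x₁ - x₂ ≠ 0 := sub_ne_zero.2 hx
  apply mul_left_cancel₀ hx'
  subst hy₃
  have e1 : y₂ = l * (x₂ - x₁) + y₁ := by linear_combination hl
  subst e1
  linear_combination (x₃ - x₂) * h₁ - (x₃ - x₁) * h₂ - (x₁ - x₂) * (x₃ - x₁) * (x₃ - x₂) * hx₃

lemma tangent_eqn {c x y l x₃ y₃ : K} (h2 : (2 : K) ≠ 0)
    (h : y ^ 2 = x ^ 3 + c) (hy : y ≠ 0)
    (hl : l * (2 * y) = 3 * x ^ 2) (hx₃ : x₃ = l ^ 2 - x - x)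
    (hy₃ : y₃ = -(l * (x₃ - x) + y)) : y₃ ^ 2 = x₃ ^ 3 + c := by
  subst hy₃
  subst hx₃
  linear_combination h + (l ^ 2 - 3 * x) * hl

/-- The scaling map `(x, y) ↦ (u² x, u³ y)` as a function. -/
noncomputable def scaleFun {c c' : K} (hg' : Good c') (u : K) (hcc : c' = u ^ 6 * c) :
    (E c).Point → (E c').Point
  | .zero => 0
  | .some x y h => mkPt hg' (u ^ 2 * x) (u ^ 3 * y) (by
      have := eqn_of_ns h
      rw [hcc]; linear_combination u ^ 6 * this)

lemma scaleFun_zero {c c' : K} (hg' : Good c') (u : K) (hcc : c' = u ^ 6 * c) :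
    scaleFun hg' u hcc 0 = 0 := rfl

lemma scaleFun_mkPt {c c' : K} (hg : Good c) (hg' : Good c') (u : K) (hcc : c' = u ^ 6 * c)
    {x y : K} (h : y ^ 2 = x ^ 3 + c) (h' : (u ^ 3 * y) ^ 2 = (u ^ 2 * x) ^ 3 + c') :
    scaleFun hg' u hcc (mkPt hg x y h) = mkPt hg' (u ^ 2 * x) (u ^ 3 * y) h' := rfl

/-- The scaling map as a group homomorphism. -/
noncomputable def scale {c c' : K} (hg : Good c) (hg' : Good c') (u : K) (hu : u ≠ 0)
    (hcc : c' = u ^ 6 * c) : (E c).Point →+ (E c').Point where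
  toFun := scaleFun hg' u hcc
  map_zero' := rfl
  map_add' := by
    intro P Q
    by_cases hP : P = 0
    · subst hP; rw [scaleFun_zero, zero_add, zero_add]
    by_cases hQ : Q = 0
    · subst hQ; rw [scaleFun_zero, add_zero, add_zero]
    obtain ⟨x₁, y₁, h₁, rfl⟩ := exists_mkPt hg P hP
    obtain ⟨x₂, y₂, h₂, rfl⟩ := exists_mkPt hg Q hQ
    have k₁ : (u ^ 3 * y₁) ^ 2 = (u ^ 2 * x₁) ^ 3 + c' := by
      rw [hcc]; linear_combination u ^ 6 * h₁
    have k₂ : (u ^ 3 * y₂) ^ 2 = (u ^ 2 * x₂) ^ 3 + c' := by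
      rw [hcc]; linear_combination u ^ 6 * h₂
    rw [scaleFun_mkPt hg hg' u hcc h₁ k₁, scaleFun_mkPt hg hg' u hcc h₂ k₂]
    by_cases hx : x₁ = x₂
    · subst hx
      by_cases hy : y₂ = -y₁
      · rw [mkPt_add_neg hg h₁ h₂ hy, scaleFun_zero, mkPt_add_neg hg' k₁ k₂ (by rw [hy]; ring)]
      · have hyy : y₁ = y₂ := by
          have : (y₁ - y₂) * (y₁ + y₂) = 0 := by linear_combination h₁ - h₂
          rcases mul_eq_zero.1 this with h | h
          · linear_combination h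
          · exact absurd (by linear_combination h) hy
        subst hyy
        have hy0 : y₁ ≠ 0 := by
          rintro rfl
          exact hy (by ring)
        have hl : (3 * x₁ ^ 2 / (2 * y₁)) * (2 * y₁) = 3 * x₁ ^ 2 := by
          have := hg.h2
          field_simp
        set l := 3 * x₁ ^ 2 / (2 * y₁) with hl0
        have h₃ := tangent_eqn hg.h2 h₁ hy0 hl rfl rfl
        have k₃ : (u ^ 3 * -(l * (l ^ 2 - x₁ - x₁ - x₁) + y₁)) ^ 2 =
            (u ^ 2 * (l ^ 2 - x₁ - x₁)) ^ 3 + c' := by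
          rw [hcc]; linear_combination u ^ 6 * h₃
        rw [mkPt_double hg h₁ hy0 hl rfl rfl h₃, scaleFun_mkPt hg hg' u hcc h₃ k₃,
          mkPt_double hg' (l := u * l) k₁ (mul_ne_zero (pow_ne_zero 3 hu) hy0)
            (by linear_combination u ^ 4 * hl) (by ring) (by ring) k₃]
    · have hx' : x₁ - x₂ ≠ 0 := sub_ne_zero.2 hx
      have hl : ((y₁ - y₂) / (x₁ - x₂)) * (x₁ - x₂) = y₁ - y₂ := by field_simp
      set l := (y₁ - y₂) / (x₁ - x₂) with hl0
      have h₃ := secant_eqn h₁ h₂ hx hl rfl rfl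
      have k₃ : (u ^ 3 * -(l * (l ^ 2 - x₁ - x₂ - x₁) + y₁)) ^ 2 =
            (u ^ 2 * (l ^ 2 - x₁ - x₂)) ^ 3 + c' := by
          rw [hcc]; linear_combination u ^ 6 * h₃
      have hux : u ^ 2 * x₁ ≠ u ^ 2 * x₂ := by
        intro h
        exact hx (mul_left_cancel₀ (pow_ne_zero 2 hu) h)
      rw [mkPt_add hg h₁ h₂ hx hl rfl rfl h₃, scaleFun_mkPt hg hg' u hcc h₃ k₃,
          mkPt_add hg' (l := u * l) k₁ k₂ hux
            (by linear_combination u ^ 3 * hl) (by ring) (by ring) k₃]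

lemma scale_mkPt {c c' : K} (hg : Good c) (hg' : Good c') (u : K) (hu : u ≠ 0)
    (hcc : c' = u ^ 6 * c)
    {x y : K} (h : y ^ 2 = x ^ 3 + c) (h' : (u ^ 3 * y) ^ 2 = (u ^ 2 * x) ^ 3 + c') :
    scale hg hg' u hu hcc (mkPt hg x y h) = mkPt hg' (u ^ 2 * x) (u ^ 3 * y) h' := rfl

/-- data: a primitive cube root of unity `w`. -/
structure Cube (w : K) : Prop where
  hw : w ^ 2 + w + 1 = 0

lemma Cube.cube {w : K} (h : Cube w) : w ^ 3 = 1 := by
  linear_combination (w - 1) * h.hw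

lemma Cube.ne_zero {w : K} (h : Cube w) : w ≠ 0 := by
  rintro rfl
  have := h.hw
  simp at this

/-- The automorphism `(x, y) ↦ (w x, y)`. -/
noncomputable def W {c : K} (hg : Good c) {w : K} (hw : Cube w) : (E c).Point →+ (E c).Point :=
  scale hg hg (w ^ 2) (pow_ne_zero 2 hw.ne_zero) (by
    have := hw.cube
    linear_combination (-c * (w ^ 9 + w ^ 6 + w ^ 3 + 1)) * this)

lemma W_mkPt {c : K} (hg : Good c) {w : K} (hw : Cube w) {x y : K} (h : y ^ 2 = x ^ 3 + c)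
    (h' : y ^ 2 = (w * x) ^ 3 + c) :
    W hg hw (mkPt hg x y h) = mkPt hg (w * x) y h' := by
  have hc := hw.cube
  have k : ((w ^ 2) ^ 3 * y) ^ 2 = ((w ^ 2) ^ 2 * x) ^ 3 + c := by
    linear_combination h + (y ^ 2 - x ^ 3) * (w ^ 9 + w ^ 6 + w ^ 3 + 1) * hc
  unfold W
  rw [scale_mkPt hg hg _ _ _ h k, mkPt_eq_iff]
  constructor
  · linear_combination w * x * hc
  · linear_combination y * (w ^ 3 + 1) * hc

lemma W_eqn {c : K} {w : K} (hw : Cube w) {x y : K} (h : y ^ 2 = x ^ 3 + c) :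
    y ^ 2 = (w * x) ^ 3 + c := by
  linear_combination h - x ^ 3 * hw.cube

/-- `1 + w + w² = 0` on the curve. -/
lemma W_rel {c : K} (hg : Good c) {w : K} (hw : Cube w) (P : (E c).Point) :
    P + W hg hw P + W hg hw (W hg hw P) = 0 := by
  by_cases hP : P = 0
  · subst hP; simp
  obtain ⟨x, y, h, rfl⟩ := exists_mkPt hg P hP
  have k1 := W_eqn hw h
  have k2 := W_eqn hw k1
  rw [W_mkPt hg hw h k1, W_mkPt hg hw k1 k2]
  have hc := hw.cube
  have h3 := hg.h3
  by_cases hx : x = 0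
  · subst hx
    have hy0 : y ≠ 0 := by
      rintro rfl
      apply hg.hc
      linear_combination -h
    have k3 : (-y) ^ 2 = (0 : K) ^ 3 + c := by linear_combination h
    have e1 : mkPt hg (w * 0) y k1 = mkPt hg 0 y h := by rw [mkPt_eq_iff]; simp
    have e2 : mkPt hg (w * (w * 0)) y k2 = mkPt hg 0 y h := by rw [mkPt_eq_iff]; simp
    rw [e1, e2, mkPt_double hg (l := 0) h hy0 (by ring) (x₃ := 0) (y₃ := -y) (by ring) (by ring) k3]
    rw [add_comm]
    exact mkPt_add_neg hg h k3 rfl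
  · have hne : x ≠ w * x := by
      intro h'
      have : (1 - w) * x = 0 := by linear_combination h'
      rcases mul_eq_zero.1 this with h'' | h''
      · apply h3
        have : w = 1 := by linear_combination -h''
        subst this
        linear_combination hw.hw
      · exact hx h''
    have k3 : (-y) ^ 2 = (w * (w * x)) ^ 3 + c := by linear_combination k2
    rw [mkPt_add hg (l := 0) h k1 hne (by ring) (x₃ := w * (w * x)) (y₃ := -y)
      (by linear_combination x * hw.hw) (by ring) k3, add_comm]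
    exact mkPt_add_neg hg k2 k3 rfl

end Pool.Agent.Work.MP_35f602_nt
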