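import Pool.Agent.Work.MP_35f602_nt.Points

set_option autoImplicit false
set_option linter.unusedSectionVars false
set_option linter.unusedSimpArgs false
set_option linter.unusedVariables false

namespace Pool.Agent.Work.MP_35f602_nt

open WeierstrassCurve WeierstrassCurve.Affine Polynomial

variable {K : Type*} [Field K] [DecidableEq K] [IsAlgClosed K]

lemma Setup.E4 {w i e c : K} (S : Setup w i e c) : (1 + 2 * w) * e = 1 + w := by
  apply mul_left_cancel₀ S.h3
  linear_combination (1 + 2 * w) * S.he - 2 * S.hw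

/-- data for `Q` -/
structure QData (w z n e u₁ u₂ u₃ : K) : Prop where
  R : URel w u₁ u₂ u₃
  hx : u₂ ^ 2 + e = hX e z (w * n) (z * w ^ 2 * n)
  hy : u₁ * u₂ * u₃ = hY z (w * n) (z * w ^ 2 * n)

section
variable {w z n e c : K} (S : Setup w (z ^ 2) e c) (hz : z ^ 4 = -1)
  (hn : n ^ 2 = w ^ 2 + z ^ 2 * w) {u₁ u₂ u₃ : K} (D : QData w z n e u₁ u₂ u₃)

lemma Q_double : hP S D.R + hP S D.R = hP S (RA S.hw hz hn) := by
  rw [hP_double]
  unfold hP
  rw [mkPt_eq_iff]
  exact ⟨D.hx, D.hy⟩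

lemma T1_double : mkPt S.good (w * e) 0 (T1_eqn S) + mkPt S.good (w * e) 0 (T1_eqn S) = 0 :=
  mkPt_add_neg S.good _ _ (by ring)

lemma V_double : hP S (RV S) + hP S (RV S) = mkPt S.good e 0 (T2_eqn S) := by
  rw [hP_double, mkPt_eq_iff]
  constructor
  · ring
  · ring

lemma T2_double : mkPt S.good e 0 (T2_eqn S) + mkPt S.good e 0 (T2_eqn S) = 0 :=
  mkPt_add_neg S.good _ _ (by ring)

end

section
variable {q : ℕ} [Fact q.Prime] [CharP K q] {w z n e c : K} (S : Setup w (z ^ 2) e c)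
  (hz : z ^ 4 = -1)
  (hn : n ^ 2 = w ^ 2 + z ^ 2 * w) {u₁ u₂ u₃ : K} (D : QData w z n e u₁ u₂ u₃)
  (hwq : w ^ q = w) (heq : e ^ q = e)
  {a' b' : ℤ} (hF : FrobAct q S.good S.cube (2 * (1 + 4 * a') + 3 * (1 + 16 * b'))
    (6 * (1 + 16 * b')))

include hz hn hwq heq hF D in
lemma level8 : (z * (w * n)) ^ q = -(-z * (w * n) * ((w * n) ^ 2 + e + 2 * (w * e)) *
    ((w * n) ^ 2 + e + 2 * e)) / (3 * ((w * n) ^ 2 + e) ^ 2) ∧ (w * n) ^ 2 + e ≠ 0 := by
  set A := RA S.hw hz hn with hA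
  have hQ := Q_double S hz hn D
  have hU := U_double S hz hn
  have hV4 := V4_double S hz
  have hT1 := T1_double S
  have hV := V_double S
  have hT2 := T2_double S
  have hVV := V'_add_V4 S hz
  have hf := act_formula S.good S.cube hQ hU hV4 hT1 hVV a' b'
  have hU2 := hP_add_T2 S A
  have hact : act S.good S.cube (2 * (1 + 4 * a') + 3 * (1 + 16 * b')) (6 * (1 + 16 * b'))
      (hP S A) = W S.good S.cube (hP S A.t2) - W S.good S.cube (W S.good S.cube (hP S A.t2)) := by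
    rw [← hU2, ← hQ, act_add, hf, ← hV]
    have e0 : W S.good S.cube (a' • mkPt S.good (w * e) 0 (T1_eqn S)) +
        W S.good S.cube (a' • mkPt S.good (w * e) 0 (T1_eqn S)) = 0 := by
      rw [← map_add, ← smul_add, hT1, smul_zero, map_zero]
    have e1 : W S.good S.cube (W S.good S.cube (a' • mkPt S.good (w * e) 0 (T1_eqn S))) +
        W S.good S.cube (W S.good S.cube (a' • mkPt S.good (w * e) 0 (T1_eqn S))) = 0 := by
      rw [← map_add, e0, map_zero]
    simp only [map_add]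
    have e0' := eq_neg_of_add_eq_zero_left e0
    have e1' := eq_neg_of_add_eq_zero_left e1
    set α := W S.good S.cube (a' • mkPt S.good (w * e) 0 (T1_eqn S))
    set β := W S.good S.cube α
    set p := W S.good S.cube (hP S D.R)
    set p' := W S.good S.cube p
    set v := W S.good S.cube (hP S (RV S))
    set v' := W S.good S.cube v
    have : p + α + v - (p' + β + v') + (p + α + v - (p' + β + v')) =
      p + p + (v + v) - (p' + p' + (v' + v')) + ((α + α) - (β + β)) := by abel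
    rw [this, e0, e1]; abel
  have V4ne : hP S (RV4 S.hw hz) ≠ 0 := mkPt_ne_zero S.good _
  have h16 : (16 : ℤ) • hP S A.t2 = 0 := by
    rw [← hU2]
    have : (16 : ℤ) • (hP S A + mkPt S.good e 0 (T2_eqn S)) =
        (4 : ℤ) • (((hP S A + hP S A) + (hP S A + hP S A))) +
          (8 : ℤ) • (mkPt S.good e 0 (T2_eqn S) + mkPt S.good e 0 (T2_eqn S)) := by module
    rw [this, hU, hV4, hT2, smul_zero, add_zero]
    have : (4 : ℤ) • mkPt S.good (w * e) 0 (T1_eqn S) = (2 : ℤ) •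
        (mkPt S.good (w * e) 0 (T1_eqn S) + mkPt S.good (w * e) 0 (T1_eqn S)) := by module
    rw [this, hT1, smul_zero]
  have h2 : (2 : ℤ) • hP S A.t2 ≠ 0 := by
    rw [← hU2]
    have : (2 : ℤ) • (hP S A + mkPt S.good e 0 (T2_eqn S)) =
        (hP S A + hP S A) + (mkPt S.good e 0 (T2_eqn S) + mkPt S.good e 0 (T2_eqn S)) := by module
    rw [this, hU, hT2, add_zero]
    exact V4ne
  have := transfer S hwq heq hF A A.t2 hact h16 h2
  exact ⟨this.2, this.1⟩

include hz hn hwq heq hF D in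
lemma level8' (hzq : z ^ q = -z ^ 3) : n ^ q * n = -z ^ 2 := by
  obtain ⟨h, hX0⟩ := level8 S hz hn D hwq heq hF
  have h2 := S.h2
  have h3 := S.h3
  have hw := S.hw
  have he := S.he
  have hwne := S.cube.ne_zero
  have hzne : z ≠ 0 := by
    rintro rfl
    simp at hz
  rw [mul_pow, mul_pow, hzq, hwq] at h
  set N := n ^ q with hN
  set X := (w * n) ^ 2 + e with hXdef
  have k1 : 3 * X = 2 * w + 1 + 3 * z ^ 2 := by
    rw [hXdef]
    linear_combination 3 * w ^ 2 * hn + he + (3 * z ^ 2 * (w - 1) + 3 * w * (w - 1)) * hw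
  have k2 : X + 2 * (w * e) = 2 * w + 1 + z ^ 2 := by
    rw [hXdef]
    linear_combination w ^ 2 * hn + S.E4 + (z ^ 2 * (w - 1) + w * (w - 1)) * hw
  have k3 : X + 2 * e = 1 + z ^ 2 := by
    rw [hXdef]
    linear_combination w ^ 2 * hn + he + (z ^ 2 * (w - 1) + w * (w - 1)) * hw
  rw [k2, k3, eq_div_iff (mul_ne_zero h3 (pow_ne_zero 2 hX0))] at h
  -- multiply by 3 and use k1
  have h' : z * w * (3 * (2 * z ^ 2 * N * (2 - z ^ 2 * (2 * w + 1)))) =
      z * w * (3 * (n * (2 * w + 1 + z ^ 2) * (1 + z ^ 2))) := by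
    have k1sq : (3 * X) ^ 2 = 6 * (z ^ 2 * (2 * w + 1) - 2) := by
      rw [k1]
      linear_combination 4 * hw + 9 * hz
    linear_combination 3 * h + z ^ 3 * w * N * k1sq
  have h'' := mul_left_cancel₀ h3 (mul_left_cancel₀ (mul_ne_zero hzne hwne) h')
  have h4 : 2 * (z ^ 2 * (N * n)) = 2 * 1 := by
    have t1 : (2 - z ^ 2 * (2 * w + 1)) * (z ^ 2 * (2 * w + 1) + 2) = 1 := by
      linear_combination -4 * z ^ 4 * hw + 3 * hz
    have t2 : n ^ 2 * ((2 * w + 1 + z ^ 2) * (1 + z ^ 2) * (z ^ 2 * (2 * w + 1) + 2)) = 2 := by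
      rw [hn]
      linear_combination (2 * z ^ 8 + 6 * w * z ^ 6 + 4 * w ^ 2 * z ^ 4 + 7 * z ^ 6 + 10 * w * z ^ 4 +
        4 * w ^ 2 * z ^ 2 + 12 * z ^ 4 + 4 * w * z ^ 2 + 7 * z ^ 2 + 8 * w + 8) * hw +
        (-w * z ^ 4 - 6 * w ^ 2 * z ^ 2 - 2 * z ^ 4 - 9 * w * z ^ 2 - 4 * w ^ 3 - 14 * w ^ 2 -
        7 * z ^ 2 - 16 * w - 10) * hz
    calc 2 * (z ^ 2 * (N * n)) = (2 * z ^ 2 * N * (2 - z ^ 2 * (2 * w + 1))) * n *
          (z ^ 2 * (2 * w + 1) + 2) := by linear_combination -2 * z ^ 2 * N * n * t1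
      _ = 2 * 1 := by rw [h'']; linear_combination t2
  have h5 : z ^ 2 * (N * n) = 1 := mul_left_cancel₀ h2 h4
  linear_combination -z ^ 2 * h5 + N * n * hz

end

end Pool.Agent.Work.MP_35f602_nt
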