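import Pool.Agent.Work.MP_35f602_nt.Half

set_option autoImplicit false
set_option linter.unusedSectionVars false
set_option linter.unusedSimpArgs false
set_option linter.unusedVariables false

namespace Pool.Agent.Work.MP_35f602_nt

open WeierstrassCurve WeierstrassCurve.Affine Polynomial

variable {K : Type*} [Field K]

section
variable {w i e c : K} (S : Setup w i e c)
include S

lemma kappa_sq : (i * w ^ 2) ^ 2 = -w := by
  have h1 := S.hi
  have h2 : w ^ 3 = 1 := by linear_combination (w - 1) * S.hw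
  linear_combination w ^ 4 * h1 - w * h2

/-- square roots for `V'` -/
lemma RV : URel w (-(i * w ^ 2)) 0 1 :=
  ⟨by rw [neg_sq, kappa_sq S]; ring, by ring⟩

end

section
variable {w i e c : K} (S : Setup w i e c) {u₁ u₂ u₃ : K} (R : URel w u₁ u₂ u₃)
include S R

/-- square roots for `P + V'` -/
lemma Rshift (hu : u₂ ≠ 0) :
    URel w (-(i * w ^ 2 * u₃ / u₂)) (i * w ^ 2 / u₂) (u₁ / u₂) := by
  have hk := kappa_sq S
  constructor
  · field_simp
    have e1 := R.r3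
    linear_combination (u₃ ^ 2 - 1) * hk - w * e1
  · field_simp
    linear_combination R.r1 - hk

end

section points
variable [DecidableEq K]
variable {w i e c : K} (S : Setup w i e c) {u₁ u₂ u₃ : K} (R : URel w u₁ u₂ u₃)

lemma add_V (hu : u₂ ≠ 0) (hne : hX e u₁ u₂ u₃ ≠ hX e (-(i * w ^ 2)) 0 1) :
    hP S R + hP S (RV S) = hP S (Rshift S R hu) := by
  unfold hP
  have h2 := S.h2
  have h3 := S.h3
  set k := i * w ^ 2 with hk
  have hk2 : k ^ 2 = -w := kappa_sq S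
  have hw' : w = -k ^ 2 := by rw [hk2]; ring
  have r1 : u₁ ^ 2 = u₂ ^ 2 + k ^ 2 := by rw [R.r1, hk2]; ring
  have r3 := R.r3
  have he : 3 * e = 1 + k ^ 2 := by rw [S.he, hk2]; ring
  refine mkPt_add S.good
    (l := (u₂ * (u₁ + u₂ + u₃) + k * u₃ - k - u₁ + (1 - k) * u₂ + u₁ * u₃) / (2 * u₂))
    _ _ hne ?_ ?_ ?_ _
  · unfold hX hY
    field_simp
    linear_combination (-u₂ ^ 2 + u₃ ^ 2 - u₂ - u₃) * r1 + (k * u₁ + k * u₂ + k ^ 2) * r3
  · apply mul_left_cancel₀ (mul_ne_zero (mul_ne_zero h3 (mul_ne_zero h2 h2)) (pow_ne_zero 2 hu))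
    unfold hX
    field_simp
    linear_combination (-2 * u₂ * u₃ - u₂ ^ 2 - u₃ ^ 2 + 2 * u₂ + 2 * u₃ - 1) * r1 +
      (-2 * k * u₁ - 2 * k * u₂ - 2 * k ^ 2 - 2 * u₁ * u₂ - 2 * u₂ ^ 2) * r3 +
      (4 * u₂ ^ 2) * he
  · unfold hX hY
    field_simp
    linear_combination (-u₂ ^ 2 * u₃ ^ 2 + u₂ ^ 4 - k * u₂ * u₃ - k * u₃ ^ 2 + u₂ ^ 2 * u₃ +
        u₂ ^ 3 + k * u₂ + k) * r1 +
      (-k * u₁ * u₂ ^ 2 - k * u₂ ^ 3 - k ^ 2 * u₂ ^ 2 - k * u₁ * u₂ - k * u₂ ^ 2 - k ^ 2 * u₂) * r3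

end points

/-- The x-coordinate of `θ P`. -/
noncomputable def thx (c x : K) : K := -(x ^ 3 + 4 * c) / (3 * x ^ 2)

lemma Gk_theta {c e x y X : K} (h3 : (3 : K) ≠ 0) (hx : x ≠ 0) (h : y ^ 2 = x ^ 3 + c)
    (hXe : 4 * y ^ 2 * X = x ^ 4 - 8 * c * x) (he : e ^ 3 = -c) :
    (thx c x ^ 2 - 2 * e * thx c x - 2 * e ^ 2) * (9 * x ^ 4) =
      (x ^ 2 - 2 * e * x - 2 * e ^ 2) * (4 * y ^ 2 * (X + 2 * e)) := by
  have e1 : 4 * y ^ 2 * (X + 2 * e) = x ^ 4 - 8 * c * x + 8 * e * (x ^ 3 + c) := by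
    rw [mul_add, hXe, h]; ring
  rw [e1]
  unfold thx
  field_simp
  have hc : c = -e ^ 3 := by rw [he]; ring
  rw [hc]
  ring

lemma theta_H {w i e c : K} (S : Setup w i e c) {x y X : K} (hx : x ≠ 0) (hy : y ≠ 0)
    (hX0 : X ≠ 0) (h : y ^ 2 = x ^ 3 + c) (hXe : 4 * y ^ 2 * X = x ^ 4 - 8 * c * x) :
    Hf w e c (thx c x) = -(Hf w e c x * (X + 2 * (w * e)) * (X + 2 * e)) / (3 * X ^ 2) := by
  have h2 := S.h2
  have h3 := S.h3
  have he : e ^ 3 = -c := by rw [S.hc]; ring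
  have he' : (w * e) ^ 3 = -c := by
    have : w ^ 3 = 1 := by linear_combination (w - 1) * S.hw
    rw [mul_pow, this, he]; ring
  have g1 := Gk_theta h3 hx h hXe he'
  have g2 := Gk_theta h3 hx h hXe he
  have h4 : (4 : K) ≠ 0 := by
    have : (4 : K) = 2 * 2 := by norm_num
    rw [this]; exact mul_ne_zero h2 h2
  have h9 : (9 : K) ≠ 0 := by
    have : (9 : K) = 3 * 3 := by norm_num
    rw [this]; exact mul_ne_zero h3 h3
  have g3 : (thx c x ^ 3 + c) * (27 * x ^ 8) = -(16 * y ^ 6 * X ^ 2) := by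
    have e1 : 16 * y ^ 6 * X ^ 2 = y ^ 2 * (4 * y ^ 2 * X) ^ 2 := by ring
    rw [e1, hXe, h]
    unfold thx
    field_simp
    ring
  have h27 : (27 : K) ≠ 0 := by
    have : (27 : K) = 3 * 3 * 3 := by norm_num
    rw [this]; exact mul_ne_zero (mul_ne_zero h3 h3) h3
  have h16 : (16 : K) ≠ 0 := by
    have : (16 : K) = 4 * 4 := by norm_num
    rw [this]; exact mul_ne_zero h4 h4
  unfold Hf
  rw [← h]
  set A := thx c x ^ 2 - 2 * (w * e) * thx c x - 2 * (w * e) ^ 2 with hA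
  set B := thx c x ^ 2 - 2 * e * thx c x - 2 * e ^ 2 with hB
  set D := thx c x ^ 3 + c with hD
  have hA' : A = (x ^ 2 - 2 * (w * e) * x - 2 * (w * e) ^ 2) * (4 * y ^ 2 * (X + 2 * (w * e))) /
      (9 * x ^ 4) := by
    rw [eq_div_iff (mul_ne_zero h9 (pow_ne_zero 4 hx))]; exact g1
  have hB' : B = (x ^ 2 - 2 * e * x - 2 * e ^ 2) * (4 * y ^ 2 * (X + 2 * e)) / (9 * x ^ 4) := by
    rw [eq_div_iff (mul_ne_zero h9 (pow_ne_zero 4 hx))]; exact g2
  have hD' : D = -(16 * y ^ 6 * X ^ 2) / (27 * x ^ 8) := by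
    rw [eq_div_iff (mul_ne_zero h27 (pow_ne_zero 8 hx))]; exact g3
  rw [hA', hB', hD']
  field_simp
  ring

section
variable [DecidableEq K]
variable {w i e c : K} (S : Setup w i e c)

lemma theta_pt {x y : K} (hx : x ≠ 0) (h : y ^ 2 = x ^ 3 + c) :
    ∃ y' h', W S.good S.cube (mkPt S.good x y h) -
      W S.good S.cube (W S.good S.cube (mkPt S.good x y h)) = mkPt S.good (thx c x) y' h' := by
  have h3 := S.h3
  have hs : (w - w ^ 2) ^ 2 = -3 := by
    linear_combination (w ^ 2 - 3 * w + 3) * S.hw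
  have hs0 : w - w ^ 2 ≠ 0 := by
    intro h'
    rw [h'] at hs
    apply h3
    linear_combination hs
  have k1 := W_eqn S.cube h
  have k2 := W_eqn S.cube k1
  rw [W_mkPt S.good S.cube h k1, W_mkPt S.good S.cube k1 k2, sub_eq_add_neg, neg_mkPt]
  have k2' : (-y) ^ 2 = (w * (w * x)) ^ 3 + c := by rw [neg_sq]; exact k2
  have hne : w * x ≠ w * (w * x) := by
    intro h'
    apply hs0
    apply mul_right_cancel₀ hx
    rw [zero_mul]
    linear_combination h'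
  set l := 2 * y / ((w - w ^ 2) * x) with hl
  have hl1 : l * (w * x - w * (w * x)) = y - -y := by
    have : l * ((w - w ^ 2) * x) = 2 * y := by
      rw [hl]; exact div_mul_cancel₀ _ (mul_ne_zero hs0 hx)
    linear_combination this
  have hx3 : thx c x = l ^ 2 - w * x - w * (w * x) := by
    have : l ^ 2 = -4 * y ^ 2 / (3 * x ^ 2) := by
      rw [hl, div_pow, mul_pow ((w - w ^ 2)), hs]
      rw [div_eq_div_iff]
      · ring
      · exact mul_ne_zero (neg_ne_zero.2 h3) (pow_ne_zero 2 hx)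
      · exact mul_ne_zero h3 (pow_ne_zero 2 hx)
    rw [this, h]
    unfold thx
    field_simp
    linear_combination (3 * x ^ 3) * S.hw
  exact ⟨_, secant_eqn k1 k2' hne hl1 hx3 rfl, mkPt_add S.good k1 k2' hne hl1 hx3 rfl _⟩

end

end Pool.Agent.Work.MP_35f602_nt
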